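import Pool.Agent.Lib_MP_c83083_co.Step2a

/-!
# From two graphs to the frozen statement
-/

namespace Pool.Agent.Lib_MP_c83083_co

open Finset

set_option linter.unusedSectionVars false

section lists

variable {X : Type*} {c : ℕ}

/-- Consecutive entries `(vertex, colour of the next edge)` of a properly coloured walk. -/
def Rel (G : Fin c → SimpleGraph X) (p q : X × Fin c) : Prop :=
  (G p.2).Adj p.1 q.1 ∧ p.2 ≠ q.2

lemma final_of_list {G : Fin c → SimpleGraph X} {n : ℕ} (hn : 0 < n) (L : List (X × Fin c))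
    (hlen : L.length = n) (hch : L.IsChain (Rel G)) (x y : X × Fin c)
    (hx : L.head? = some x) (hy : L.getLast? = some y) (hyx : Rel G y x)
    (hnd : (L.map Prod.fst).Nodup) :
    ∃ f : Fin n → X, Function.Injective f ∧ ∃ col : Fin n → Fin c, ∀ j : Fin n,
      (G (col j)).Adj (f j) (f (finRotate n j)) ∧ col j ≠ col (finRotate n j) := by
  subst hlen
  obtain ⟨k, hk⟩ : ∃ k, L.length = k + 1 := ⟨L.length - 1, by omega⟩
  refine ⟨fun j => (L[j]).1, ?_, fun j => (L[j]).2, ?_⟩
  · intro i j hij
    have h1 := List.nodup_iff_injective_get.1 hnd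
    have h2 : (⟨i, by simp⟩ : Fin (L.map Prod.fst).length) = ⟨j, by simp⟩ := by
      apply h1
      simpa using hij
    ext
    simpa using h2
  · intro j
    show Rel G (L[j]) (L[finRotate L.length j])
    have hrot : ((finRotate L.length j : Fin L.length) : ℕ)
        = if (j : ℕ) = k then 0 else (j : ℕ) + 1 := by
      clear hch hx hy hnd hn
      revert j
      rw [hk]
      intro j
      rw [coe_finRotate]
      congr 1
      rw [Fin.ext_iff]
      rfl
    by_cases hj : (j : ℕ) = k
    · rw [if_pos hj] at hrot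
      have e1 : L[j] = y := by
        rw [List.getLast?_eq_getElem?] at hy
        have : L.length - 1 = (j : ℕ) := by omega
        rw [this] at hy
        rw [List.getElem?_eq_some_iff] at hy
        obtain ⟨_, h2⟩ := hy
        exact h2
      have e2 : L[finRotate L.length j] = x := by
        rw [List.head?_eq_getElem?, List.getElem?_eq_some_iff] at hx
        obtain ⟨_, h2⟩ := hx
        have : L[((finRotate L.length j : Fin L.length) : ℕ)] = L[0] := by
          congr 1
        exact this.trans h2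
      rw [e1, e2]
      exact hyx
    · rw [if_neg hj] at hrot
      have h1 : (j : ℕ) + 1 < L.length := by
        have := j.isLt
        omega
      have h2 := (List.isChain_iff_getElem.1 hch) j h1
      have : L[((finRotate L.length j : Fin L.length) : ℕ)] = L[(j : ℕ) + 1] := by
        congr 1
      show Rel G (L[(j : ℕ)]) (L[((finRotate L.length j : Fin L.length) : ℕ)])
      rw [this]
      exact h2

end lists

section

variable {V X : Type*} {c : ℕ} {σ : V → V}

lemma seg_list {G : Fin c → SimpleGraph X} {φ : V → X} {kR kB : Fin c} (hRB : kR ≠ kB)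
    {B : SimpleGraph V} (hB : ∀ u v, B.Adj u v → (G kB).Adj (φ u) (φ v))
    (hR : ∀ v, (G kR).Adj (φ v) (φ (σ v))) {a b : V} {S : Multiset V} (h : Seg B σ a b S) :
    ∃ L : List (X × Fin c), ((L.map Prod.fst : List X) : Multiset X) = S.map φ ∧
      L.IsChain (Rel G) ∧ (∃ k, k ≠ kB ∧ L.head? = some (φ a, k)) ∧
      L.getLast? = some (φ b, kB) := by
  induction h with
  | single a =>
    refine ⟨[(φ a, kR), (φ (σ a), kB)], by simp; rfl, ?_, ⟨kR, hRB, rfl⟩, rfl⟩
    simp only [List.isChain_cons_cons, List.isChain_singleton, and_true]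
    exact ⟨hR a, hRB⟩
  | @cons a b d S hab h2 ih =>
    obtain ⟨L, hL1, hL2, ⟨k, hk, hL3⟩, hL4⟩ := ih
    refine ⟨(φ a, kR) :: (φ (σ a), kB) :: L, ?_, ?_, ⟨kR, hRB, rfl⟩, ?_⟩
    · rw [List.map_cons, List.map_cons, ← Multiset.cons_coe, ← Multiset.cons_coe, hL1]
      simp
    · cases L with
      | nil => simp at hL3
      | cons x L =>
        simp only [List.head?_cons, Option.some.injEq] at hL3
        subst hL3
        simp only [List.isChain_cons_cons]
        exact ⟨⟨hR a, hRB⟩, ⟨hB _ _ hab, fun h => hk h.symm⟩, hL2⟩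
    · cases L with
      | nil => simp at hL3
      | cons x L => simpa using hL4

/-- Inserting the vertex `v₀` in a matching edge. -/
lemma seg_list_insert {G : Fin c → SimpleGraph X} {φ : V → X} {kR kB kD : Fin c} (hRB : kR ≠ kB)
    (hDB : kD ≠ kB) (hRD : kR ≠ kD) (hσ : ∀ v, σ (σ v) = v)
    {B : SimpleGraph V} (hB : ∀ u v, B.Adj u v → (G kB).Adj (φ u) (φ v))
    (hR : ∀ v, (G kR).Adj (φ v) (φ (σ v))) {v₀ : X} {v : V}
    (h1 : (G kR).Adj v₀ (φ v)) (h2 : (G kD).Adj v₀ (φ (σ v)))
    {a b : V} {S : Multiset V} (h : Seg B σ a b S) (hv : v ∈ S) :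
    ∃ L : List (X × Fin c), ((L.map Prod.fst : List X) : Multiset X) = v₀ ::ₘ S.map φ ∧
      L.IsChain (Rel G) ∧ (∃ k, k ≠ kB ∧ L.head? = some (φ a, k)) ∧
      L.getLast? = some (φ b, kB) := by
  have key : ∀ a, v = a ∨ v = σ a → ∃ k k', k ≠ kB ∧ k ≠ k' ∧ k' ≠ kB ∧
      (G k).Adj (φ a) v₀ ∧ (G k').Adj v₀ (φ (σ a)) := by
    rintro a (rfl | rfl)
    · exact ⟨kR, kD, hRB, hRD, hDB, h1.symm, h2⟩
    · rw [hσ] at h2
      exact ⟨kD, kR, hDB, hRD.symm, hRB, h2.symm, h1⟩
  induction h with
  | single a =>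
    obtain ⟨k, k', h3, h4, h5, h6, h7⟩ := key a (by simpa using hv)
    refine ⟨[(φ a, k), (v₀, k'), (φ (σ a), kB)], ?_, ?_, ⟨k, h3, rfl⟩, rfl⟩
    · simp only [List.map_cons, List.map_nil, Multiset.map_cons,
        Multiset.insert_eq_cons, Multiset.map_singleton]
      rw [Multiset.cons_swap]
      rfl
    · simp only [List.isChain_cons_cons, List.isChain_singleton, and_true]
      exact ⟨⟨h6, h4⟩, h7, h5⟩
  | @cons a b d S hab h2 ih =>
    by_cases hva : v = a ∨ v = σ a
    · obtain ⟨k, k', h3, h4, h5, h6, h7⟩ := key a hva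
      obtain ⟨L, hL1, hL2, ⟨l, hl, hL3⟩, hL4⟩ := seg_list hRB hB hR h2
      refine ⟨(φ a, k) :: (v₀, k') :: (φ (σ a), kB) :: L, ?_, ?_, ⟨k, h3, rfl⟩, ?_⟩
      · rw [List.map_cons, List.map_cons, List.map_cons, ← Multiset.cons_coe,
          ← Multiset.cons_coe, ← Multiset.cons_coe, hL1]
        simp only [Multiset.map_add, Multiset.insert_eq_cons, Multiset.map_cons,
          Multiset.map_singleton, Multiset.cons_add, Multiset.singleton_add]
        rw [Multiset.cons_swap]
      · cases L with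
        | nil => simp at hL3
        | cons x L =>
          simp only [List.head?_cons, Option.some.injEq] at hL3
          subst hL3
          simp only [List.isChain_cons_cons]
          exact ⟨⟨h6, h4⟩, ⟨h7, h5⟩, ⟨hB _ _ hab, fun h => hl h.symm⟩, hL2⟩
      · cases L with
        | nil => simp at hL3
        | cons x L => simpa using hL4
    · have hv' : v ∈ S := by
        rcases Multiset.mem_add.1 hv with h3 | h3
        · exact absurd (by simpa using h3) hva
        · exact h3
      obtain ⟨L, hL1, hL2, ⟨k, hk, hL3⟩, hL4⟩ := ih hv'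
      refine ⟨(φ a, kR) :: (φ (σ a), kB) :: L, ?_, ?_, ⟨kR, hRB, rfl⟩, ?_⟩
      · rw [List.map_cons, List.map_cons, ← Multiset.cons_coe, ← Multiset.cons_coe, hL1]
        simp only [Multiset.map_add, Multiset.insert_eq_cons, Multiset.map_cons,
          Multiset.map_singleton, Multiset.cons_add, Multiset.singleton_add]
        rw [Multiset.cons_swap (φ (σ a)) v₀, Multiset.cons_swap (φ a) v₀]
      · cases L with
        | nil => simp at hL3
        | cons x L =>
          simp only [List.head?_cons, Option.some.injEq] at hL3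
          subst hL3
          simp only [List.isChain_cons_cons]
          exact ⟨⟨hR a, hRB⟩, ⟨hB _ _ hab, fun h => hk h.symm⟩, hL2⟩
      · cases L with
        | nil => simp at hL3
        | cons x L => simpa using hL4

end

/-- The two-graph theorem, as a hypothesis. -/
def TwoGraphs : Prop :=
  ∀ (V : Type) [Fintype V] (R B : SimpleGraph V) (m : ℕ), 1 ≤ m → Fintype.card V = 2 * m →
    (∀ v, m ≤ deg R v) → (∀ v, m ≤ deg B v) →
    ∃ σ : V → V, (∀ v, σ (σ v) = v) ∧ (∀ v, R.Adj v (σ v)) ∧ Ham B σ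

lemma deg_eq_ncard {V : Type*} [Fintype V] (G : SimpleGraph V) (v : V) :
    deg G v = (G.neighborSet v).ncard := by
  classical
  unfold deg ad
  rw [← Finset.card_filter, Set.ncard_eq_toFinset_card']
  congr 1
  ext w
  simp

lemma deg_comap {n : ℕ} (G : SimpleGraph (Fin n)) (v₀ : Fin n) (v : {v : Fin n // v ≠ v₀}) :
    (G.neighborSet v).ncard ≤ deg (G.comap (Subtype.val : {v : Fin n // v ≠ v₀} → Fin n)) v + 1 := by
  classical
  rw [← deg_eq_ncard]
  unfold deg
  rw [← Finset.add_sum_erase _ _ (Finset.mem_univ v₀), add_comm]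
  refine Nat.add_le_add ?_ (ad_le_one _ _)
  refine le_of_eq ?_
  symm
  refine Finset.sum_bij (fun w _ => (w : Fin n)) ?_ ?_ ?_ ?_
  · intro w _; rw [Finset.mem_erase]; exact ⟨w.2, Finset.mem_univ _⟩
  · intro w _ w' _ h; exact Subtype.ext h
  · intro w hw; rw [Finset.mem_erase] at hw; exact ⟨⟨w, hw.1⟩, Finset.mem_univ _, rfl⟩
  · intro w _; rfl

theorem assemble (H2 : TwoGraphs) :
    ∀ (n c : ℕ) (G : Fin c → SimpleGraph (Fin n)),
      2 ≤ n →
      (∀ (i : Fin c) (v : Fin n), (n + 1) / 2 ≤ ((G i).neighborSet v).ncard) →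
      (((3 ≤ c ∨ (c = 2 ∧ Even n)) →
          ∃ f : Fin n → Fin n, Function.Injective f ∧
            ∃ col : Fin n → Fin c, ∀ j : Fin n,
              (G (col j)).Adj (f j) (f (finRotate n j)) ∧ col j ≠ col (finRotate n j)) ∧
       ((c = 2 ∧ Odd n) →
          ∃ f : Fin (n - 1) → Fin n, Function.Injective f ∧
            ∃ col : Fin (n - 1) → Fin c, ∀ j : Fin (n - 1),
              (G (col j)).Adj (f j) (f (finRotate (n - 1) j)) ∧
                col j ≠ col (finRotate (n - 1) j))) := by
  classical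
  intro n c G hn hdeg
  -- even case
  have heven : Even n → 2 ≤ c → ∃ f : Fin n → Fin n, Function.Injective f ∧
            ∃ col : Fin n → Fin c, ∀ j : Fin n,
              (G (col j)).Adj (f j) (f (finRotate n j)) ∧ col j ≠ col (finRotate n j) := by
    rintro ⟨m, hm⟩ hc
    have hm' : (n + 1) / 2 = m := by omega
    rw [hm'] at hdeg
    obtain ⟨σ, hσ, hR, a, b, hs, hba⟩ := H2 (Fin n) (G ⟨0, by omega⟩) (G ⟨1, by omega⟩) m
      (by omega) (by rw [Fintype.card_fin]; omega)
      (fun v => by rw [deg_eq_ncard]; exact hdeg _ v)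
      (fun v => by rw [deg_eq_ncard]; exact hdeg _ v)
    obtain ⟨L, hL1, hL2, ⟨k, hk, hL3⟩, hL4⟩ := seg_list (G := G) (φ := id)
      (kR := ⟨0, by omega⟩) (kB := ⟨1, by omega⟩) (by simp) (fun u v h => h) hR hs
    rw [Multiset.map_id] at hL1
    refine final_of_list (by omega) L ?_ hL2 _ _ hL3 hL4 ⟨hba, fun h => hk h.symm⟩ ?_
    · have := congrArg Multiset.card hL1
      rw [Multiset.coe_card, List.length_map] at this
      rw [this]
      exact Finset.card_univ.trans (Fintype.card_fin n)
    · rw [← Multiset.coe_nodup, hL1]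
      exact Finset.univ.nodup
  -- odd case: delete the vertex `v₀`
  have hodd : Odd n → 2 ≤ c → ∃ (v₀ : Fin n) (σ : {v : Fin n // v ≠ v₀} → {v : Fin n // v ≠ v₀}),
      (∀ v, σ (σ v) = v) ∧ (∀ h0 : 0 < c, ∀ v, (G ⟨0, h0⟩).Adj v.1 (σ v).1) ∧
      (∀ h1 : 1 < c, Ham ((G ⟨1, h1⟩).comap (Subtype.val : {v : Fin n // v ≠ v₀} → Fin n)) σ) ∧
      Fintype.card {v : Fin n // v ≠ v₀} + 1 = n := by
    rintro ⟨m, hm⟩ hc
    have hm' : (n + 1) / 2 = m + 1 := by omega
    rw [hm'] at hdeg
    have hcard : Fintype.card {v : Fin n // v ≠ ⟨0, by omega⟩} = 2 * m := by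
      rw [Fintype.card_subtype_compl, Fintype.card_fin, Fintype.card_subtype_eq]
      omega
    obtain ⟨σ, hσ, hR, hH⟩ := H2 {v : Fin n // v ≠ ⟨0, by omega⟩}
      ((G ⟨0, by omega⟩).comap Subtype.val) ((G ⟨1, by omega⟩).comap Subtype.val) m
      (by omega) hcard
      (fun v => by have := deg_comap (G ⟨0, by omega⟩) _ v; have := hdeg ⟨0, by omega⟩ v; omega)
      (fun v => by have := deg_comap (G ⟨1, by omega⟩) _ v; have := hdeg ⟨1, by omega⟩ v; omega)
    exact ⟨_, σ, hσ, fun _ => hR, fun _ => hH, by omega⟩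
  refine ⟨?_, ?_⟩
  · intro hc
    rcases Nat.even_or_odd n with he | ho
    · exact heven he (by omega)
    · have hc3 : 3 ≤ c := by
        rcases hc with hc | hc
        · exact hc
        · exact absurd hc.2 (Nat.not_even_iff_odd.2 ho)
      obtain ⟨v₀, σ, hσ, hR, hH, hcard⟩ := hodd ho (by omega)
      obtain ⟨a, b, hs, hba⟩ := hH (by omega)
      obtain ⟨m, hm⟩ := ho
      have hm' : (n + 1) / 2 = m + 1 := by omega
      rw [hm'] at hdeg
      -- a place where `v₀` can be inserted
      obtain ⟨v, hv1, hv2⟩ : ∃ v : {v : Fin n // v ≠ v₀}, (G ⟨0, by omega⟩).Adj v₀ v.1 ∧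
          (G ⟨2, by omega⟩).Adj v₀ (σ v).1 := by
        by_contra hcon
        push Not at hcon
        have hdeg0 : ∀ i : Fin c, ∑ w : {v : Fin n // v ≠ v₀}, ad (G i) v₀ w.1
            = ((G i).neighborSet v₀).ncard := by
          intro i
          rw [← deg_eq_ncard]
          unfold deg
          rw [← Finset.add_sum_erase _ _ (Finset.mem_univ v₀),
            ad_eq_zero.2 ((G i).loopless.irrefl v₀), zero_add]
          refine Finset.sum_bij (M := ℕ) (fun w _ => (w : Fin n)) ?_ ?_ ?_ ?_
          · intro w _; rw [Finset.mem_erase]; exact ⟨w.2, Finset.mem_univ _⟩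
          · intro w _ w' _ h; exact Subtype.ext h
          · intro w hw; rw [Finset.mem_erase] at hw; exact ⟨⟨w, hw.1⟩, Finset.mem_univ _, rfl⟩
          · intro w _; rfl
        have hbij : ∑ w : {v : Fin n // v ≠ v₀}, ad (G ⟨2, by omega⟩) v₀ (σ w).1
            = ∑ w : {v : Fin n // v ≠ v₀}, ad (G ⟨2, by omega⟩) v₀ w.1 :=
          Function.Bijective.sum_comp (Function.Involutive.bijective hσ)
            fun w => ad (G ⟨2, by omega⟩) v₀ w.1
        have hle : ∀ w : {v : Fin n // v ≠ v₀},
            ad (G ⟨0, by omega⟩) v₀ w.1 + ad (G ⟨2, by omega⟩) v₀ (σ w).1 ≤ 1 := by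
          intro w
          by_contra h3
          have h4 := ad_le_one (H := G ⟨0, by omega⟩) v₀ w.1
          have h5 := ad_le_one (H := G ⟨2, by omega⟩) v₀ (σ w).1
          exact hcon w (ad_eq_one.1 (by omega)) (ad_eq_one.1 (by omega))
        have h6 := Finset.sum_le_sum fun w (_ : w ∈ (Finset.univ :
          Finset {v : Fin n // v ≠ v₀})) => hle w
        rw [Finset.sum_add_distrib, hbij, hdeg0, hdeg0, Finset.sum_const, Finset.card_univ,
          smul_eq_mul, mul_one] at h6
        have h7 := hdeg ⟨0, by omega⟩ v₀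
        have h8 := hdeg ⟨2, by omega⟩ v₀
        omega
      obtain ⟨L, hL1, hL2, ⟨k, hk, hL3⟩, hL4⟩ := seg_list_insert (G := G)
        (φ := (Subtype.val : {v : Fin n // v ≠ v₀} → Fin n))
        (kR := ⟨0, by omega⟩) (kB := ⟨1, by omega⟩) (kD := ⟨2, by omega⟩) (by simp) (by simp)
        (by simp) hσ (fun u v h => h) (hR _) hv1 hv2 hs (Finset.mem_univ v)
      refine final_of_list (by omega) L ?_ hL2 _ _ hL3 hL4 ⟨hba, fun h => hk h.symm⟩ ?_
      · have := congrArg Multiset.card hL1
        rw [Multiset.coe_card, List.length_map, Multiset.card_cons, Multiset.card_map] at this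
        rw [this]
        have h9 : Multiset.card (Finset.univ : Finset {v : Fin n // v ≠ v₀}).val
            = Fintype.card {v : Fin n // v ≠ v₀} := rfl
        rw [h9]
        omega
      · rw [← Multiset.coe_nodup, hL1, Multiset.nodup_cons]
        refine ⟨?_, Multiset.Nodup.map Subtype.val_injective Finset.univ.nodup⟩
        rw [Multiset.mem_map]
        rintro ⟨w, _, hw⟩
        exact w.2 hw
  · rintro ⟨hc, ho⟩
    obtain ⟨v₀, σ, hσ, hR, hH, hcard⟩ := hodd ho (by omega)
    obtain ⟨a, b, hs, hba⟩ := hH (by omega)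
    obtain ⟨L, hL1, hL2, ⟨k, hk, hL3⟩, hL4⟩ := seg_list (G := G)
      (φ := (Subtype.val : {v : Fin n // v ≠ v₀} → Fin n))
      (kR := ⟨0, by omega⟩) (kB := ⟨1, by omega⟩) (by simp) (fun u v h => h) (hR _) hs
    refine final_of_list (by omega) L ?_ hL2 _ _ hL3 hL4 ⟨hba, fun h => hk h.symm⟩ ?_
    · have := congrArg Multiset.card hL1
      rw [Multiset.coe_card, List.length_map, Multiset.card_map] at this
      rw [this]
      have h9 : Multiset.card (Finset.univ : Finset {v : Fin n // v ≠ v₀}).val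
          = Fintype.card {v : Fin n // v ≠ v₀} := rfl
      rw [h9]
      omega
    · rw [← Multiset.coe_nodup, hL1]
      exact Multiset.Nodup.map Subtype.val_injective Finset.univ.nodup

end Pool.Agent.Lib_MP_c83083_co
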