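import Pool.Agent.Lib_MP_c83083_co.Defs

/-! Counting and partition API for alternating segments and cycles. -/

namespace Pool.Agent.Lib_MP_c83083_co

open Finset

variable {V : Type*} {H : SimpleGraph V} {σ : V → V}

theorem ad_pos {u v : V} (h : H.Adj u v) : ad H u v = 1 := by simp [ad, h]

theorem ad_zero {u v : V} (h : ¬ H.Adj u v) : ad H u v = 0 := by simp [ad, h]

theorem ad_le (u v : V) : ad H u v ≤ 1 := by unfold ad; split <;> omega

theorem ad_symm (u v : V) : ad H u v = ad H v u := by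
  unfold ad; rw [H.adj_comm]

theorem adEqOne {u v : V} : ad H u v = 1 ↔ H.Adj u v := by
  unfold ad; split <;> simp_all

theorem adEqZero {u v : V} : ad H u v = 0 ↔ ¬ H.Adj u v := by
  unfold ad; split <;> simp_all

@[simp] theorem ad_self (u : V) : ad H u u = 0 := ad_zero (H.irrefl)

theorem ad_sigma (D : Dom H σ) (u : V) : ad H u (σ u) = 0 := ad_zero (D.nadj u)

theorem ad_sigma' (D : Dom H σ) (u : V) : ad H (σ u) u = 0 := by
  rw [ad_symm]; exact ad_sigma D u

@[simp] theorem dg_zero (u : V) : dg H u 0 = 0 := by simp [dg]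

theorem dgAdd (u : V) (S T : Multiset V) : dg H u (S + T) = dg H u S + dg H u T := by
  simp [dg]

@[simp] theorem dg_single (u v : V) : dg H u {v} = ad H u v := by simp [dg]

@[simp] theorem dgPair (u v w : V) : dg H u {v, w} = ad H u v + ad H u w := by
  simp [dg, Multiset.insert_eq_cons]

theorem dg_cons (u v : V) (S : Multiset V) : dg H u (v ::ₘ S) = ad H u v + dg H u S := by
  simp [dg]

theorem dg_le_card (u : V) (S : Multiset V) : dg H u S ≤ S.card := by
  induction S using Multiset.induction_on with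
  | empty => simp
  | cons a s ih =>
    rw [dg_cons, Multiset.card_cons]
    have := ad_le (H := H) u a
    omega

theorem dg_sum {ι : Type*} (u : V) (s : Finset ι) (f : ι → Multiset V) :
    dg H u (∑ i ∈ s, f i) = ∑ i ∈ s, dg H u (f i) := by
  classical
  induction s using Finset.induction_on with
  | empty => simp
  | insert a s ha ih => rw [Finset.sum_insert ha, Finset.sum_insert ha, dgAdd, ih]

theorem dgBlk (u : V) (C : ℤ → V) (i j : ℤ) :
    dg H u (blk σ C i j) = ∑ k ∈ Finset.Ico i j, (ad H u (C k) + ad H u (σ (C k))) := by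
  unfold blk
  rw [dg_sum]
  exact Finset.sum_congr rfl (fun k _ => dgPair _ _ _)

theorem dg_univ [Fintype V] (u : V) : dg H u (Finset.univ : Finset V).val = deg H u := rfl

theorem cardBlk (C : ℤ → V) (i j : ℤ) : (blk σ C i j).card = 2 * (j - i).toNat := by
  unfold blk
  rw [Multiset.card_sum]
  simp [Multiset.insert_eq_cons, mul_comm]

theorem mem_blk {C : ℤ → V} {i j : ℤ} {v : V} :
    v ∈ blk σ C i j ↔ ∃ k, i ≤ k ∧ k < j ∧ (v = C k ∨ v = σ (C k)) := by
  unfold blk
  rw [Multiset.mem_sum]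
  constructor
  · rintro ⟨k, hk, hv⟩
    rw [Finset.mem_Ico] at hk
    refine ⟨k, hk.1, hk.2, ?_⟩
    simpa [Multiset.insert_eq_cons] using hv
  · rintro ⟨k, h1, h2, hv⟩
    refine ⟨k, Finset.mem_Ico.2 ⟨h1, h2⟩, ?_⟩
    simpa [Multiset.insert_eq_cons] using hv

/-- a sum of a periodic function over a period does not depend on the starting point -/
theorem sum_period {M : Type*} [AddCommMonoid M] {c : ℕ} {f : ℤ → M} (hf : ∀ i, f (i + c) = f i)
    (a : ℤ) : ∑ k ∈ Finset.Ico a (a + c), f k = ∑ k ∈ Finset.Ico (0 : ℤ) c, f k := by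
  rcases Nat.eq_zero_or_pos c with hc | hc
  · subst hc; simp
  have hc : (0 : ℤ) < c := by exact_mod_cast hc
  have key : ∀ a : ℤ, ∑ k ∈ Finset.Ico (a + 1) (a + 1 + c), f k
      = ∑ k ∈ Finset.Ico a (a + c), f k := by
    intro a
    have h1 : Finset.Ico a (a + c) = insert a (Finset.Ico (a + 1) (a + c)) := by
      ext x; simp only [Finset.mem_Ico, Finset.mem_insert]; omega
    have h2 : Finset.Ico (a + 1) (a + 1 + c) = insert (a + c) (Finset.Ico (a + 1) (a + c)) := by
      ext x; simp only [Finset.mem_Ico, Finset.mem_insert]; omega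
    rw [h1, h2, Finset.sum_insert (by simp), Finset.sum_insert (by simp), hf]
  induction a using Int.induction_on with
  | zero => simp
  | succ n ih => rw [key, ih]
  | pred n ih =>
    rw [← ih, ← key (-n - 1)]; ring_nf

theorem sum_Ico_shift {M : Type*} [AddCommMonoid M] (f : ℤ → M) (a i j : ℤ) :
    ∑ k ∈ Finset.Ico i j, f (k + a) = ∑ k ∈ Finset.Ico (i + a) (j + a), f k := by
  refine Finset.sum_bij (fun k _ => k + a) ?_ ?_ ?_ ?_
  · intro k hk; simp at hk ⊢; omega
  · intro k _ l _ h; simpa using h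
  · intro k hk; simp at hk; exact ⟨k - a, by simp; omega, by simp⟩
  · intro k _; rfl

/-- number of neighbours of `u` in the cycle as a sum over the `H`-edges
`e_k = (σ (C (k-1)), C k)` of the cycle -/
theorem Cyc.dg_edges {c : ℕ} {C : ℤ → V} (h : Cyc H σ c C) (u : V) (a : ℤ) :
    dg H u (blk σ C 0 c)
      = ∑ k ∈ Finset.Ico a (a + c), (ad H u (σ (C (k - 1))) + ad H u (C k)) := by
  rw [dgBlk, Finset.sum_add_distrib, Finset.sum_add_distrib, add_comm]
  congr 1
  · have h1 := sum_period (c := c) (f := fun k => ad H u (σ (C k)))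
      (fun i => by show ad H u (σ (C (i + c))) = _; rw [h.per]) (a - 1)
    rw [← h1]
    have h2 := sum_Ico_shift (fun k => ad H u (σ (C k))) (-1) a (a + c)
    rw [show a - 1 + (c : ℤ) = a + c + -1 by ring, show a - 1 = a + -1 by ring, ← h2]
    refine Finset.sum_congr rfl ?_
    intro k _
    rw [show k - 1 = k + -1 by ring]
  · rw [sum_period (c := c) (f := fun k => ad H u (C k))
      (fun i => by show ad H u (C (i + c)) = _; rw [h.per]) a]

/-- segments are closed under `σ` -/
theorem Seg.mem_sigma (D : Dom H σ) {a b : V} {S : Multiset V} (h : Seg H σ a b S) {v : V}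
    (hv : v ∈ S) : σ v ∈ S := by
  induction h with
  | single a =>
    simp only [Multiset.insert_eq_cons, Multiset.mem_cons, Multiset.mem_singleton] at hv ⊢
    rcases hv with rfl | rfl
    · right; rfl
    · left; exact D.inv _
  | @cons a b c S _ _ ih =>
    simp only [Multiset.mem_add, Multiset.insert_eq_cons, Multiset.mem_cons,
      Multiset.mem_singleton] at hv ⊢
    rcases hv with (rfl | rfl) | hv
    · left; right; rfl
    · left; left; exact D.inv _
    · right; exact ih hv

theorem Seg.left_mem {a b : V} {S : Multiset V} (h : Seg H σ a b S) : a ∈ S := by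
  cases h <;> simp [Multiset.insert_eq_cons]

theorem Seg.right_mem (D : Dom H σ) {a b : V} {S : Multiset V} (h : Seg H σ a b S) : b ∈ S :=
  (h.rev D).left_mem

theorem Seg.cardPos {a b : V} {S : Multiset V} (h : Seg H σ a b S) : 2 ≤ S.card := by
  cases h <;> simp [Multiset.insert_eq_cons]

section part
variable [Fintype V]

theorem nodup_of_part {S T : Multiset V} (h : S + T = (Finset.univ : Finset V).val) :
    S.Nodup := by
  have : (S + T).Nodup := by rw [h]; exact Finset.univ.nodup
  exact (Multiset.nodup_add.1 this).1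

theorem nodup_of_part' {S T : Multiset V} (h : S + T = (Finset.univ : Finset V).val) :
    T.Nodup := by
  have : (S + T).Nodup := by rw [h]; exact Finset.univ.nodup
  exact (Multiset.nodup_add.1 this).2.1

theorem disj_of_part {S T : Multiset V} (h : S + T = (Finset.univ : Finset V).val) {v : V}
    (hS : v ∈ S) : v ∉ T := by
  have : (S + T).Nodup := by rw [h]; exact Finset.univ.nodup
  have h3 := (Multiset.nodup_add.1 this).2.2
  exact fun hT => (Multiset.disjoint_left.1 h3) hS hT

theorem mem_of_part {S T : Multiset V} (h : S + T = (Finset.univ : Finset V).val) (v : V) :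
    v ∈ S ∨ v ∈ T := by
  have : v ∈ S + T := by rw [h]; exact Finset.mem_univ v
  exact Multiset.mem_add.1 this

/-- degree splits over a partition -/
theorem deg_part {S T : Multiset V} (h : S + T = (Finset.univ : Finset V).val) (u : V) :
    deg H u = dg H u S + dg H u T := by
  rw [← dg_univ, ← h, dgAdd]

end part

/-- In a nodup block, dominoes are distinct. -/
theorem blk_nodup_ne {C : ℤ → V} {i j : ℤ} (hn : (blk σ C i j).Nodup) {k l : ℤ}
    (hk : i ≤ k) (hkl : k < l) (hl : l < j) :
    C k ≠ C l ∧ C k ≠ σ (C l) ∧ σ (C k) ≠ C l ∧ σ (C k) ≠ σ (C l) := by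
  rw [← blk_add (σ := σ) (C := C) (i := i) (j := l) (k := j) (by omega) (by omega)] at hn
  have h3 := (Multiset.nodup_add.1 hn).2.2
  have hk1 : C k ∈ blk σ C i l := mem_blk.2 ⟨k, hk, hkl, Or.inl rfl⟩
  have hk2 : σ (C k) ∈ blk σ C i l := mem_blk.2 ⟨k, hk, hkl, Or.inr rfl⟩
  have hl1 : C l ∈ blk σ C l j := mem_blk.2 ⟨l, le_refl _, hl, Or.inl rfl⟩
  have hl2 : σ (C l) ∈ blk σ C l j := mem_blk.2 ⟨l, le_refl _, hl, Or.inr rfl⟩
  have d : ∀ {x : V}, x ∈ blk σ C i l → x ∉ blk σ C l j :=
    fun {x} => Multiset.disjoint_left.1 h3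
  refine ⟨?_, ?_, ?_, ?_⟩
  · intro h; exact d hk1 (h ▸ hl1)
  · intro h; exact d hk1 (h ▸ hl2)
  · intro h; exact d hk2 (h ▸ hl1)
  · intro h; exact d hk2 (h ▸ hl2)

/-- In a cycle with nodup support, dominoes with indices at distance `< c` are distinct. -/
theorem Cyc.ne {c : ℕ} {C : ℤ → V} (h : Cyc H σ c C) (hn : (blk σ C 0 c).Nodup) {k l : ℤ}
    (hkl : k < l) (hl : l < k + c) :
    C k ≠ C l ∧ C k ≠ σ (C l) ∧ σ (C k) ≠ C l ∧ σ (C k) ≠ σ (C l) := by
  rw [← h.blk_full k] at hn
  exact blk_nodup_ne hn (le_refl _) hkl hl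

/-- In a cycle (with nodup support) there are at least two dominoes. -/
theorem Cyc.two_le (D : Dom H σ) {c : ℕ} {C : ℤ → V} (h : Cyc H σ c C) : 2 ≤ c := by
  by_contra hc
  have hc1 : c = 1 := by have := h.pos; omega
  subst hc1
  have h1 := h.adj 0
  have h2 := h.per 0
  simp only [Nat.cast_one] at h2
  rw [h2] at h1
  exact D.nadj _ h1.symm

theorem Cyc.mem_blk_full {c : ℕ} {C : ℤ → V} (h : Cyc H σ c C) (k : ℤ) :
    C k ∈ blk σ C 0 c := by
  rw [← h.blk_full k]
  have := h.pos
  exact mem_blk.2 ⟨k, le_refl _, by omega, Or.inl rfl⟩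

theorem Cyc.mem_blk_full' {c : ℕ} {C : ℤ → V} (h : Cyc H σ c C) (k : ℤ) :
    σ (C k) ∈ blk σ C 0 c := by
  rw [← h.blk_full k]
  have := h.pos
  exact mem_blk.2 ⟨k, le_refl _, by omega, Or.inr rfl⟩

/-- every vertex of the cycle occurs with an index in the window `[a, a + c)` -/
theorem Cyc.exists_index {c : ℕ} {C : ℤ → V} (h : Cyc H σ c C) {v : V}
    (hv : v ∈ blk σ C 0 c) (a : ℤ) : ∃ k, a ≤ k ∧ k < a + c ∧ (v = C k ∨ v = σ (C k)) := by
  rw [← h.blk_full a] at hv
  exact mem_blk.1 hv

/-- the replaced cycle: domino `k` (and its translates by `c`) is replaced by `p`. -/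
theorem Cyc.upd {c : ℕ} {C : ℤ → V} (h : Cyc H σ c C) (hc : 2 ≤ c) {k : ℤ} {p : V}
    (h1 : H.Adj (σ (C (k - 1))) p) (h2 : H.Adj (σ p) (C (k + 1))) :
    Cyc H σ c (upd c C k p) where
  pos := h.pos
  per i := by
    unfold Lib_MP_c83083_co.upd
    rw [h.per, show i + (c : ℤ) - k = i - k + c by ring, Int.add_emod_right]
  adj i := by
    have hc' : (2 : ℤ) ≤ c := by exact_mod_cast hc
    unfold Lib_MP_c83083_co.upd
    by_cases h3 : (i - k) % (c : ℤ) = 0
    · have h4 : ¬ (i + 1 - k) % (c : ℤ) = 0 := by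
        intro h4
        have e1 := Int.emod_emod_of_dvd
        obtain ⟨x, hx⟩ := Int.dvd_of_emod_eq_zero h3
        obtain ⟨y, hy⟩ := Int.dvd_of_emod_eq_zero h4
        have : (c : ℤ) * (y - x) = 1 := by rw [mul_sub, ← hx, ← hy]; ring
        have := Int.isUnit_iff.1 (IsUnit.of_mul_eq_one _ this)
        omega
      rw [if_pos h3, if_neg h4]
      obtain ⟨x, hx⟩ := Int.dvd_of_emod_eq_zero h3
      have : C (i + 1) = C (k + 1) := by
        rw [show i + 1 = k + 1 + x * c by linarith, h.per_mul]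
      rw [this]; exact h2
    · rw [if_neg h3]
      by_cases h4 : (i + 1 - k) % (c : ℤ) = 0
      · rw [if_pos h4]
        obtain ⟨x, hx⟩ := Int.dvd_of_emod_eq_zero h4
        have : C i = C (k - 1) := by
          rw [show i = k - 1 + x * c by linarith, h.per_mul]
        rw [this]; exact h1
      · rw [if_neg h4]; exact h.adj i

theorem updSelf (c : ℕ) (C : ℤ → V) (k : ℤ) (p : V) : upd c C k p k = p := by
  simp [Lib_MP_c83083_co.upd]

theorem updOfLt {c : ℕ} {C : ℤ → V} {k : ℤ} {p : V} {l : ℤ} (h1 : k < l) (h2 : l < k + c) :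
    upd c C k p l = C l := by
  unfold Lib_MP_c83083_co.upd
  rw [if_neg]
  intro h
  have h3 : (l - k) % (c : ℤ) = l - k := Int.emod_eq_of_lt (by omega) (by omega)
  omega

/-- support of the updated cycle -/
theorem Cyc.blk_upd {c : ℕ} {C : ℤ → V} (h : Cyc H σ c C) (hc : 2 ≤ c) {k : ℤ} {p : V}
    (h1 : H.Adj (σ (C (k - 1))) p) (h2 : H.Adj (σ p) (C (k + 1))) :
    blk σ (Lib_MP_c83083_co.upd c C k p) 0 c + {C k, σ (C k)}
      = blk σ C 0 c + {p, σ p} := by
  have hc' : (2 : ℤ) ≤ c := by exact_mod_cast hc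
  rw [← (h.upd hc h1 h2).blk_full k, ← h.blk_full k,
    ← blk_add (σ := σ) (C := C) (i := k) (j := k + 1) (k := k + c) (by omega) (by omega),
    ← blk_add (σ := σ) (C := Lib_MP_c83083_co.upd c C k p) (i := k) (j := k + 1) (k := k + c)
      (by omega) (by omega), blk_one, blk_one, updSelf,
    blk_congr (C := Lib_MP_c83083_co.upd c C k p) (C' := C) (i := k + 1) (j := k + c)
      (fun l hl1 hl2 => updOfLt (by omega) (by omega))]
  abel

section pairs
variable [Fintype V]

theorem Pair.toCyc {r : ℕ} (h : Pair H σ r) :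
    ∃ (c : ℕ) (C : ℤ → V) (x y : V) (T : Multiset V), Cyc H σ c C ∧ Seg H σ x y T ∧
      blk σ C 0 c + T = (Finset.univ : Finset V).val ∧ T.card = 2 * r := by
  obtain ⟨a, b, S, x, y, T, h1, h2, h3, h4, h5⟩ := h
  obtain ⟨c, C, hC, _, _, hS⟩ := h1.toCyc h2
  exact ⟨c, C, x, y, T, hC, h3, by rw [hS, h4], h5⟩

theorem card_part {T : Multiset V} {m r c : ℕ} {C : ℤ → V}
    (hcard : Fintype.card V = 2 * m) (h : blk σ C 0 c + T = (Finset.univ : Finset V).val)
    (hT : T.card = 2 * r) : c + r = m := by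
  have := congrArg Multiset.card h
  rw [Multiset.card_add, cardBlk, hT, Finset.card_val, Finset.card_univ, hcard] at this
  omega

end pairs

end Pool.Agent.Lib_MP_c83083_co
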