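import Pool.Agent.Lib_MP_c83083_co.Main

/-! Combination: choosing the perfect matching in `R`. -/

namespace Pool.Agent.Lib_MP_c83083_co

open Finset

set_option linter.unusedSectionVars false
set_option linter.unusedVariables false

variable {V : Type*} [Fintype V] [DecidableEq V] {B : SimpleGraph V} {σ : V → V}
variable {m : ℕ}

/-- The matching statement. -/
def MatchingStatement (V : Type*) [Fintype V] : Prop :=
  ∀ (R : SimpleGraph V) (m : ℕ), Fintype.card V = 2 * m → 2 ≤ m → (∀ v, m ≤ deg R v) →
    ∀ x y : V, ∃ σ : V → V, (∀ v, σ (σ v) = v) ∧ (∀ v, R.Adj v (σ v)) ∧ σ x ≠ y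

/-- `B` without the edges of the matching `σ` -/
def rem (B : SimpleGraph V) (σ : V → V) : SimpleGraph V where
  Adj u v := B.Adj u v ∧ v ≠ σ u ∧ u ≠ σ v
  symm := by
    constructor
    intro u v h
    exact ⟨h.1.symm, h.2.2, h.2.1⟩
  loopless := by
    constructor
    intro u h
    exact B.irrefl h.1

theorem rem_le {u v : V} (h : (rem B σ).Adj u v) : B.Adj u v := h.1

theorem rem_iff (hinv : ∀ v, σ (σ v) = v) {u v : V} :
    (rem B σ).Adj u v ↔ B.Adj u v ∧ v ≠ σ u := by
  constructor
  · exact fun h => ⟨h.1, h.2.1⟩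
  · refine fun h => ⟨h.1, h.2, ?_⟩
    intro e; apply h.2; rw [e, hinv]

theorem rem_dom (hinv : ∀ v, σ (σ v) = v) (hne : ∀ v, σ v ≠ v) : Dom (rem B σ) σ where
  inv := hinv
  ne := hne
  nadj v h := h.2.1 rfl

theorem Seg.mono {H H' : SimpleGraph V} (hm : ∀ u v, H.Adj u v → H'.Adj u v) {a b : V}
    {S : Multiset V} (h : Seg H σ a b S) : Seg H' σ a b S := by
  induction h with
  | single a => exact Seg.single a
  | cons hab _ ih => exact Seg.cons (hm _ _ hab) ih

theorem Ham.mono {H H' : SimpleGraph V} (hm : ∀ u v, H.Adj u v → H'.Adj u v)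
    (h : Ham H σ) : Ham H' σ := by
  obtain ⟨a, b, h1, h2⟩ := h
  exact ⟨a, b, h1.mono hm, hm _ _ h2⟩

open Classical in
theorem deg_filter (H : SimpleGraph V) (u : V) :
    deg H u = (Finset.univ.filter (fun w => H.Adj u w)).card := by
  unfold deg ad
  rw [Finset.sum_boole]
  simp only [Nat.cast_id]

theorem deg_le_of {u : V} {S : Finset V} (h : ∀ w, B.Adj u w → w ∈ S) : deg B u ≤ S.card := by
  classical
  rw [deg_filter]
  apply Finset.card_le_card
  intro w hw
  rw [Finset.mem_filter] at hw
  exact h w hw.2

theorem adj_of_deg {u : V} {S : Finset V} (h : ∀ w, B.Adj u w → w ∈ S) (hd : S.card ≤ deg B u) :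
    ∀ w ∈ S, B.Adj u w := by
  classical
  rw [deg_filter] at hd
  intro w hw
  have hsub : Finset.univ.filter (fun w => B.Adj u w) ⊆ S := by
    intro w hw
    rw [Finset.mem_filter] at hw
    exact h w hw.2
  have := Finset.eq_of_subset_of_card_le hsub hd
  rw [← this, Finset.mem_filter] at hw
  exact hw.2

theorem le_deg_of {u : V} {S : Finset V} (h : ∀ w ∈ S, B.Adj u w) : S.card ≤ deg B u := by
  classical
  rw [deg_filter]
  apply Finset.card_le_card
  intro w hw
  rw [Finset.mem_filter]
  exact ⟨Finset.mem_univ _, h w hw⟩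

theorem rem_deg (hinv : ∀ v, σ (σ v) = v) (u : V) : deg B u ≤ deg (rem B σ) u + 1 := by
  classical
  rw [deg_filter, deg_filter]
  have : Finset.univ.filter (fun w => B.Adj u w) ⊆
      insert (σ u) (Finset.univ.filter (fun w => (rem B σ).Adj u w)) := by
    intro w hw
    rw [Finset.mem_filter] at hw
    rw [Finset.mem_insert, Finset.mem_filter]
    by_cases h : w = σ u
    · exact Or.inl h
    · exact Or.inr ⟨Finset.mem_univ _, (rem_iff hinv).2 ⟨hw.2, h⟩⟩
  exact (Finset.card_le_card this).trans (Finset.card_insert_le _ _)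

/-- data for the given graph `B` and matching `σ`. -/
structure Dat (B : SimpleGraph V) (σ : V → V) (m : ℕ) : Prop where
  inv : ∀ v, σ (σ v) = v
  ne : ∀ v, σ v ≠ v
  hcard : Fintype.card V = 2 * m
  hdeg : ∀ v, m ≤ deg B v

/-- type 1 exception: high degree vertices are `s, σ s`. -/
theorem Dat.exc1 (X : Dat B σ m) (h : Exc1 (rem B σ) σ m) :
    5 ≤ m ∧ ∃ s, ∀ v, m < deg B v ↔ v = s ∨ v = σ s := by
  classical
  obtain ⟨K, s, h5, hK, hcl, hs, hs', hno⟩ := h
  refine ⟨h5, s, ?_⟩
  have hinj : ∀ {a b}, σ a = σ b → a = b := by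
    intro a b e
    have := congrArg σ e
    rwa [X.inv, X.inv] at this
  -- the other clique
  set K' := (((Finset.univ \ K).erase s).erase (σ s)) with hK'
  have hmem' : ∀ w, w ∈ K' ↔ w ∉ K ∧ w ≠ s ∧ w ≠ σ s := by
    intro w
    rw [hK', Finset.mem_erase, Finset.mem_erase, Finset.mem_sdiff]
    constructor
    · rintro ⟨h1, h2, _, h3⟩; exact ⟨h3, h2, h1⟩
    · rintro ⟨h1, h2, h3⟩; exact ⟨h3, h2, Finset.mem_univ _, h1⟩
  have hcard' : K'.card + 1 = m := by
    have e1 : (Finset.univ \ K).card = 2 * m - K.card := by
      rw [Finset.card_sdiff_of_subset (Finset.subset_univ _), Finset.card_univ, X.hcard]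
    have m1 : s ∈ Finset.univ \ K := by rw [Finset.mem_sdiff]; exact ⟨Finset.mem_univ _, hs⟩
    have m2 : σ s ∈ (Finset.univ \ K).erase s := by
      rw [Finset.mem_erase, Finset.mem_sdiff]; exact ⟨X.ne s, Finset.mem_univ _, hs'⟩
    have e2 := Finset.card_erase_add_one m1
    have e3 : K'.card + 1 = ((Finset.univ \ K).erase s).card := Finset.card_erase_add_one m2
    omega
  have hcl' : ∀ v ∈ K', σ v ∈ K' := by
    intro v hv
    rw [hmem'] at hv ⊢
    refine ⟨?_, ?_, ?_⟩
    · intro h; apply hv.1; rw [← X.inv v]; exact hcl _ h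
    · intro h; apply hv.2.2; rw [← h, X.inv]
    · intro h; exact hv.2.1 (hinj h)
  have hno' : ∀ u ∈ K', ∀ w ∈ K, ¬ (rem B σ).Adj u w := by
    intro u hu w hw hadj
    rw [hmem'] at hu
    exact hno w hw u hu.1 hu.2.1 hu.2.2 hadj.symm
  -- neighbourhoods
  have nb : ∀ u ∈ K, ∀ w, B.Adj u w ↔ w ∈ (K.erase u) ∪ {s, σ s} := by
    intro u hu
    have hsub : ∀ w, B.Adj u w → w ∈ (K.erase u) ∪ {s, σ s} := by
      intro w hw
      rw [Finset.mem_union, Finset.mem_erase, Finset.mem_insert, Finset.mem_singleton]
      by_cases h1 : w ∈ K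
      · left; exact ⟨fun e => by subst e; exact B.irrefl hw, h1⟩
      · by_cases h2 : w = s
        · right; left; exact h2
        · by_cases h3 : w = σ s
          · right; right; exact h3
          · exfalso
            apply hno u hu w h1 h2 h3
            rw [rem_iff X.inv]
            refine ⟨hw, ?_⟩
            intro e; apply h1; rw [e]; exact hcl u hu
    have hc : ((K.erase u) ∪ {s, σ s}).card ≤ deg B u := by
      refine le_trans ?_ (X.hdeg u)
      refine (Finset.card_union_le _ _).trans ?_
      have := Finset.card_erase_add_one hu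
      have := Finset.card_le_two (a := s) (b := σ s)
      omega
    intro w
    exact ⟨hsub w, adj_of_deg hsub hc w⟩
  have nb' : ∀ u ∈ K', ∀ w, B.Adj u w ↔ w ∈ (K'.erase u) ∪ {s, σ s} := by
    intro u hu
    have hsub : ∀ w, B.Adj u w → w ∈ (K'.erase u) ∪ {s, σ s} := by
      intro w hw
      rw [Finset.mem_union, Finset.mem_erase, Finset.mem_insert, Finset.mem_singleton]
      by_cases h1 : w ∈ K'
      · left; exact ⟨fun e => by subst e; exact B.irrefl hw, h1⟩
      · by_cases h2 : w = s
        · right; left; exact h2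
        · by_cases h3 : w = σ s
          · right; right; exact h3
          · exfalso
            have hwK : w ∈ K := by
              by_contra hwK
              exact h1 ((hmem' w).2 ⟨hwK, h2, h3⟩)
            apply hno' u hu w hwK
            rw [rem_iff X.inv]
            refine ⟨hw, ?_⟩
            intro e; apply h1; rw [e]; exact hcl' u hu
    have hc : ((K'.erase u) ∪ {s, σ s}).card ≤ deg B u := by
      refine le_trans ?_ (X.hdeg u)
      refine (Finset.card_union_le _ _).trans ?_
      have := Finset.card_erase_add_one hu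
      have := Finset.card_le_two (a := s) (b := σ s)
      omega
    intro w
    exact ⟨hsub w, adj_of_deg hsub hc w⟩
  have degK : ∀ u ∈ K, deg B u ≤ m := by
    intro u hu
    refine (deg_le_of (fun w hw => (nb u hu w).1 hw)).trans ?_
    refine (Finset.card_union_le _ _).trans ?_
    have := Finset.card_erase_add_one hu
    have := Finset.card_le_two (a := s) (b := σ s)
    omega
  have degK' : ∀ u ∈ K', deg B u ≤ m := by
    intro u hu
    refine (deg_le_of (fun w hw => (nb' u hu w).1 hw)).trans ?_
    refine (Finset.card_union_le _ _).trans ?_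
    have := Finset.card_erase_add_one hu
    have := Finset.card_le_two (a := s) (b := σ s)
    omega
  have hdis : Disjoint K K' := by
    rw [Finset.disjoint_left]
    intro w hw hw'
    exact ((hmem' w).1 hw').1 hw
  have degs : ∀ t, (t = s ∨ t = σ s) → m < deg B t := by
    intro t ht
    have : (K ∪ K').card ≤ deg B t := by
      apply le_deg_of
      intro w hw
      rw [Finset.mem_union] at hw
      rcases hw with hw | hw
      · refine ((nb w hw t).2 ?_).symm
        rw [Finset.mem_union, Finset.mem_insert, Finset.mem_singleton]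
        exact Or.inr ht
      · refine ((nb' w hw t).2 ?_).symm
        rw [Finset.mem_union, Finset.mem_insert, Finset.mem_singleton]
        exact Or.inr ht
    rw [Finset.card_union_of_disjoint hdis] at this
    omega
  intro v
  constructor
  · intro hv
    by_contra hcon
    push Not at hcon
    by_cases hvK : v ∈ K
    · have := degK v hvK; omega
    · have := degK' v ((hmem' v).2 ⟨hvK, hcon.1, hcon.2⟩); omega
  · exact degs v

/-- type 2 exception: regular, and closed neighbourhood structure. -/
theorem Dat.exc2 (X : Dat B σ m) (h : Exc2 (rem B σ) σ m) :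
    (∀ v, ¬ m < deg B v) ∧ ∃ K : V → Finset V, (∀ v, v ∈ K v ∧ (K v).card = m) ∧
      (∀ v w, B.Adj v w ↔ (w ∈ K v ∧ w ≠ v) ∨ w = σ v) ∧ (∀ v w, w ∈ K v → K w = K v) ∧
      (∀ v, σ v ∉ K v) := by
  classical
  obtain ⟨K0, hK, hcross, hno⟩ := h
  have hcK : (Finset.univ \ K0).card = m := by
    rw [Finset.card_sdiff_of_subset (Finset.subset_univ _), Finset.card_univ, X.hcard]
    omega
  set K : V → Finset V := fun v => if v ∈ K0 then K0 else Finset.univ \ K0 with hKdef
  have hmem : ∀ v w, w ∈ K v ↔ (w ∈ K0 ↔ v ∈ K0) := by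
    intro v w
    rw [hKdef]
    by_cases hv : v ∈ K0
    · simp [hv]
    · simp [hv]
  have hcard : ∀ v, (K v).card = m := by
    intro v
    rw [hKdef]
    by_cases hv : v ∈ K0
    · simp only [hv, if_true, hK]
    · simp only [hv, if_false, hcK]
  have hnadj : ∀ v w, w ∉ K v → ¬ (rem B σ).Adj v w := by
    intro v w hw
    rw [hmem] at hw
    by_cases hv : v ∈ K0
    · have : w ∉ K0 := fun h => hw ⟨fun _ => hv, fun _ => h⟩
      exact hno v hv w this
    · have : w ∈ K0 := by
        by_contra h
        exact hw ⟨fun h' => absurd h' h, fun h' => absurd h' hv⟩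
      exact fun h => hno w this v hv h.symm
  have hsig : ∀ v, σ v ∉ K v := by
    intro v
    rw [hmem]
    have := hcross v
    tauto
  have hself : ∀ v, v ∈ K v := by intro v; rw [hmem]
  have hsub : ∀ v w, B.Adj v w → w ∈ insert (σ v) ((K v).erase v) := by
    intro v w hw
    rw [Finset.mem_insert, Finset.mem_erase]
    by_cases h1 : w = σ v
    · exact Or.inl h1
    · right
      refine ⟨fun e => by subst e; exact B.irrefl hw, ?_⟩
      by_contra h2
      exact hnadj v w h2 ((rem_iff X.inv).2 ⟨hw, h1⟩)
  have hc : ∀ v, (insert (σ v) ((K v).erase v)).card ≤ m := by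
    intro v
    refine (Finset.card_insert_le _ _).trans ?_
    have := Finset.card_erase_add_one (hself v)
    have := hcard v
    omega
  refine ⟨?_, K, fun v => ⟨hself v, hcard v⟩, ?_, ?_, hsig⟩
  · intro v
    have := (deg_le_of (hsub v)).trans (hc v)
    omega
  · intro v w
    constructor
    · intro h
      have := hsub v w h
      rw [Finset.mem_insert, Finset.mem_erase] at this
      rcases this with h | h
      · exact Or.inr h
      · exact Or.inl ⟨h.2, h.1⟩
    · intro h
      apply adj_of_deg (hsub v) ((hc v).trans (X.hdeg v))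
      rw [Finset.mem_insert, Finset.mem_erase]
      rcases h with h | h
      · exact Or.inr ⟨h.2, h.1⟩
      · exact Or.inl h
  · intro v w hw
    ext z
    rw [hmem, hmem]
    rw [hmem] at hw
    tauto

/-- type 3 exception. -/
theorem Dat.exc3 (X : Dat B σ m) (h : Exc3 (rem B σ) m) :
    ∃ I : Finset V, I.card = m + 1 ∧ (∀ v, m < deg B v ↔ v ∉ I) ∧
      (∀ v ∈ I, ∀ w ∈ I, B.Adj v w ↔ w = σ v) := by
  classical
  obtain ⟨I, hI, hno⟩ := h
  have hcI : (Finset.univ \ I).card + 1 = m := by
    rw [Finset.card_sdiff_of_subset (Finset.subset_univ _), Finset.card_univ, X.hcard]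
    have := Finset.card_le_univ I
    rw [X.hcard] at this
    omega
  have hsub : ∀ v ∈ I, ∀ w, B.Adj v w → w ∈ insert (σ v) (Finset.univ \ I) := by
    intro v hv w hw
    rw [Finset.mem_insert, Finset.mem_sdiff]
    by_cases h1 : w = σ v
    · exact Or.inl h1
    · right
      refine ⟨Finset.mem_univ _, fun h2 => ?_⟩
      exact hno v hv w h2 ((rem_iff X.inv).2 ⟨hw, h1⟩)
  have hc : ∀ v, (insert (σ v) (Finset.univ \ I)).card ≤ m := by
    intro v
    have := Finset.card_insert_le (σ v) (Finset.univ \ I)
    omega
  have hadj : ∀ v ∈ I, ∀ w, B.Adj v w ↔ w ∈ insert (σ v) (Finset.univ \ I) := by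
    intro v hv w
    exact ⟨hsub v hv w, adj_of_deg (hsub v hv) ((hc v).trans (X.hdeg v)) w⟩
  refine ⟨I, hI, ?_, ?_⟩
  · intro v
    constructor
    · intro h hv
      have := (deg_le_of (hsub v hv)).trans (hc v)
      omega
    · intro hv
      have : I.card ≤ deg B v := by
        apply le_deg_of
        intro w hw
        refine ((hadj w hw v).2 ?_).symm
        rw [Finset.mem_insert, Finset.mem_sdiff]
        exact Or.inr ⟨Finset.mem_univ _, hv⟩
      omega
  · intro v hv w hw
    rw [hadj v hv w, Finset.mem_insert, Finset.mem_sdiff]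
    constructor
    · rintro (h | h)
      · exact h
      · exact absurd hw h.2
    · exact Or.inl

/-- the even theorem: two graphs with all degrees at least `m` on `2 m` vertices -/
theorem even_case (h2 : Step2Statement V) (hM : MatchingStatement V) (R : SimpleGraph V)
    (hcard : Fintype.card V = 2 * m) (hm : 1 ≤ m) (hR : ∀ v, m ≤ deg R v)
    (hB : ∀ v, m ≤ deg B v) :
    ∃ σ : V → V, (∀ v, σ (σ v) = v) ∧ (∀ v, R.Adj v (σ v)) ∧ Ham B σ := by
  classical
  rcases Nat.lt_or_ge 1 m with hm1 | hm1
  · -- m ≥ 2
    by_contra hcon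
    push Not at hcon
    have hall : ∀ σ : V → V, (∀ v, σ (σ v) = v) → (∀ v, R.Adj v (σ v)) →
        Dat B σ m ∧ 3 ≤ m ∧ (Exc1 (rem B σ) σ m ∨ Exc2 (rem B σ) σ m ∨ Exc3 (rem B σ) m) := by
      intro σ hinv hadj
      have hne : ∀ v, σ v ≠ v := fun v e => by
        have := hadj v
        rw [e] at this
        exact R.irrefl this
      have hX : Dat B σ m := ⟨hinv, hne, hcard, hB⟩
      refine ⟨hX, main_lemma h2 (rem_dom hinv hne) hcard (by omega) ?_ ?_⟩
      · intro v
        exact (hB v).trans (rem_deg hinv v)
      · intro hH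
        exact hcon σ hinv hadj (hH.mono (fun u v h => rem_le h))
    have hne : Nonempty V := by
      rw [← Fintype.card_pos_iff]; omega
    obtain ⟨v0⟩ := hne
    obtain ⟨σ, hinv, hadj, _⟩ := hM R m hcard (by omega) hR v0 v0
    obtain ⟨X, hm3, hE⟩ := hall σ hinv hadj
    rcases hE with hE | hE | hE
    · obtain ⟨h5, s, hs⟩ := X.exc1 hE
      obtain ⟨σ', hinv', hadj', hne'⟩ := hM R m hcard (by omega) hR s (σ s)
      obtain ⟨X', _, hE'⟩ := hall σ' hinv' hadj'
      rcases hE' with hE' | hE' | hE'
      · obtain ⟨_, s', hs'⟩ := X'.exc1 hE'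
        have q1 := (hs' s).1 ((hs s).2 (Or.inl rfl))
        have q2 := (hs' (σ s)).1 ((hs (σ s)).2 (Or.inr rfl))
        have q3 := X.ne s
        apply hne'
        rcases q1 with q1 | q1 <;> rcases q2 with q2 | q2
        · exact absurd (q2.trans q1.symm) q3
        · rw [q2, q1]
        · rw [q2, q1, hinv']
        · exact absurd (q2.trans q1.symm) q3
      · obtain ⟨hreg, _⟩ := X'.exc2 hE'
        exact hreg s ((hs s).2 (Or.inl rfl))
      · obtain ⟨I, hI, hdI, _⟩ := X'.exc3 hE'
        have hsub : (Finset.univ \ I) ⊆ {s, σ s} := by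
          intro v hv
          rw [Finset.mem_sdiff] at hv
          rw [Finset.mem_insert, Finset.mem_singleton]
          exact (hs v).1 ((hdI v).2 hv.2)
        have h3 := Finset.card_le_card hsub
        have h4 := Finset.card_le_two (a := s) (b := σ s)
        rw [Finset.card_sdiff_of_subset (Finset.subset_univ _), Finset.card_univ, hcard] at h3
        omega
    · obtain ⟨hreg, K, hK1, hK2, hK3, hK4⟩ := X.exc2 hE
      obtain ⟨σ', hinv', hadj', hne'⟩ := hM R m hcard (by omega) hR v0 (σ v0)
      obtain ⟨X', _, hE'⟩ := hall σ' hinv' hadj'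
      rcases hE' with hE' | hE' | hE'
      · obtain ⟨_, s', hs'⟩ := X'.exc1 hE'
        exact hreg s' ((hs' s').2 (Or.inl rfl))
      · obtain ⟨_, K', hK1', hK2', hK3', hK4'⟩ := X'.exc2 hE'
        -- y = σ v0 is adjacent to v0
        have ha : B.Adj v0 (σ v0) := (hK2 _ _).2 (Or.inr rfl)
        have hy : σ v0 ∈ K' v0 := by
          rcases (hK2' v0 (σ v0)).1 ha with h | h
          · exact h.1
          · exact absurd h.symm hne'
        -- third vertex
        have : ∃ z ∈ K' v0, z ≠ v0 ∧ z ≠ σ v0 := by
          have hc := (hK1' v0).2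
          have h1 := Finset.card_erase_add_one (hK1' v0).1
          have hy' : σ v0 ∈ (K' v0).erase v0 := Finset.mem_erase.2 ⟨X.ne v0, hy⟩
          have h2 := Finset.card_erase_add_one hy'
          obtain ⟨z, hz⟩ : (((K' v0).erase v0).erase (σ v0)).Nonempty := by
            rw [← Finset.card_pos]; omega
          rw [Finset.mem_erase, Finset.mem_erase] at hz
          exact ⟨z, hz.2.2, hz.2.1, hz.1⟩
        obtain ⟨z, hz, hz1, hz2⟩ := this
        have a1 : B.Adj v0 z := (hK2' _ _).2 (Or.inl ⟨hz, hz1⟩)
        have a2 : B.Adj (σ v0) z := by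
          refine (hK2' _ _).2 (Or.inl ⟨?_, hz2⟩)
          rw [hK3' _ _ hy]; exact hz
        have b1 : z ∈ K v0 := by
          rcases (hK2 _ _).1 a1 with h | h
          · exact h.1
          · exact absurd h hz2
        have b2 : z ∈ K (σ v0) := by
          rcases (hK2 _ _).1 a2 with h | h
          · exact h.1
          · rw [hinv] at h; exact absurd h hz1
        have b3 := hK3 _ _ b1
        have b4 := hK3 _ _ b2
        have b5 := (hK1 (σ v0)).1
        rw [← b4, b3] at b5
        exact hK4 v0 b5
      · obtain ⟨I, hI, hdI, _⟩ := X'.exc3 hE'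
        have : (Finset.univ \ I).Nonempty := by
          rw [← Finset.card_pos, Finset.card_sdiff_of_subset (Finset.subset_univ _),
            Finset.card_univ, hcard]
          omega
        obtain ⟨z, hz⟩ := this
        rw [Finset.mem_sdiff] at hz
        exact hreg z ((hdI z).2 hz.2)
    · obtain ⟨I, hI, hdI, hadI⟩ := X.exc3 hE
      obtain ⟨x, hx⟩ : I.Nonempty := by rw [← Finset.card_pos]; omega
      obtain ⟨σ', hinv', hadj', hne'⟩ := hM R m hcard (by omega) hR x (σ x)
      obtain ⟨X', _, hE'⟩ := hall σ' hinv' hadj'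
      have hcompl : (Finset.univ \ I).card + 1 = m := by
        rw [Finset.card_sdiff_of_subset (Finset.subset_univ _), Finset.card_univ, hcard]
        omega
      rcases hE' with hE' | hE' | hE'
      · obtain ⟨h5, s', hs'⟩ := X'.exc1 hE'
        have hsub : (Finset.univ \ I) ⊆ {s', σ' s'} := by
          intro v hv
          rw [Finset.mem_sdiff] at hv
          rw [Finset.mem_insert, Finset.mem_singleton]
          exact (hs' v).1 ((hdI v).2 hv.2)
        have h3 := Finset.card_le_card hsub
        have h4 := Finset.card_le_two (a := s') (b := σ' s')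
        omega
      · obtain ⟨hreg, _⟩ := X'.exc2 hE'
        obtain ⟨z, hz⟩ : (Finset.univ \ I).Nonempty := by
          rw [← Finset.card_pos]; omega
        rw [Finset.mem_sdiff] at hz
        exact hreg z ((hdI z).2 hz.2)
      · obtain ⟨I', hI', hdI', hadI'⟩ := X'.exc3 hE'
        have hII : ∀ v, v ∈ I ↔ v ∈ I' := by
          intro v
          have q1 := hdI v
          have q2 := hdI' v
          constructor
          · intro h; by_contra h'; exact (q1.1 (q2.2 h')) h
          · intro h; by_contra h'; exact (q2.1 (q1.2 h')) h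
        -- is σ x ∈ I?
        have hsx : σ x ∈ I := by
          by_contra hsx
          have hsub : ∀ w, B.Adj x w → w ∈ Finset.univ \ I := by
            intro w hw
            rw [Finset.mem_sdiff]
            refine ⟨Finset.mem_univ _, fun hwI => ?_⟩
            have := (hadI x hx w hwI).1 hw
            rw [this] at hwI
            exact hsx hwI
          have := deg_le_of hsub
          have := hB x
          omega
        have a1 : B.Adj x (σ x) := (hadI x hx _ hsx).2 rfl
        have a2 := (hadI' x ((hII x).1 hx) _ ((hII _).1 hsx)).1 a1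
        exact hne' a2.symm
  · -- m = 1
    have hm1 : m = 1 := by omega
    subst hm1
    have hne : Nonempty V := by
      rw [← Fintype.card_pos_iff]; omega
    obtain ⟨v0⟩ := hne
    obtain ⟨w0, hw0⟩ : ∃ w, R.Adj v0 w := by
      by_contra hcon
      push Not at hcon
      have := hR v0
      rw [deg_filter] at this
      simp [hcon] at this
    have hne0 : w0 ≠ v0 := hw0.ne'
    have huniv : (Finset.univ : Finset V) = {v0, w0} := by
      symm
      apply Finset.eq_univ_of_card
      rw [Finset.card_pair hne0.symm, hcard]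
    have hall : ∀ v, v = v0 ∨ v = w0 := by
      intro v
      have : v ∈ (Finset.univ : Finset V) := Finset.mem_univ v
      rw [huniv, Finset.mem_insert, Finset.mem_singleton] at this
      exact this
    have hBadj : B.Adj v0 w0 := by
      obtain ⟨w, hw⟩ : ∃ w, B.Adj v0 w := by
        by_contra hcon
        push Not at hcon
        have := hB v0
        rw [deg_filter] at this
        simp [hcon] at this
      rcases hall w with h | h
      · subst h; exact absurd hw (B.irrefl)
      · subst h; exact hw
    refine ⟨fun v => if v = v0 then w0 else v0, ?_, ?_, ?_⟩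
    · intro v
      rcases hall v with h | h
      · subst h; simp [hne0]
      · subst h; simp [hne0]
    · intro v
      rcases hall v with h | h
      · subst h; simpa using hw0
      · subst h; simpa [hne0] using hw0.symm
    · refine ⟨v0, w0, ?_, hBadj.symm⟩
      have := Seg.single (H := B) (σ := fun v => if v = v0 then w0 else v0) v0
      simp only [if_true] at this
      refine this.congr rfl rfl ?_
      rw [huniv]
      have hnot : v0 ∉ ({w0} : Finset V) := by
        rw [Finset.mem_singleton]; exact hne0.symm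
      rw [Finset.insert_val_of_notMem hnot]
      rfl

end Pool.Agent.Lib_MP_c83083_co
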