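import Pool.Agent.Lib_MP_c83083_co.Basic

/-! Complete pieces: a `σ`-closed set in which all non-partners are adjacent. -/

namespace Pool.Agent.Lib_MP_c83083_co

open Finset

variable {V : Type*} [DecidableEq V] {H : SimpleGraph V} {σ : V → V}

/-- `T` is `σ`-closed and complete minus the matching. -/
structure Cpl (H : SimpleGraph V) (σ : V → V) (T : Finset V) : Prop where
  cl : ∀ u ∈ T, σ u ∈ T
  adj : ∀ u ∈ T, ∀ w ∈ T, w ≠ u → w ≠ σ u → H.Adj u w

theorem Cpl.erase (D : Dom H σ) {T : Finset V} (h : Cpl H σ T) (u : V) :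
    Cpl H σ ((T.erase u).erase (σ u)) where
  cl w hw := by
    rw [Finset.mem_erase, Finset.mem_erase] at hw ⊢
    refine ⟨?_, ?_, h.cl w hw.2.2⟩
    · intro e; apply hw.2.1
      have := congrArg σ e
      rwa [D.inv, D.inv] at this
    · intro e; apply hw.1; rw [← e, D.inv]
  adj w hw z hz := by
    rw [Finset.mem_erase, Finset.mem_erase] at hw hz
    exact h.adj w hw.2.2 z hz.2.2

theorem val_erase (D : Dom H σ) {T : Finset V} {u : V} (hu : u ∈ T) (hu' : σ u ∈ T) :
    T.val = {u, σ u} + ((T.erase u).erase (σ u)).val := by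
  have h1 : σ u ∈ T.erase u := Finset.mem_erase.2 ⟨D.ne u, hu'⟩
  rw [Finset.erase_val, Finset.erase_val]
  have h2 : σ u ∈ T.val.erase u := by rw [← Finset.erase_val]; exact h1
  rw [Multiset.insert_eq_cons, Multiset.cons_add, Multiset.singleton_add,
    Multiset.cons_erase h2, Multiset.cons_erase hu]

theorem card_erase2 (D : Dom H σ) {T : Finset V} {u : V} (hu : u ∈ T) (hu' : σ u ∈ T) :
    ((T.erase u).erase (σ u)).card + 2 = T.card := by
  have h1 : σ u ∈ T.erase u := Finset.mem_erase.2 ⟨D.ne u, hu'⟩
  have := Finset.card_erase_add_one h1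
  have := Finset.card_erase_add_one hu
  omega

/-- a nonempty complete piece is spanned by a path with one prescribed end -/
theorem Cpl.seg1 (D : Dom H σ) {T : Finset V} (h : Cpl H σ T) {u : V} (hu : u ∈ T) :
    ∃ b, Seg H σ u b T.val := by
  induction hn : T.card using Nat.strong_induction_on generalizing T u with
  | _ n ih =>
    subst hn
    have hu' := h.cl u hu
    have hc := card_erase2 D hu hu'
    have hv := val_erase D hu hu'
    rcases Finset.eq_empty_or_nonempty ((T.erase u).erase (σ u)) with he | ⟨w, hw⟩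
    · refine ⟨σ u, ?_⟩
      rw [he] at hv
      rw [hv]
      simpa using Seg.single (H := H) (σ := σ) u
    · obtain ⟨b, hb⟩ := ih _ (by omega) (h.erase D u) hw rfl
      refine ⟨b, ?_⟩
      rw [hv]
      refine Seg.cons ?_ hb
      rw [Finset.mem_erase, Finset.mem_erase] at hw
      refine h.adj _ hu' w hw.2.2 hw.1 ?_
      rw [D.inv]; exact hw.2.1

/-- a complete piece is spanned by a path with two prescribed non-partner ends -/
theorem Cpl.seg2 (D : Dom H σ) {T : Finset V} (h : Cpl H σ T) {u v : V} (hu : u ∈ T)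
    (hv : v ∈ T) (huv : v ≠ u) (huv' : v ≠ σ u) : Seg H σ u v T.val := by
  induction hn : T.card using Nat.strong_induction_on generalizing T u with
  | _ n ih =>
    subst hn
    have hu' := h.cl u hu
    have hv' := h.cl v hv
    have hc := card_erase2 D hu hu'
    have hval := val_erase D hu hu'
    have hvm : v ∈ (T.erase u).erase (σ u) := by
      rw [Finset.mem_erase, Finset.mem_erase]; exact ⟨huv', huv, hv⟩
    by_cases hw : ∃ w ∈ (T.erase u).erase (σ u), v ≠ w ∧ v ≠ σ w
    · obtain ⟨w, hw, hw1, hw2⟩ := hw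
      have h2 := ih _ (by omega) (h.erase D u) hw hvm hw1 hw2 rfl
      rw [hval]
      refine Seg.cons ?_ h2
      rw [Finset.mem_erase, Finset.mem_erase] at hw
      refine h.adj _ hu' w hw.2.2 hw.1 ?_
      rw [D.inv]; exact hw.2.1
    · push Not at hw
      have hvm' := (h.erase D u).cl v hvm
      have hval2 := val_erase D hvm hvm'
      have he : (((T.erase u).erase (σ u)).erase v).erase (σ v) = ∅ := by
        rw [Finset.eq_empty_iff_forall_notMem]
        intro w hw'
        have hw3 := Finset.mem_erase.1 hw'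
        have hw4 := Finset.mem_erase.1 hw3.2
        have := hw w hw4.2 (fun e => hw4.1 e.symm)
        apply hw3.1
        rw [this, D.inv]
      rw [hval, hval2, he]
      have h3 : Seg H σ (σ v) v {v, σ v} := Seg.single' D v
      have h4 : H.Adj (σ u) (σ v) := by
        refine h.adj _ hu' _ hv' ?_ ?_
        · intro e; apply huv
          have := congrArg σ e
          rwa [D.inv, D.inv] at this
        · rw [D.inv]; intro e; apply huv'; rw [← e, D.inv]
      simpa using Seg.cons h4 h3

/-- if all vertices of `T` have full degree in `T` then `T` is complete -/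
theorem cpl_of_dg (D : Dom H σ) {T : Finset V} (hcl : ∀ u ∈ T, σ u ∈ T)
    (hd : ∀ u ∈ T, T.card ≤ dg H u T.val + 2) : Cpl H σ T where
  cl := hcl
  adj u hu w hw hwu hwu' := by
    by_contra hna
    have h1 := val_erase D hu (hcl u hu)
    have hwm : w ∈ (T.erase u).erase (σ u) := by
      rw [Finset.mem_erase, Finset.mem_erase]; exact ⟨hwu', hwu, hw⟩
    have h2 : ((T.erase u).erase (σ u)).val
        = w ::ₘ (((T.erase u).erase (σ u)).erase w).val := by
      rw [Finset.erase_val _ w, Multiset.cons_erase hwm]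
    have h3 := hd u hu
    rw [h1, dgAdd, dgPair, ad_self, ad_sigma D, h2, dg_cons, ad_zero hna] at h3
    have h4 := dg_le_card (H := H) u (((T.erase u).erase (σ u)).erase w).val
    rw [Finset.card_val] at h4
    have h5 := Finset.card_erase_add_one hwm
    have h6 := card_erase2 D hu (hcl u hu)
    omega

theorem dg_le_of_mem (D : Dom H σ) {T : Finset V} {u : V} (hu : u ∈ T) (hu' : σ u ∈ T) :
    dg H u T.val + 2 ≤ T.card := by
  have h1 := val_erase D hu hu'
  rw [h1, dgAdd, dgPair, ad_self, ad_sigma D]
  have h4 := dg_le_card (H := H) u ((T.erase u).erase (σ u)).val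
  rw [Finset.card_val] at h4
  have h6 := card_erase2 D hu hu'
  omega

/-- a third vertex away from two dominoes... -/
theorem exists_other (D : Dom H σ) {T : Finset V} {u : V} (hu : u ∈ T) (hu' : σ u ∈ T)
    (hc : 4 ≤ T.card) : ∃ v ∈ T, v ≠ u ∧ v ≠ σ u := by
  have h6 := card_erase2 D hu hu'
  obtain ⟨v, hv⟩ : ((T.erase u).erase (σ u)).Nonempty := by
    rw [← Finset.card_pos]; omega
  rw [Finset.mem_erase, Finset.mem_erase] at hv
  exact ⟨v, hv.2.2, hv.2.1, hv.1⟩

/-- If the graph is complete minus the matching (with at least 4 vertices) there is an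
alternating Hamilton cycle. -/
theorem ham_of_complete [Fintype V] (D : Dom H σ) (hc : 4 ≤ Fintype.card V)
    (h : ∀ u w, w ≠ u → w ≠ σ u → H.Adj u w) : Ham H σ := by
  have hC : Cpl H σ (Finset.univ : Finset V) :=
    ⟨fun u _ => Finset.mem_univ _, fun u _ w _ => h u w⟩
  have : Nonempty V := by
    rw [← Fintype.card_pos_iff]; omega
  obtain ⟨u⟩ := this
  obtain ⟨v, _, h1, h2⟩ := exists_other D (Finset.mem_univ u) (Finset.mem_univ (σ u))
    (by rwa [Finset.card_univ])
  exact ⟨u, v, hC.seg2 D (Finset.mem_univ _) (Finset.mem_univ _) h1 h2, (h u v h1 h2).symm⟩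

end Pool.Agent.Lib_MP_c83083_co
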