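import Mathlib

/-!
Alternating (domino) paths and cycles with respect to a fixed point free involution `σ`
(a perfect matching `M = {v, σ v}`) and a graph `H` having no edge inside a domino.

* `Seg H σ a b S` : there is an alternating path starting at `a`, ending at `b`, first and last
  edge in `M`, whose vertex multiset is `S`.
* `Ham H σ` : there is an alternating Hamilton cycle.
* `Pair H σ r` : there is an alternating cycle and an alternating path with `r` dominoes
  which together cover every vertex exactly once.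
* `Cyc H σ c C` : `C : ℤ → V` is `c`-periodic and lists the dominoes of an alternating cycle:
  `C 0, σ (C 0), C 1, σ (C 1), ...`, with `H.Adj (σ (C i)) (C (i+1))`.
-/

namespace Pool.Agent.Lib_MP_c83083_co

open Finset

variable {V : Type*}

structure Dom (H : SimpleGraph V) (σ : V → V) : Prop where
  inv : ∀ v, σ (σ v) = v
  ne : ∀ v, σ v ≠ v
  nadj : ∀ v, ¬ H.Adj v (σ v)

/-- alternating path from `a` to `b` with vertex multiset `S` -/
inductive Seg (H : SimpleGraph V) (σ : V → V) : V → V → Multiset V → Prop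
  | single (a : V) : Seg H σ a (σ a) {a, σ a}
  | cons {a b c : V} {S : Multiset V} :
      H.Adj (σ a) b → Seg H σ b c S → Seg H σ a c ({a, σ a} + S)

section
variable {H : SimpleGraph V} {σ : V → V}

theorem Seg.join {a b c d : V} {S T : Multiset V} (h1 : Seg H σ a b S) (h : H.Adj b c)
    (h2 : Seg H σ c d T) : Seg H σ a d (S + T) := by
  induction h1 with
  | single a => exact Seg.cons h h2
  | cons hab _ ih =>
    rw [add_assoc]
    exact Seg.cons hab (ih h)

theorem Seg.rev (D : Dom H σ) {a b : V} {S : Multiset V} (h1 : Seg H σ a b S) :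
    Seg H σ b a S := by
  induction h1 with
  | single a =>
    have := Seg.single (H := H) (σ := σ) (σ a)
    rw [D.inv] at this
    rwa [Multiset.pair_comm] at this
  | @cons a b c S hab _ ih =>
    have h2 := Seg.single (H := H) (σ := σ) (σ a)
    rw [D.inv, Multiset.pair_comm] at h2
    have := ih.join hab.symm h2
    rwa [add_comm] at this

theorem Seg.single' (D : Dom H σ) (a : V) : Seg H σ (σ a) a {a, σ a} :=
  (Seg.single a).rev D

theorem Seg.congr {a b a' b' : V} {S S' : Multiset V} (h : Seg H σ a b S) (ha : a = a')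
    (hb : b = b') (hS : S = S') : Seg H σ a' b' S' := by
  subst ha hb hS; exact h

end

/-- vertex multiset of the dominoes `C i, ..., C (j-1)` -/
noncomputable def blk (σ : V → V) (C : ℤ → V) (i j : ℤ) : Multiset V :=
  ∑ k ∈ Finset.Ico i j, ({C k, σ (C k)} : Multiset V)

section blk
variable {σ : V → V} {C : ℤ → V}

@[simp] theorem blk_self (i : ℤ) : blk σ C i i = 0 := by simp [blk]

theorem blk_add {i j k : ℤ} (hij : i ≤ j) (hjk : j ≤ k) :
    blk σ C i j + blk σ C j k = blk σ C i k := by
  unfold blk
  rw [← Finset.sum_union]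
  · rw [Finset.Ico_union_Ico_eq_Ico hij hjk]
  · exact Finset.Ico_disjoint_Ico_consecutive i j k

theorem blk_one (i : ℤ) : blk σ C i (i + 1) = {C i, σ (C i)} := by
  unfold blk
  have : Finset.Ico i (i + 1) = {i} := by
    ext x; simp; omega
  rw [this, Finset.sum_singleton]

theorem blk_shift (a i j : ℤ) : blk σ (fun n => C (n + a)) i j = blk σ C (i + a) (j + a) := by
  unfold blk
  refine Finset.sum_bij (fun k _ => k + a) ?_ ?_ ?_ ?_
  · intro k hk; simp at hk ⊢; omega
  · intro k _ l _ h; simpa using h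
  · intro k hk; simp at hk; exact ⟨k - a, by simp; omega, by simp⟩
  · intro k _; rfl

theorem blk_congr {C' : ℤ → V} {i j : ℤ} (h : ∀ k, i ≤ k → k < j → C k = C' k) :
    blk σ C i j = blk σ C' i j := by
  unfold blk
  refine Finset.sum_congr rfl ?_
  intro k hk
  rw [Finset.mem_Ico] at hk
  rw [h k hk.1 hk.2]

end blk

section
variable {H : SimpleGraph V} {σ : V → V}

/-- a function adjacent along `[i, j]` gives a segment. -/
theorem Seg.of_fun {C : ℤ → V} {i j : ℤ} (hij : i ≤ j)
    (h : ∀ k, i ≤ k → k < j → H.Adj (σ (C k)) (C (k + 1))) :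
    Seg H σ (C i) (σ (C j)) (blk σ C i (j + 1)) := by
  obtain ⟨n, hn⟩ : ∃ n : ℕ, j = i + n := ⟨(j - i).toNat, by omega⟩
  subst hn
  induction n with
  | zero =>
    simp only [Nat.cast_zero, add_zero]
    rw [blk_one]
    exact Seg.single _
  | succ n ih =>
    have h1 := ih (by omega) (fun k hk hk2 => h k hk (by push_cast; omega))
    have h2 := h1.join (h (i + n) (by omega) (by push_cast; omega)) (Seg.single _)
    refine h2.congr rfl (by push_cast; ring_nf) ?_
    rw [← blk_one, blk_add (by omega) (by omega)]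
    push_cast
    ring_nf

theorem Seg.exists_fun {a b : V} {S : Multiset V} (h : Seg H σ a b S) :
    ∃ (n : ℕ) (C : ℤ → V), C 0 = a ∧ σ (C n) = b ∧
      (∀ k : ℤ, 0 ≤ k → k < n → H.Adj (σ (C k)) (C (k + 1))) ∧ S = blk σ C 0 (n + 1) := by
  induction h with
  | single a =>
    refine ⟨0, fun _ => a, rfl, rfl, fun k h0 h1 => by simp at h1; omega, ?_⟩
    simp only [Nat.cast_zero]
    rw [blk_one]
  | @cons a b c S hab _ ih =>
    obtain ⟨n, C, h0, hn, hadj, hS⟩ := ih
    refine ⟨n + 1, fun k => if k = 0 then a else C (k - 1), by simp, ?_, ?_, ?_⟩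
    · push_cast
      rw [if_neg (by omega)]
      simpa using hn
    · intro k hk0 hk1
      by_cases hk : k = 0
      · subst hk; simp [h0, hab]
      · have h1 : k + 1 ≠ 0 := by omega
        beta_reduce
        rw [if_neg hk, if_neg h1]
        have := hadj (k - 1) (by omega) (by push_cast at hk1; omega)
        simpa using this
    · have e1 : blk σ (fun k : ℤ => if k = 0 then a else C (k - 1)) 0 1 = {a, σ a} := by
        have := blk_one (σ := σ) (C := fun k : ℤ => if k = 0 then a else C (k - 1)) 0
        simpa using this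
      have e2 : blk σ (fun k : ℤ => if k = 0 then a else C (k - 1)) 1 (n + 1 + 1)
          = blk σ C 0 (n + 1) := by
        have := blk_shift (σ := σ) (C := fun k : ℤ => if k = 0 then a else C (k - 1)) 1 0 (n + 1)
        rw [zero_add] at this
        rw [← this]
        refine blk_congr ?_
        intro k hk _
        have : k + 1 ≠ 0 := by omega
        simp [this]
      rw [hS, ← e1, ← e2, blk_add (by omega) (by omega)]
      push_cast
      rfl

/-- alternating cycle with `c` dominoes -/
structure Cyc (H : SimpleGraph V) (σ : V → V) (c : ℕ) (C : ℤ → V) : Prop where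
  pos : 0 < c
  per : ∀ i, C (i + c) = C i
  adj : ∀ i, H.Adj (σ (C i)) (C (i + 1))

theorem Cyc.shift {c : ℕ} {C : ℤ → V} (h : Cyc H σ c C) (a : ℤ) :
    Cyc H σ c (fun n => C (n + a)) where
  pos := h.pos
  per i := by
    show C (i + c + a) = C (i + a)
    rw [← h.per (i + a)]; ring_nf
  adj i := by
    show H.Adj (σ (C (i + a))) (C (i + 1 + a))
    have := h.adj (i + a)
    rwa [show i + 1 + a = i + a + 1 by ring]

/-- reversed cycle -/
theorem Cyc.reverse (D : Dom H σ) {c : ℕ} {C : ℤ → V} (h : Cyc H σ c C) :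
    Cyc H σ c (fun n => σ (C (-n))) where
  pos := h.pos
  per i := by
    show σ (C (-(i + c))) = σ (C (-i))
    rw [← h.per (-(i + c))]; ring_nf
  adj i := by
    show H.Adj (σ (σ (C (-i)))) (σ (C (-(i + 1))))
    rw [D.inv]
    have := h.adj (-(i + 1))
    rw [show -(i + 1) + 1 = -i by ring] at this
    exact this.symm

theorem Cyc.per_mul {c : ℕ} {C : ℤ → V} (h : Cyc H σ c C) (i n : ℤ) : C (i + n * c) = C i := by
  induction n using Int.induction_on with
  | zero => simp
  | succ n ih =>
    rw [← ih, ← h.per (i + n * c)]; ring_nf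
  | pred n ih =>
    rw [← ih, ← h.per (i + (-n - 1) * c)]; ring_nf

theorem Cyc.per' {c : ℕ} {C : ℤ → V} (h : Cyc H σ c C) (i : ℤ) : C (i - c) = C i := by
  have := h.per (i - c)
  rw [← this]; ring_nf

/-- the arc of dominoes `i, ..., j-1` -/
theorem Cyc.arc {c : ℕ} {C : ℤ → V} (h : Cyc H σ c C) {i j : ℤ} (hij : i < j) :
    Seg H σ (C i) (σ (C (j - 1))) (blk σ C i j) := by
  have := Seg.of_fun (H := H) (σ := σ) (C := C) (i := i) (j := j - 1) (by omega)
    (fun k _ _ => h.adj k)
  rwa [show j - 1 + 1 = j by ring] at this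

theorem Cyc.blk_per {c : ℕ} {C : ℤ → V} (h : Cyc H σ c C) (i j : ℤ) :
    blk σ C (i + c) (j + c) = blk σ C i j := by
  rw [← blk_shift]
  exact blk_congr (fun k _ _ => h.per k)

theorem Cyc.blk_full {c : ℕ} {C : ℤ → V} (h : Cyc H σ c C) (i : ℤ) :
    blk σ C i (i + c) = blk σ C 0 c := by
  -- it suffices to prove invariance under `i ↦ i + 1`
  have key : ∀ i, blk σ C (i + 1) (i + 1 + c) = blk σ C i (i + c) := by
    intro i
    have hc : (0 : ℤ) < c := by exact_mod_cast h.pos
    rw [← blk_add (i := i) (j := i + 1) (k := i + c) (by omega) (by omega),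
      ← blk_add (i := i + 1) (j := i + c) (k := i + 1 + c) (by omega) (by omega),
      show i + 1 + (c : ℤ) = i + c + 1 by ring, blk_one, blk_one, h.per, add_comm]
  induction i using Int.induction_on with
  | zero => simp
  | succ n ih => rw [key, ih]
  | pred n ih =>
    rw [← ih, ← key (-n - 1)]; ring_nf

/-- a closed segment gives a cycle -/
theorem Seg.toCyc {a b : V} {S : Multiset V} (h : Seg H σ a b S) (hba : H.Adj b a) :
    ∃ (c : ℕ) (C : ℤ → V), Cyc H σ c C ∧ C 0 = a ∧ σ (C (c - 1)) = b ∧ blk σ C 0 c = S := by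
  obtain ⟨n, C, h0, hn, hadj, hS⟩ := h.exists_fun
  have key : ∀ k : ℤ, 0 ≤ k → k < n + 1 → k % ((n + 1 : ℕ) : ℤ) = k := by
    intro k hk0 hk1
    exact Int.emod_eq_of_lt hk0 (by push_cast; omega)
  have hpos : (0 : ℤ) < ((n + 1 : ℕ) : ℤ) := by positivity
  refine ⟨n + 1, fun k => C (k % ((n + 1 : ℕ) : ℤ)), ⟨by omega, ?_, ?_⟩, ?_, ?_, ?_⟩
  · intro i
    simp
  · intro i
    have h1 := Int.emod_nonneg i (ne_of_gt hpos)
    have h2 := Int.emod_lt_of_pos i hpos
    show H.Adj (σ (C (i % ((n + 1 : ℕ) : ℤ)))) (C ((i + 1) % ((n + 1 : ℕ) : ℤ)))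
    rw [← Int.emod_add_emod]
    generalize i % ((n + 1 : ℕ) : ℤ) = j at h1 h2 ⊢
    by_cases hj : j + 1 < ((n + 1 : ℕ) : ℤ)
    · rw [Int.emod_eq_of_lt (by omega) hj]
      exact hadj j h1 (by push_cast at hj; omega)
    · have hj' : j = n := by push_cast at h2 hj; omega
      subst hj'
      rw [show (n : ℤ) + 1 = ((n + 1 : ℕ) : ℤ) by push_cast; ring, Int.emod_self, h0, hn]
      exact hba
  · show C (0 % _) = a
    simpa using h0
  · show σ (C ((((n + 1 : ℕ) : ℤ) - 1) % _)) = b
    rw [key _ (by push_cast; omega) (by push_cast; omega)]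
    push_cast
    simpa using hn
  · rw [hS]
    push_cast
    refine blk_congr ?_
    intro k hk0 hk1
    show C (k % _) = C k
    rw [Int.emod_eq_of_lt hk0 (by exact_mod_cast hk1)]

/-- update of a cycle at the dominoes `≡ k mod c` -/
def upd (c : ℕ) (C : ℤ → V) (k : ℤ) (p : V) : ℤ → V :=
  fun n => if (n - k) % (c : ℤ) = 0 then p else C n

end

section fin
variable [Fintype V]

/-- there is an alternating Hamilton cycle -/
def Ham (H : SimpleGraph V) (σ : V → V) : Prop :=
  ∃ a b, Seg H σ a b (Finset.univ : Finset V).val ∧ H.Adj b a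

/-- alternating cycle + alternating path with `r` dominoes, partitioning the vertex set -/
def Pair (H : SimpleGraph V) (σ : V → V) (r : ℕ) : Prop :=
  ∃ a b S x y T, Seg H σ a b S ∧ H.Adj b a ∧ Seg H σ x y T ∧
    S + T = (Finset.univ : Finset V).val ∧ T.card = 2 * r

open Classical in
/-- adjacency indicator -/
noncomputable def ad (H : SimpleGraph V) (u v : V) : ℕ := if H.Adj u v then 1 else 0

/-- number of neighbours of `u` in a multiset -/
noncomputable def dg (H : SimpleGraph V) (u : V) (S : Multiset V) : ℕ := (S.map (ad H u)).sum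

/-- degree -/
noncomputable def deg (H : SimpleGraph V) (u : V) : ℕ := ∑ v, ad H u v

end fin

end Pool.Agent.Lib_MP_c83083_co
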