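import Pool.Agent.Lib_MP_c83083_co.Defs

/-! The three exceptional structures. -/

namespace Pool.Agent.Lib_MP_c83083_co

variable {V : Type*}

/-- two cliques `K`, `K'` of the same size, and a domino `s, σ s` joined to everything. -/
def Exc1 (H : SimpleGraph V) (σ : V → V) (m : ℕ) : Prop :=
  ∃ (K : Finset V) (s : V), 5 ≤ m ∧ K.card + 1 = m ∧ (∀ v ∈ K, σ v ∈ K) ∧ s ∉ K ∧ σ s ∉ K ∧
    ∀ u ∈ K, ∀ w, w ∉ K → w ≠ s → w ≠ σ s → ¬ H.Adj u w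

/-- two cliques of size `m`, all dominoes across. -/
def Exc2 (H : SimpleGraph V) (σ : V → V) (m : ℕ) : Prop :=
  ∃ K : Finset V, K.card = m ∧ (∀ v, v ∈ K ↔ σ v ∉ K) ∧ ∀ u ∈ K, ∀ w, w ∉ K → ¬ H.Adj u w

/-- an independent set of size `m + 1`. -/
def Exc3 (H : SimpleGraph V) (m : ℕ) : Prop :=
  ∃ I : Finset V, I.card = m + 1 ∧ ∀ u ∈ I, ∀ w ∈ I, ¬ H.Adj u w

end Pool.Agent.Lib_MP_c83083_co
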