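import Pool.Agent.Lib_MP_c83083_co.Step2a

/-!
# A perfect matching avoiding a given edge in a graph with minimum degree at least `n / 2`.
-/

namespace Pool.Agent.Lib_MP_c83083_co

open Finset

set_option linter.unusedSectionVars false

variable {V : Type*} [Fintype V] {R : SimpleGraph V}

/-- A partial matching: an involution whose non-fixed points are matched along edges of `R`. -/
structure PM (R : SimpleGraph V) (σ : V → V) : Prop where
  inv : ∀ v, σ (σ v) = v
  adj : ∀ v, σ v = v ∨ R.Adj v (σ v)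

open Classical in
/-- The set of fixed points. -/
noncomputable def fixd (σ : V → V) : Finset V := Finset.univ.filter fun v => σ v = v

lemma mem_fixd {σ : V → V} {v : V} : v ∈ fixd σ ↔ σ v = v := by
  simp [fixd]

open Classical in
lemma PM.extend {σ : V → V} (h : PM R σ) {u z : V} (hu : σ u = u) (hz : σ z = z)
    (hadj : R.Adj u z) : ∃ σ', PM R σ' ∧ (fixd σ').card < (fixd σ).card := by
  have hne : u ≠ z := hadj.ne
  refine ⟨fun w => if w = u then z else if w = z then u else σ w, ⟨?_, ?_⟩, ?_⟩
  · intro v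
    have hi := h.inv v
    by_cases h1 : v = u
    · subst h1; simp [hne.symm]
    by_cases h2 : v = z
    · subst h2; simp [hne.symm]
    have h3 : σ v ≠ u := fun h3 => h1 (by rw [← h.inv v, h3, hu])
    have h4 : σ v ≠ z := fun h4 => h2 (by rw [← h.inv v, h4, hz])
    simp [h1, h2, h3, h4, hi]
  · intro v
    by_cases h1 : v = u
    · subst h1; simp [hadj]
    by_cases h2 : v = z
    · subst h2; simp [hne.symm, hadj.symm]
    simpa [h1, h2] using h.adj v
  · apply Finset.card_lt_card
    rw [Finset.ssubset_iff_of_subset]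
    · refine ⟨u, mem_fixd.2 hu, ?_⟩
      rw [mem_fixd]
      simpa using hne.symm
    · intro v hv
      rw [mem_fixd] at hv ⊢
      by_cases h1 : v = u
      · rw [h1]; exact hu
      by_cases h2 : v = z
      · rw [h2]; exact hz
      simpa [h1, h2] using hv

open Classical in
lemma PM.rematch {σ : V → V} (h : PM R σ) {u z : V} (hu : σ u = u) (hz : σ z ≠ z)
    (hadj : R.Adj u z) : ∃ σ', PM R σ' ∧ fixd σ' = insert (σ z) ((fixd σ).erase u) := by
  have hne : u ≠ z := hadj.ne
  have hne2 : σ z ≠ u := fun h1 => hne (by rw [← h.inv z, h1, hu])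
  refine ⟨fun w => if w = u then z else if w = z then u else if w = σ z then w else σ w,
    ⟨?_, ?_⟩, ?_⟩
  · intro v
    have hi := h.inv v
    by_cases h1 : v = u
    · subst h1; simp [hne.symm]
    by_cases h2 : v = z
    · subst h2; simp [hne.symm]
    by_cases h5 : v = σ z
    · subst h5; simp [hne2, hz]
    have h3 : σ v ≠ u := fun h3 => h1 (by rw [← h.inv v, h3, hu])
    have h4 : σ v ≠ z := fun h4 => h5 (by rw [← h4, h.inv])
    have h6 : σ v ≠ σ z := fun h6 => h2 (by rw [← h.inv v, h6, h.inv])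
    simp [h1, h2, h3, h4, h5, h6, hi]
  · intro v
    by_cases h1 : v = u
    · subst h1; simp [hadj]
    by_cases h2 : v = z
    · subst h2; simp [hne.symm, hadj.symm]
    by_cases h5 : v = σ z
    · subst h5; simp [hne2, hz]
    simpa [h1, h2, h5] using h.adj v
  · ext v
    rw [mem_fixd, Finset.mem_insert, Finset.mem_erase, mem_fixd]
    by_cases h1 : v = u
    · subst h1; simp [hne.symm, hne2.symm]
    by_cases h2 : v = z
    · subst h2; simp [hne.symm, hz, hz.symm, hne]
    by_cases h5 : v = σ z
    · subst h5; simp [hne2, hz]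
    simp [h1, h2, h5]

/-- `R` without the edge `x y`. -/
def del (R : SimpleGraph V) (x y : V) : SimpleGraph V where
  Adj u v := R.Adj u v ∧ ¬ (u = x ∧ v = y) ∧ ¬ (u = y ∧ v = x)
  symm := ⟨fun _ _ h => ⟨h.1.symm, fun h1 => h.2.2 ⟨h1.2, h1.1⟩, fun h1 => h.2.1 ⟨h1.2, h1.1⟩⟩⟩
  loopless := ⟨fun u h => R.loopless.irrefl u h.1⟩

lemma deg_del {x y u : V} (hx : u ≠ x) (hy : u ≠ y) : deg (del R x y) u = deg R u := by
  unfold deg
  refine Finset.sum_congr rfl fun v _ => ?_
  by_cases h : R.Adj u v
  · have h2 : (del R x y).Adj u v := ⟨h, fun (h1 : u = x ∧ v = y) => hx h1.1,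
      fun (h1 : u = y ∧ v = x) => hy h1.1⟩
    rw [ad_eq_one.2 h, ad_eq_one.2 h2]
  · have h2 : ¬ (del R x y).Adj u v := fun h1 => h h1.1
    rw [ad_eq_zero.2 h, ad_eq_zero.2 h2]

lemma deg_del_ge (x y u : V) : deg R u ≤ deg (del R x y) u + 1 := by
  classical
  unfold deg
  have h1 : ∀ v, ad R u v ≤ ad (del R x y) u v + if v = (if u = x then y else x) then 1 else 0 := by
    intro v
    by_cases h : R.Adj u v
    · by_cases h2 : (del R x y).Adj u v
      · rw [ad_eq_one.2 h, ad_eq_one.2 h2]; omega
      · have h3 : (u = x ∧ v = y) ∨ (u = y ∧ v = x) := by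
          by_contra h4
          push Not at h4
          exact h2 ⟨h, fun h5 => h4.1 h5.1 h5.2, fun h5 => h4.2 h5.1 h5.2⟩
        have h4 : v = (if u = x then y else x) := by
          rcases h3 with ⟨h3, h5⟩ | ⟨h3, h5⟩
          · rw [if_pos h3, h5]
          · by_cases h6 : u = x
            · exfalso
              exact R.loopless.irrefl u (by rw [h5, ← h6] at h; exact h)
            · rw [if_neg h6, h5]
        rw [if_pos h4]
        have := ad_le_one (H := R) u v
        omega
    · rw [ad_eq_zero.2 h]; exact Nat.zero_le _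
  calc ∑ v, ad R u v ≤ ∑ v, (ad (del R x y) u v + if v = (if u = x then y else x) then 1 else 0) :=
        Finset.sum_le_sum fun v _ => h1 v
    _ = _ := by rw [Finset.sum_add_distrib, Finset.sum_ite_eq']; simp

lemma PM.card_fixd_even {σ : V → V} (h : PM R σ) {m : ℕ} (hcard : Fintype.card V = 2 * m) :
    Even (fixd σ).card := by
  classical
  have h1 : ∑ v ∈ Finset.univ.filter (fun v => ¬ σ v = v), (1 : ZMod 2) = 0 := by
    refine Finset.sum_involution (fun v _ => σ v) ?_ ?_ ?_ ?_
    · intro v _; decide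
    · intro v hv _
      exact (Finset.mem_filter.1 hv).2
    · intro v hv
      rw [Finset.mem_filter] at hv ⊢
      refine ⟨Finset.mem_univ _, ?_⟩
      rw [h.inv]
      exact fun h1 => hv.2 h1.symm
    · intro v _; exact h.inv v
  rw [Finset.sum_const, nsmul_eq_mul, mul_one, ZMod.natCast_eq_zero_iff_even] at h1
  have h2 := Finset.card_filter_add_card_filter_not (s := (Finset.univ : Finset V))
      (p := fun v => σ v = v)
  rw [Finset.card_univ, hcard] at h2
  have h3 : (fixd σ) = Finset.univ.filter fun v => σ v = v := by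
    ext v; simp [fixd]
  rw [h3]
  have h4 : Even (2 * m) := even_two_mul m
  rw [← h2, Nat.even_add] at h4
  exact h4.2 h1

lemma PM.deg_add_le {σ : V → V} (h : PM R σ) {m : ℕ} (hcard : Fintype.card V = 2 * m)
    (hmin : ∀ σ', PM R σ' → (fixd σ).card ≤ (fixd σ').card) {u v : V} (huv : u ≠ v)
    (hu : σ u = u) (hv : σ v = v) : deg R u + deg R v + 2 ≤ 2 * m := by
  classical
  have hext : ∀ τ, PM R τ → (fixd τ).card = (fixd σ).card → ∀ a b, τ a = a → τ b = b →
      ¬ R.Adj a b := by
    intro τ hτ hc a b ha hb hab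
    obtain ⟨σ', h1, h2⟩ := hτ.extend ha hb hab
    have := hmin σ' h1
    omega
  have hbij : ∑ w, ad R v (σ w) = deg R v := by
    unfold deg
    exact Function.Bijective.sum_comp (Function.Involutive.bijective h.inv) fun w => ad R v w
  have hsum : deg R u + deg R v = ∑ w, (ad R u w + ad R v (σ w)) := by
    rw [Finset.sum_add_distrib, hbij]; rfl
  have hle : ∀ w, ad R u w + ad R v (σ w) ≤ if w ∈ ({u, v} : Finset V) then 0 else 1 := by
    intro w
    by_cases hw : σ w = w
    · have h1 := hext σ h rfl u w hu hw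
      have h2 := hext σ h rfl v w hv hw
      rw [hw, ad_eq_zero.2 h1, ad_eq_zero.2 h2]
      exact Nat.zero_le _
    · have h1 : w ∉ ({u, v} : Finset V) := by
        rw [Finset.mem_insert, Finset.mem_singleton]
        rintro (rfl | rfl)
        · exact hw hu
        · exact hw hv
      rw [if_neg h1]
      by_contra hcon
      have h3 := ad_le_one (H := R) u w
      have h4 := ad_le_one (H := R) v (σ w)
      have h5 : R.Adj u w := ad_eq_one.1 (by omega)
      have h6 : R.Adj v (σ w) := ad_eq_one.1 (by omega)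
      obtain ⟨τ, h7, h8⟩ := h.rematch hu hw h5
      have h9 : σ w ∉ (fixd σ).erase u := by
        rw [Finset.mem_erase, mem_fixd, h.inv]
        exact fun h10 => hw h10.2.symm
      have hcardτ : (fixd τ).card = (fixd σ).card := by
        rw [h8, Finset.card_insert_of_notMem h9, Finset.card_erase_of_mem (mem_fixd.2 hu)]
        have : 0 < (fixd σ).card := Finset.card_pos.2 ⟨u, mem_fixd.2 hu⟩
        omega
      refine hext τ h7 hcardτ v (σ w) ?_ ?_ h6
      · rw [← mem_fixd, h8, Finset.mem_insert, Finset.mem_erase, mem_fixd]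
        exact Or.inr ⟨huv.symm, hv⟩
      · rw [← mem_fixd, h8]
        exact Finset.mem_insert_self _ _
  have h1 : ∑ w, (if w ∈ ({u, v} : Finset V) then 0 else 1) + 2 = 2 * m := by
    have h2 : ∑ w : V, (if w ∈ ({u, v} : Finset V) then 0 else 1)
        + ∑ w : V, (if w ∈ ({u, v} : Finset V) then 1 else 0) = 2 * m := by
      rw [← Finset.sum_add_distrib, ← hcard, ← Finset.card_univ, Finset.card_eq_sum_ones]
      refine Finset.sum_congr rfl fun w _ => ?_
      split_ifs <;> rfl
    rw [Finset.sum_ite_mem, Finset.univ_inter, Finset.sum_const, Finset.card_pair huv] at h2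
    simpa using h2
  have h2 := Finset.sum_le_sum fun w (_ : w ∈ (Finset.univ : Finset V)) => hle w
  rw [← hsum] at h2
  omega

/-- **Matching lemma**: a perfect matching of `R` avoiding the edge `x y`. -/
theorem exists_matching {m : ℕ} (hcard : Fintype.card V = 2 * m) (hm : 2 ≤ m)
    (hdeg : ∀ v, m ≤ deg R v) (x y : V) :
    ∃ σ : V → V, (∀ v, σ (σ v) = v) ∧ (∀ v, σ v ≠ v) ∧ (∀ v, R.Adj v (σ v)) ∧ σ x ≠ y := by
  classical
  set R' := del R x y with hR'
  obtain ⟨σ, hσ, hmin⟩ : ∃ σ, PM R' σ ∧ ∀ σ', PM R' σ' → (fixd σ).card ≤ (fixd σ').card := by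
    have hne : {σ : V → V | PM R' σ}.Nonempty := ⟨id, ⟨fun _ => rfl, fun _ => Or.inl rfl⟩⟩
    obtain ⟨σ, h1, h2⟩ := Set.exists_min_image {σ : V → V | PM R' σ} (fun σ => (fixd σ).card)
      (Set.toFinite _) hne
    exact ⟨σ, h1, fun σ' h3 => h2 σ' h3⟩
  have hd1 : ∀ u, u ≠ x → u ≠ y → m ≤ deg R' u := by
    intro u h1 h2
    rw [hR', deg_del h1 h2]; exact hdeg u
  have hd2 : ∀ u, m ≤ deg R' u + 1 := fun u => (hdeg u).trans (deg_del_ge x y u)
  -- a pair of unmatched points different from `x, y` is impossible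
  have hkey : ∀ τ, PM R' τ → (fixd τ).card = (fixd σ).card → ∀ u v, u ≠ v → τ u = u → τ v = v →
      (u ≠ x ∧ u ≠ y) → False := by
    intro τ hτ hc u v huv hu hv h1
    have h2 := hτ.deg_add_le hcard (fun σ' h3 => hc ▸ hmin σ' h3) huv hu hv
    have h3 := hd1 u h1.1 h1.2
    have h4 := hd2 v
    omega
  have hF : fixd σ = ∅ := by
    by_contra hne
    obtain ⟨u, hu⟩ := Finset.nonempty_iff_ne_empty.2 hne
    obtain ⟨v, hv, hvu⟩ : ∃ v ∈ fixd σ, v ≠ u := by
      have h1 := hσ.card_fixd_even hcard
      have h2 : 1 < (fixd σ).card := by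
        have h3 : 0 < (fixd σ).card := Finset.card_pos.2 ⟨u, hu⟩
        rcases h1 with ⟨r, hr⟩
        omega
      exact Finset.exists_mem_ne h2 u
    rw [mem_fixd] at hu hv
    have hux : u = x ∨ u = y := by
      by_contra h1
      push Not at h1
      exact hkey σ hσ rfl u v hvu.symm hu hv h1
    have hvx : v = x ∨ v = y := by
      by_contra h1
      push Not at h1
      exact hkey σ hσ rfl v u hvu hv hu h1
    -- rematch `u`
    have h1 : 0 < deg R' u := by
      have := hd2 u
      omega
    obtain ⟨z, hz⟩ : ∃ z, R'.Adj u z := by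
      by_contra hcon
      push Not at hcon
      have : deg R' u = 0 := Finset.sum_eq_zero fun z _ => ad_eq_zero.2 (hcon z)
      omega
    have hzf : σ z ≠ z := by
      intro h2
      obtain ⟨σ', h3, h4⟩ := hσ.extend hu h2 hz
      have := hmin σ' h3
      omega
    obtain ⟨τ, h7, h8⟩ := hσ.rematch hu hzf hz
    have h9 : σ z ∉ (fixd σ).erase u := by
      rw [Finset.mem_erase, mem_fixd, hσ.inv]
      exact fun h10 => hzf h10.2.symm
    have hcardτ : (fixd τ).card = (fixd σ).card := by
      rw [h8, Finset.card_insert_of_notMem h9, Finset.card_erase_of_mem (mem_fixd.2 hu)]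
      have : 0 < (fixd σ).card := Finset.card_pos.2 ⟨u, mem_fixd.2 hu⟩
      omega
    have hszu : σ z ≠ u := fun h10 => hz.ne (by rw [← hσ.inv z, h10, hu])
    have hszv : σ z ≠ v := fun h10 => hzf (by
      have : z = v := by rw [← hσ.inv z, h10, hv]
      rw [this, hv])
    refine hkey τ h7 hcardτ (σ z) v hszv ?_ ?_ ⟨?_, ?_⟩
    · rw [← mem_fixd, h8]; exact Finset.mem_insert_self _ _
    · rw [← mem_fixd, h8, Finset.mem_insert, Finset.mem_erase, mem_fixd]
      exact Or.inr ⟨hvu, hv⟩
    · rcases hux with h10 | h10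
      · rw [← h10]; exact hszu
      · rcases hvx with h11 | h11
        · rw [← h11]; exact hszv
        · exact absurd (h11.trans h10.symm) hvu
    · rcases hux with h10 | h10
      · rcases hvx with h11 | h11
        · exact absurd (h11.trans h10.symm) hvu
        · rw [← h11]; exact hszv
      · rw [← h10]; exact hszu
  have hnf : ∀ v, σ v ≠ v := fun v hv => by
    have := mem_fixd.2 hv
    rw [hF] at this
    simp at this
  have hadj : ∀ v, R'.Adj v (σ v) := fun v => (hσ.adj v).resolve_left (hnf v)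
  refine ⟨σ, hσ.inv, hnf, fun v => (hadj v).1, fun h1 => ?_⟩
  exact (hadj x).2.1 ⟨rfl, h1⟩

end Pool.Agent.Lib_MP_c83083_co
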