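import Pool.Agent.Lib_MP_c83083_co.Step2d

/-!
# Step 2, part 5: only P and Q occur; conclusion of Step 2.
-/

namespace Pool.Agent.Lib_MP_c83083_co

open Finset

set_option linter.unusedSectionVars false

variable {V : Type*} [Fintype V] {H : SimpleGraph V} {σ : V → V}

namespace Conf

variable {c : ℕ} {C : ℤ → V} {p : V} {m : ℕ}

lemma mem_blk (h : Conf H σ c C p) (k : ℤ) : C k ∈ blk σ C k (k + c) ∧
    σ (C k) ∈ blk σ C k (k + c) := by
  have hc : (0 : ℤ) < c := by exact_mod_cast h.cyc.pos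
  unfold blk
  constructor
  · rw [Multiset.mem_sum]
    exact ⟨k, by rw [Finset.mem_Ico]; omega, by simp⟩
  · rw [Multiset.mem_sum]
    exact ⟨k, by rw [Finset.mem_Ico]; omega, by simp⟩

lemma ne (h : Conf H σ c C p) (k : ℤ) : C k ≠ p ∧ C k ≠ σ p ∧ σ (C k) ≠ p ∧ σ (C k) ≠ σ p := by
  have hnd : (blk σ C k (k + c) + {p, σ p}).Nodup := by
    rw [h.cov' k]; exact Finset.univ.nodup
  have hd : ∀ {a : V}, a ∈ blk σ C k (k + c) → a ∉ ({p, σ p} : Multiset V) := fun ha =>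
    Multiset.disjoint_left.1 (Multiset.disjoint_of_nodup_add hnd) ha
  obtain ⟨h1, h2⟩ := h.mem_blk k
  refine ⟨?_, ?_, ?_, ?_⟩ <;> intro he
  · exact hd h1 (by simp [he])
  · exact hd h1 (by simp [he])
  · exact hd h2 (by simp [he])
  · exact hd h2 (by simp [he])

lemma deg_p (S : Setup H σ m) (h : Conf H σ c C p) : deg H p = c := by
  have hd := h.deg_eq 0 p
  rw [ad_eq_zero.2 (H.loopless.irrefl p), ad_eq_zero.2 (S.D.nadj p)] at hd
  have hdq := h.deg_eq 0 (σ p)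
  rw [ad_eq_zero.2 (H.loopless.irrefl (σ p)), ad_eq_zero.2 fun h1 => S.D.nadj p h1.symm] at hdq
  have hx := fun j => (h.exact_two S.D S.hno S.card S.hdeg j).1
  have hy := fun j => (h.exact_two S.D S.hno S.card S.hdeg j).2
  have hs1 : ∑ l ∈ Finset.Ico (0 : ℤ) (0 + c), ad H p (σ (C (l - 1)))
      + ∑ l ∈ Finset.Ico (0 : ℤ) (0 + c), ad H (σ p) (C l) = c := by
    rw [← Finset.sum_add_distrib, Finset.sum_congr rfl fun j _ => hx j]
    simp
  have hs2 : ∑ l ∈ Finset.Ico (0 : ℤ) (0 + c), ad H (σ p) (σ (C (l - 1)))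
      + ∑ l ∈ Finset.Ico (0 : ℤ) (0 + c), ad H p (C l) = c := by
    rw [← Finset.sum_add_distrib, Finset.sum_congr rfl fun j _ => hy j]
    simp
  have h1 := S.hdeg p
  have h2 := S.hdeg (σ p)
  have := h.cm S
  omega

/-- The transitional domino in the P/Q case. -/
lemma d_trans (S : Setup H σ m) (hPQ : ∀ (C : ℤ → V) (p : V), Conf H σ c C p → ∀ l,
      (H.Adj p (σ (C (l - 1))) ↔ ¬ H.Adj (σ p) (σ (C (l - 1)))))
    (h : Conf H σ c C p) {k : ℤ}
    (hA : H.Adj p (σ (C (k - 1)))) (hA' : ¬ H.Adj p (σ (C k))) (l : ℤ) :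
    (H.Adj p (σ (C (l - 1))) → H.Adj (C k) (σ (C (l - 1))) ∧ ¬ H.Adj (σ (C k)) (σ (C (l - 1))) ∧
      ¬ H.Adj (σ (C k)) (C l)) ∧
    (¬ H.Adj p (σ (C (l - 1))) → ¬ H.Adj (C k) (σ (C (l - 1))) ∧ ¬ H.Adj (C k) (C l)) := by
  have e : C (k + 1 - 1) = C k := by congr 1; ring
  have hc := h.two_le S.D
  have hB : ¬ H.Adj (σ p) (σ (C (k - 1))) := (hPQ C p h k).1 hA
  have hB' : H.Adj (σ p) (σ (C k)) := by
    have := (hPQ C p h (k + 1)).2
    rw [e] at this
    by_contra hcon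
    exact hA' (this hcon)
  have i1 := h.iff1 S (k + 1)
  have i2 := h.iff2 S (k + 1)
  rw [e] at i1 i2
  have h' := h.swap S.D hA (i1.2 hA')
  have hadj0 : H.Adj (C k) (σ (C (k - 1))) := by
    have := h.cyc.adj (k - 1)
    rw [show k - 1 + 1 = k by ring] at this
    exact this.symm
  refine h.cyc.window (P := fun a b =>
    (H.Adj p (σ a) → H.Adj (C k) (σ a) ∧ ¬ H.Adj (σ (C k)) (σ a) ∧ ¬ H.Adj (σ (C k)) b) ∧
    (¬ H.Adj p (σ a) → ¬ H.Adj (C k) (σ a) ∧ ¬ H.Adj (C k) b)) k ?_ l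
  intro l h1 h2
  rcases eq_or_ne l k with rfl | hlk
  · refine ⟨fun _ => ⟨hadj0, ?_, fun h3 => S.D.nadj _ h3.symm⟩, fun h3 => absurd hA h3⟩
    have f2 := h.F2 S (show l < l + 1 by omega) (by omega) ((h.iff2 S l).2 hB) (i1.2 hA')
    rw [e] at f2
    exact fun h3 => f2 h3.symm
  rcases eq_or_ne l (k + 1) with rfl | hlk'
  · rw [e]
    refine ⟨fun h3 => absurd h3 hA', fun _ => ⟨S.D.nadj _, ?_⟩⟩
    exact h.F1 S (by omega) (by omega) hA (by rw [e]; exact hB')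
  have hkl : k + 1 < l := by omega
  have j1 := h'.iff1 S l
  have j2 := h'.iff2 S l
  have ja := hPQ _ _ h' l
  rw [upd_of_lt p (by omega) h2, upd_of_lt p (show k < l - 1 by omega) (by omega)] at j1 j2
  rw [upd_of_lt p (show k < l - 1 by omega) (by omega)] at ja
  have hl := hPQ C p h l
  constructor
  · intro hP
    have f2 := (h.symm S.D).F2 S hkl (by omega) (i1.2 hA')
      (by rw [S.D.inv]; exact (h.iff2 S l).2 (hl.1 hP))
    rw [e] at f2
    tauto
  · intro hP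
    have hQ : H.Adj (σ p) (σ (C (l - 1))) := by
      by_contra hcon
      exact hP (hl.2 hcon)
    have f1 := h.F1 S (show k < l by omega) h2 hA hQ
    tauto

/-- No PP domino. -/
lemma no_PP (S : Setup H σ m) (hPQ : ∀ (C : ℤ → V) (p : V), Conf H σ c C p → ∀ l,
      (H.Adj p (σ (C (l - 1))) ↔ ¬ H.Adj (σ p) (σ (C (l - 1)))))
    (h : Conf H σ c C p) {k : ℤ}
    (hA : H.Adj p (σ (C (k - 1)))) (hA' : H.Adj p (σ (C k))) : False := by
  have e : C (k + 1 - 1) = C k := by congr 1; ring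
  have hc := h.two_le S.D
  have hl := hPQ C p h
  have hQ : ∀ l, ¬ H.Adj p (σ (C (l - 1))) → H.Adj (σ p) (σ (C (l - 1))) := by
    intro l h1
    by_contra h2
    exact h1 ((hl l).2 h2)
  have h1 : ∀ l, ¬ H.Adj p (σ (C (l - 1))) → ¬ H.Adj (C k) (C l) := by
    intro l
    refine h.cyc.window (P := fun a b => ¬ H.Adj p (σ a) → ¬ H.Adj (C k) b) k ?_ l
    intro l hl1 hl2 hl3
    rcases eq_or_ne l k with rfl | hlk
    · exact H.loopless.irrefl _
    · exact h.F1 S (by omega) hl2 hA (hQ l hl3)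
  obtain ⟨l, hl1, hl2, hl3, hl4⟩ : ∃ l, k ≤ l ∧ l < k + c ∧ ¬ H.Adj p (σ (C (l - 1))) ∧
      H.Adj (C k) (σ (C (l - 1))) := by
    by_contra hcon
    push Not at hcon
    have e1 : ∑ l ∈ Finset.Ico k (k + c), ad H (C k) (C l)
        < ∑ l ∈ Finset.Ico k (k + c), ad H p (C l) := by
      refine Finset.sum_lt_sum (fun l hl1 => ?_) ⟨k, ?_, ?_⟩
      · by_cases h2 : H.Adj p (σ (C (l - 1)))
        · rw [ad_eq_one.2 ((h.iff2 S l).2 ((hl l).1 h2))]; exact ad_le_one _ _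
        · rw [ad_eq_zero.2 (h1 l h2)]; exact Nat.zero_le _
      · rw [Finset.mem_Ico]; omega
      · rw [ad_eq_zero.2 (H.loopless.irrefl _), ad_eq_one.2 ((h.iff2 S k).2 ((hl k).1 hA))]
        exact one_pos
    have e2 : ∑ l ∈ Finset.Ico k (k + c), ad H (C k) (σ (C (l - 1)))
        < ∑ l ∈ Finset.Ico k (k + c), ad H p (σ (C (l - 1))) := by
      refine Finset.sum_lt_sum (fun l hl1 => ?_) ⟨k + 1, ?_, ?_⟩
      · rw [Finset.mem_Ico] at hl1
        by_cases h2 : H.Adj p (σ (C (l - 1)))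
        · rw [ad_eq_one.2 h2]; exact ad_le_one _ _
        · rw [ad_eq_zero.2 (hcon l hl1.1 hl1.2 h2)]; exact Nat.zero_le _
      · rw [Finset.mem_Ico]; omega
      · rw [e, ad_eq_zero.2 (S.D.nadj _), ad_eq_one.2 hA']
        exact one_pos
    have hd := h.deg_eq k p
    rw [ad_eq_zero.2 (H.loopless.irrefl p), ad_eq_zero.2 (S.D.nadj p), h.deg_p S] at hd
    have hdk := h.deg_eq k (C k)
    have e3 : ad H (C k) (σ p) = 0 := ad_eq_zero.2 fun h2 => (h.iff1 S k).1 h2.symm hA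
    have e4 := ad_le_one (H := H) (C k) p
    have := S.hdeg (C k)
    have := h.cm S
    omega
  have hlk : l ≠ k := by rintro rfl; exact hl3 hA
  have hlk' : l ≠ k + 1 := by rintro rfl; rw [e] at hl3; exact hl3 hA'
  obtain ⟨j, hj1, hj2, hj3, hj4⟩ := exists_step (P := fun i => H.Adj p (σ (C (i - 1))))
    (show k + 1 < l by omega) (by simpa using hA') hl3
  simp only [add_sub_cancel_right] at hj4
  have tw := (h.d_trans S hPQ hj3 hj4 k).1 hA
  apply S.hno
  have hkj : k < j := by omega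
  have a1 := h.cyc.arc hkj
  have a2 := h.cyc.arc hl2
  have a3 := h.cyc.arc hj2
  rw [h.pred_eq] at a2
  have := ((a1.join hj3.symm (Seg.single p)).join ((h.iff1 S l).2 hl3) a2).join tw.1.symm a3
  refine ⟨_, _, this.congr rfl rfl ?_, hl4.symm⟩
  rw [← h.cov' k, ← blk_add (show k ≤ l by omega) hl2.le, ← blk_add hkj.le hj2.le]
  abel

/-- If only P and Q occur, the graph is (contained in) two cliques. -/
theorem exc2_of_PQ (S : Setup H σ m) (hPQ : ∀ (C : ℤ → V) (p : V), Conf H σ c C p → ∀ l,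
      (H.Adj p (σ (C (l - 1))) ↔ ¬ H.Adj (σ p) (σ (C (l - 1)))))
    (h : Conf H σ c C p) :
    ∃ K : Finset V, K.card = m ∧ (∀ v, v ∈ K ↔ σ v ∉ K) ∧ ∀ u ∈ K, ∀ w ∉ K, ¬ H.Adj u w := by
  classical
  have hs := h.symm S.D
  have hl := hPQ C p h
  have hQ : ∀ l, ¬ H.Adj p (σ (C (l - 1))) → H.Adj (σ p) (σ (C (l - 1))) := by
    intro l h1
    by_contra h2
    exact h1 ((hl l).2 h2)
  have halt : ∀ k, H.Adj p (σ (C k)) ↔ ¬ H.Adj p (σ (C (k - 1))) := by
    intro k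
    constructor
    · intro h1 h2
      exact h.no_PP S hPQ h2 h1
    · intro h1
      by_contra h2
      have h2' := hQ (k + 1) (by rwa [show k + 1 - 1 = k by ring])
      rw [show k + 1 - 1 = k by ring] at h2'
      exact hs.no_PP S hPQ (hQ k h1) h2'
  have hmemC : ∀ k, C k ∈ (Finset.univ.filter fun v => v = p ∨ H.Adj p v) ↔
      H.Adj p (σ (C (k - 1))) := by
    intro k
    rw [Finset.mem_filter, h.iff2 S k, ← hl k]
    simp [(h.ne k).1]
  have hmemT : ∀ k, σ (C k) ∈ (Finset.univ.filter fun v => v = p ∨ H.Adj p v) ↔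
      H.Adj p (σ (C k)) := by
    intro k
    rw [Finset.mem_filter]
    simp [(h.ne k).2.2.1]
  have hmp : p ∈ (Finset.univ.filter fun v => v = p ∨ H.Adj p v) := by simp
  have hmq : σ p ∉ (Finset.univ.filter fun v => v = p ∨ H.Adj p v) := by
    simp [S.D.ne, S.D.nadj]
  refine ⟨Finset.univ.filter fun v => v = p ∨ H.Adj p v, ?_, ?_, ?_⟩
  · rw [Finset.filter_or, Finset.card_union_of_disjoint]
    · have hd : deg H p = (Finset.univ.filter fun v => H.Adj p v).card := by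
        unfold deg ad
        rw [Finset.card_filter]
      have h1 : (Finset.univ.filter fun v => v = p) = {p} := by
        ext v; simp
      rw [← hd, h.deg_p S, h1, Finset.card_singleton]
      have := h.cm S
      omega
    · rw [Finset.disjoint_filter]
      rintro x _ rfl
      exact H.loopless.irrefl _
  · intro v
    rcases h.cover 0 v with rfl | rfl | ⟨k, -, -, rfl | rfl⟩
    · exact ⟨fun _ => hmq, fun _ => hmp⟩
    · rw [S.D.inv]
      exact ⟨fun h1 => absurd h1 hmq, fun h1 => absurd hmp h1⟩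
    · rw [hmemC, hmemT]
      have := halt k
      tauto
    · rw [S.D.inv, hmemC, hmemT, show H.Adj p (σ (C (k - 1))) ↔ _ from halt (k - 1)]
  · intro u hu w hw
    have hw' : w = σ p ∨ (∃ l, w = C l ∧ ¬ H.Adj p (σ (C (l - 1)))) ∨
        (∃ l, w = σ (C (l - 1)) ∧ ¬ H.Adj p (σ (C (l - 1)))) := by
      rcases h.cover 0 w with rfl | rfl | ⟨k, -, -, rfl | rfl⟩
      · exact absurd hmp hw
      · exact Or.inl rfl
      · exact Or.inr (Or.inl ⟨k, rfl, fun h1 => hw ((hmemC k).2 h1)⟩)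
      · exact Or.inr (Or.inr ⟨k, rfl, fun h1 => hw ((hmemT (k - 1)).2 h1)⟩)
    have hu' : u = p ∨ (∃ l, u = C l ∧ H.Adj p (σ (C (l - 1)))) ∨
        (∃ l, u = σ (C (l - 1)) ∧ H.Adj p (σ (C (l - 1)))) := by
      rcases h.cover 0 u with rfl | rfl | ⟨k, -, -, rfl | rfl⟩
      · exact Or.inl rfl
      · exact absurd hu hmq
      · exact Or.inr (Or.inl ⟨k, rfl, (hmemC k).1 hu⟩)
      · exact Or.inr (Or.inr ⟨k, rfl, (hmemT (k - 1)).1 hu⟩)
    rcases hu' with rfl | ⟨k, rfl, hk⟩ | ⟨k, rfl, hk⟩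
    · intro h1
      exact hw (by rw [Finset.mem_filter]; exact ⟨Finset.mem_univ _, Or.inr h1⟩)
    · have hk' : ¬ H.Adj p (σ (C k)) := fun h1 => (halt k).1 h1 hk
      rcases hw' with rfl | ⟨l, rfl, hl'⟩ | ⟨l, rfl, hl'⟩
      · exact fun h1 => (h.iff1 S k).1 h1.symm hk
      · exact ((h.d_trans S hPQ hk hk' l).2 hl').2
      · exact ((h.d_trans S hPQ hk hk' l).2 hl').1
    · -- symmetric configuration at the domino `k - 1`
      have hk1 : H.Adj (σ p) (σ (C (k - 1 - 1))) := hQ (k - 1) fun h1 => (halt (k - 1)).1 hk h1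
      have hk2 : ¬ H.Adj (σ p) (σ (C (k - 1))) := (hl k).1 hk
      rcases hw' with rfl | ⟨l, rfl, hl'⟩ | ⟨l, rfl, hl'⟩
      · exact fun h1 => hk2 h1.symm
      · exact ((hs.d_trans S hPQ hk1 hk2 l).1 (hQ l hl')).2.2
      · exact ((hs.d_trans S hPQ hk1 hk2 l).1 (hQ l hl')).2.1

end Conf

lemma Seg.card_pos {a b : V} {T : Multiset V} (h : Seg H σ a b T) : 0 < T.card := by
  cases h with
  | single a => simp
  | cons h1 h2 => rw [Multiset.card_add]; simp

/-- **Step 2.** -/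
theorem step2 {m : ℕ} (S : Setup H σ m) (hP : Pair H σ 1) :
    (∃ K : Finset V, K.card = m ∧ (∀ v, v ∈ K ↔ σ v ∉ K) ∧ ∀ u ∈ K, ∀ w ∉ K, ¬ H.Adj u w) ∨
    (∃ I : Finset V, I.card = m + 1 ∧ ∀ u ∈ I, ∀ w ∈ I, ¬ H.Adj u w) := by
  obtain ⟨a, b, A, x, y, T, h1, h2, h3, h4, h5⟩ := hP
  obtain ⟨c, C, hC, -, -, hA⟩ := h1.toCyc h2
  have hT : T = {x, σ x} := by
    cases h3 with
    | single a => rfl
    | cons h6 h7 =>
      exfalso
      rw [Multiset.card_add] at h5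
      have := h7.card_pos
      simp at h5
      simp [h5] at this
  have hconf : Conf H σ c C x := ⟨hC, by rw [hA, ← hT]; exact h4⟩
  by_cases hPQ : ∀ (C : ℤ → V) (p : V), Conf H σ c C p → ∀ l,
      (H.Adj p (σ (C (l - 1))) ↔ ¬ H.Adj (σ p) (σ (C (l - 1))))
  · exact Or.inl (hconf.exc2_of_PQ S hPQ)
  · push Not at hPQ
    obtain ⟨C', p', hconf', l, hl⟩ := hPQ
    exact Or.inr (hconf'.exc3_of_not_PQ S (k := l) (by tauto))

end Pool.Agent.Lib_MP_c83083_co
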