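import Pool.Agent.Lib_MP_c83083_co.Combine
import Pool.Agent.Lib_MP_c83083_co.Step2
import Pool.Agent.Lib_MP_c83083_co.Matching
import Pool.Agent.Lib_MP_c83083_co.Assemble

/-! Final assembly. -/

namespace Pool.Agent.Lib_MP_c83083_co

theorem twoGraphs : TwoGraphs := by
  intro V _ R B m hm hcard hR hB
  classical
  refine even_case (B := B) ?_ ?_ R hcard hm hR hB
  · intro H σ m D hcard hm hdeg hno hP
    exact step2 ⟨D, hcard, hdeg, hno⟩ hP
  · intro R m hcard hm hdeg x y
    obtain ⟨σ, h1, h2, h3, h4⟩ := exists_matching hcard hm hdeg x y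
    exact ⟨σ, h1, h3, h4⟩

end Pool.Agent.Lib_MP_c83083_co
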