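import Pool.Agent.Lib_MP_c83083_co.Step1

/-! Main lemma: edge-maximality, reduction to Step 1 and Step 2. -/

namespace Pool.Agent.Lib_MP_c83083_co

open Finset

set_option linter.unusedSectionVars false
set_option linter.unusedVariables false

variable {V : Type*} [Fintype V] [DecidableEq V] {H : SimpleGraph V} {σ : V → V}
variable {m : ℕ}

/-- The statement of Step 2. -/
def Step2Statement (V : Type*) [Fintype V] : Prop :=
  ∀ (H : SimpleGraph V) (σ : V → V) (m : ℕ), Dom H σ → Fintype.card V = 2 * m → 2 ≤ m →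
    (∀ v, m ≤ deg H v + 1) → ¬ Ham H σ → Pair H σ 1 → Exc2 H σ m ∨ Exc3 H m

/-- adding an edge -/
def addE (H : SimpleGraph V) (x y : V) : SimpleGraph V where
  Adj u v := H.Adj u v ∨ (u = x ∧ v = y ∧ x ≠ y) ∨ (u = y ∧ v = x ∧ x ≠ y)
  symm := by
    constructor
    intro u v h
    rcases h with h | ⟨h1, h2, h3⟩ | ⟨h1, h2, h3⟩
    · exact Or.inl h.symm
    · exact Or.inr (Or.inr ⟨h2, h1, h3⟩)
    · exact Or.inr (Or.inl ⟨h2, h1, h3⟩)
  loopless := by
    constructor
    intro u h
    rcases h with h | ⟨h1, h2, h3⟩ | ⟨h1, h2, h3⟩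
    · exact H.irrefl h
    · exact h3 (h1.symm.trans h2)
    · exact h3 (h2.symm.trans h1)

theorem addE_of (x y : V) {u v : V} (h : H.Adj u v) : (addE H x y).Adj u v := Or.inl h

theorem addE_dom (D : Dom H σ) {x y : V} (h2 : y ≠ σ x) : Dom (addE H x y) σ where
  inv := D.inv
  ne := D.ne
  nadj := by
    intro v h
    rcases h with h | ⟨h1, h3, _⟩ | ⟨h1, h3, _⟩
    · exact D.nadj v h
    · apply h2; rw [← h3, h1]
    · apply h2; rw [← h3, D.inv, h1]

theorem ad_mono {H' : SimpleGraph V} (hm : ∀ u v, H.Adj u v → H'.Adj u v) (u v : V) :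
    ad H u v ≤ ad H' u v := by
  by_cases h : H.Adj u v
  · rw [ad_pos h, ad_pos (hm u v h)]
  · rw [ad_zero h]; exact Nat.zero_le _

theorem deg_mono {H' : SimpleGraph V} (hm : ∀ u v, H.Adj u v → H'.Adj u v) (u : V) :
    deg H u ≤ deg H' u :=
  Finset.sum_le_sum (fun v _ => ad_mono hm u v)

/-- If adding the edge `xy` creates an alternating Hamilton cycle then `x` and `y` are joined by an
alternating Hamilton path. -/
theorem path_of_addE (D : Dom H σ) (hno : ¬ Ham H σ) {x y : V} (h1 : y ≠ x) (h2 : y ≠ σ x)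
    (hH : Ham (addE H x y) σ) : Seg H σ x y (Finset.univ : Finset V).val := by
  obtain ⟨a, b, hs, hba⟩ := hH
  obtain ⟨c, C, hC, _, _, hU⟩ := hs.toCyc hba
  have hnd : (blk σ C 0 c).Nodup := by rw [hU]; exact Finset.univ.nodup
  -- some edge is not in H
  have hex : ∃ k, ¬ H.Adj (σ (C k)) (C (k + 1)) := by
    by_contra hcon
    push Not at hcon
    apply hno
    have hC' : Cyc H σ c C := ⟨hC.pos, hC.per, hcon⟩
    have s := hC'.arc (i := 0) (j := c) (by have := hC.pos; omega)
    refine ⟨_, _, s.congr rfl rfl hU, ?_⟩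
    have := hcon (c - 1)
    rw [show (c : ℤ) - 1 + 1 = 0 + c by ring, hC.per] at this
    exact this
  obtain ⟨k, hk⟩ := hex
  have hc := hC.pos
  -- the edge is xy or yx
  have hkk : (σ (C k) = x ∧ C (k + 1) = y) ∨ (σ (C k) = y ∧ C (k + 1) = x) := by
    rcases hC.adj k with h | ⟨h3, h4, _⟩ | ⟨h3, h4, _⟩
    · exact absurd h hk
    · exact Or.inl ⟨h3, h4⟩
    · exact Or.inr ⟨h3, h4⟩
  -- other edges are in H
  have hoth : ∀ l : ℤ, k + 1 ≤ l → l < k + c → H.Adj (σ (C l)) (C (l + 1)) := by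
    intro l hl1 hl2
    rcases hC.adj l with h | h
    · exact h
    exfalso
    have n1 := hC.ne hnd (k := k) (l := l) (by omega) (by omega)
    have n2 : σ (C l) ≠ C (k + 1) := by
      by_cases hl : l = k + 1
      · subst hl; exact D.ne _
      · exact (hC.ne hnd (k := k + 1) (l := l) (by omega) (by omega)).2.1.symm
    rcases hkk with ⟨e1, e2⟩ | ⟨e1, e2⟩ <;> rcases h with ⟨h3, h4, _⟩ | ⟨h3, h4, _⟩
    · exact n1.2.2.2 (e1.trans h3.symm)
    · exact n2 (h3.trans e2.symm)
    · exact n2 (h3.trans e2.symm)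
    · exact n1.2.2.2 (e1.trans h3.symm)
  have s := Seg.of_fun (H := H) (σ := σ) (C := C) (i := k + 1) (j := k + c) (by omega)
    (fun l hl1 hl2 => hoth l hl1 hl2)
  rw [hC.per, show k + (c : ℤ) + 1 = k + 1 + c by ring, hC.blk_full, hU] at s
  rcases hkk with ⟨e1, e2⟩ | ⟨e1, e2⟩
  · rw [e1, e2] at s; exact s.rev D
  · rw [e1, e2] at s; exact s

theorem Exc1.mono {H' : SimpleGraph V} (hm : ∀ u v, H.Adj u v → H'.Adj u v)
    (h : Exc1 H' σ m) : Exc1 H σ m := by
  obtain ⟨K, s, h1, h2, h3, h4, h5, h6⟩ := h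
  exact ⟨K, s, h1, h2, h3, h4, h5, fun u hu w hw q1 q2 hadj => h6 u hu w hw q1 q2 (hm _ _ hadj)⟩

theorem Exc2.mono {H' : SimpleGraph V} (hm : ∀ u v, H.Adj u v → H'.Adj u v)
    (h : Exc2 H' σ m) : Exc2 H σ m := by
  obtain ⟨K, h1, h2, h3⟩ := h
  exact ⟨K, h1, h2, fun u hu w hw hadj => h3 u hu w hw (hm _ _ hadj)⟩

theorem Exc3.mono {H' : SimpleGraph V} (hm : ∀ u v, H.Adj u v → H'.Adj u v)
    (h : Exc3 H' m) : Exc3 H m := by
  obtain ⟨I, h1, h3⟩ := h
  exact ⟨I, h1, fun u hu w hw hadj => h3 u hu w hw (hm _ _ hadj)⟩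

/-- the main lemma -/
theorem main_lemma (hstep2 : Step2Statement V) (D : Dom H σ) (hcard : Fintype.card V = 2 * m)
    (hm : 2 ≤ m) (hdeg : ∀ v, m ≤ deg H v + 1) (hno : ¬ Ham H σ) :
    3 ≤ m ∧ (Exc1 H σ m ∨ Exc2 H σ m ∨ Exc3 H m) := by
  classical
  -- induction on the number of non-edges
  induction hN : (Finset.univ.filter (fun p : V × V => ¬ H.Adj p.1 p.2)).card
    using Nat.strong_induction_on generalizing H with
  | _ N ih =>
    subst hN
    by_cases hex : ∃ x y, y ≠ x ∧ y ≠ σ x ∧ ¬ H.Adj x y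
    · obtain ⟨x, y, h1, h2, h3⟩ := hex
      have hmono : ∀ u v, H.Adj u v → (addE H x y).Adj u v := fun u v => addE_of x y
      by_cases hH : Ham (addE H x y) σ
      · have hp := path_of_addE D hno h1 h2 hH
        have hP : ∃ r, 1 ≤ r ∧ 2 * r ≤ m ∧ Pair H σ r :=
          exists_pair D hm hcard hdeg hno hp h3
        have hr0 := Nat.find_spec hP
        have hmin := fun r' (hr' : r' < Nat.find hP) => Nat.find_min hP hr'
        obtain ⟨q1, q2, q3⟩ := hr0
        by_cases hr1 : Nat.find hP = 1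
        · rw [hr1] at q3
          refine ⟨?_, Or.inr (hstep2 H σ m D hcard hm hdeg hno q3)⟩
          obtain ⟨c, C, x, y, T, hC, _, hpart, hT⟩ := q3.toCyc
          have h1 := card_part hcard hpart hT
          have h2 := hC.two_le D
          omega
        · have hE : Exc1 H σ m := by
            refine step1 (r := Nat.find hP) ⟨D, hcard, hdeg, hno, by omega, q2, ?_⟩ q3
            intro r' hr1' hr2' hP'
            exact hmin r' hr2' ⟨hr1', by omega, hP'⟩
          refine ⟨?_, Or.inl hE⟩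
          obtain ⟨_, _, h5, _⟩ := hE
          omega
      · have := ih _ ?_ (addE_dom D h2) (fun v => (hdeg v).trans
          (Nat.add_le_add_right (deg_mono hmono v) 1)) hH rfl
        · refine ⟨this.1, ?_⟩
          rcases this.2 with h | h | h
          · exact Or.inl (h.mono hmono)
          · exact Or.inr (Or.inl (h.mono hmono))
          · exact Or.inr (Or.inr (h.mono hmono))
        · apply Finset.card_lt_card
          rw [Finset.ssubset_iff_of_subset]
          · refine ⟨(x, y), ?_, ?_⟩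
            · simp [h3]
            · simp only [Finset.mem_filter, Finset.mem_univ, true_and, not_not]
              exact Or.inr (Or.inl ⟨rfl, rfl, h1.symm⟩)
          · intro p hp
            simp only [Finset.mem_filter, Finset.mem_univ, true_and] at hp ⊢
            exact fun h => hp (hmono _ _ h)
    · push Not at hex
      exact absurd (ham_of_complete D (by omega) (fun u w q1 q2 => hex u w q1 q2)) hno

end Pool.Agent.Lib_MP_c83083_co
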