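import Pool.Agent.Lib_MP_c83083_co.Basic

/-! Counting along a Hamilton alternating path, complete pieces, and the sumset-type lemma. -/

namespace Pool.Agent.Lib_MP_c83083_co

open Finset

variable {V : Type*} [Fintype V] {H : SimpleGraph V} {σ : V → V}

/-- The crossing term `b_j`. -/
noncomputable def bterm (H : SimpleGraph V) (σ : V → V) (P : ℤ → V) (u v : V) (j : ℤ) : ℕ :=
  ad H u (σ (P (j - 1))) + ad H v (P j)

/-- Hamilton alternating path `P 0, ..., P n` with nonadjacent ends: the sum of the crossing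
terms is at least `n`. -/
theorem path_count (D : Dom H σ) {m : ℕ} (hdeg : ∀ v, m ≤ deg H v + 1) (hno : ¬ Ham H σ)
    {n : ℕ} (hn : n + 1 = m) {P : ℤ → V}
    (hadj : ∀ k : ℤ, 0 ≤ k → k < n → H.Adj (σ (P k)) (P (k + 1)))
    (hU : blk σ P 0 (n + 1) = (Finset.univ : Finset V).val)
    (hna : ¬ H.Adj (P 0) (σ (P n))) :
    n ≤ ∑ j ∈ Finset.Ico (1 : ℤ) (n + 1), bterm H σ P (P 0) (σ (P n)) j := by
  have hx : ∀ u, deg H u = ad H u (P 0) + ad H u (σ (P n))
      + ∑ j ∈ Finset.Ico (1 : ℤ) (n + 1), (ad H u (σ (P (j - 1))) + ad H u (P j)) := by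
    intro u
    rw [← dg_univ, ← hU, dgBlk, Finset.sum_add_distrib, Finset.sum_add_distrib]
    have h1 : Finset.Ico (0 : ℤ) (n + 1) = insert 0 (Finset.Ico (1 : ℤ) (n + 1)) := by
      ext x; simp only [Finset.mem_Ico, Finset.mem_insert]; omega
    have h2 : Finset.Ico (0 : ℤ) (n + 1) = insert (n : ℤ) (Finset.Ico (0 : ℤ) n) := by
      ext x; simp only [Finset.mem_Ico, Finset.mem_insert]; omega
    have h3 : ∑ j ∈ Finset.Ico (1 : ℤ) (n + 1), ad H u (σ (P (j - 1)))
        = ∑ j ∈ Finset.Ico (0 : ℤ) n, ad H u (σ (P j)) := by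
      have := sum_Ico_shift (fun k => ad H u (σ (P (k - 1)))) 1 0 n
      rw [show (0 : ℤ) + 1 = 1 by ring] at this
      rw [← this]
      refine Finset.sum_congr rfl ?_
      intro k _
      simp
    rw [h3]
    have h4 : ∑ x ∈ Finset.Ico (0 : ℤ) (n + 1), ad H u (P x)
        = ad H u (P 0) + ∑ x ∈ Finset.Ico (1 : ℤ) (n + 1), ad H u (P x) := by
      rw [h1, Finset.sum_insert (by simp)]
    have h5 : ∑ x ∈ Finset.Ico (0 : ℤ) (n + 1), ad H u (σ (P x))
        = ad H u (σ (P n)) + ∑ x ∈ Finset.Ico (0 : ℤ) n, ad H u (σ (P x)) := by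
      rw [h2, Finset.sum_insert (by simp)]
    rw [h4, h5]
    ring
  have e1 := hx (P 0)
  have e2 := hx (σ (P n))
  rw [ad_self, ad_zero hna, zero_add, zero_add] at e1
  rw [ad_self, ad_symm (σ (P n)) (P 0), ad_zero hna, zero_add, zero_add] at e2
  have d1 := hdeg (P 0)
  have d2 := hdeg (σ (P n))
  -- a-terms
  have ha : ∀ j ∈ Finset.Ico (1 : ℤ) (n + 1),
      ad H (P 0) (P j) + ad H (σ (P n)) (σ (P (j - 1))) ≤ 1 := by
    intro j hj
    rw [Finset.mem_Ico] at hj
    by_contra hcon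
    have l1 := ad_le (H := H) (P 0) (P j)
    have l2 := ad_le (H := H) (σ (P n)) (σ (P (j - 1)))
    have g1 : H.Adj (P 0) (P j) := adEqOne.1 (by omega)
    have g2 : H.Adj (σ (P n)) (σ (P (j - 1))) := adEqOne.1 (by omega)
    apply hno
    have s1 : Seg H σ (P 0) (σ (P (j - 1))) (blk σ P 0 (j - 1 + 1)) :=
      Seg.of_fun (by omega) (fun k hk1 hk2 => hadj k hk1 (by omega))
    have s2 : Seg H σ (P j) (σ (P n)) (blk σ P j (n + 1)) :=
      Seg.of_fun (by omega) (fun k hk1 hk2 => hadj k (by omega) (by omega))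
    have s3 := s1.join g2.symm (s2.rev D)
    refine ⟨P 0, P j, s3.congr rfl rfl ?_, g1.symm⟩
    rw [show j - 1 + 1 = j by ring, blk_add (by omega) (by omega), hU]
  have hsum : ∑ j ∈ Finset.Ico (1 : ℤ) (n + 1),
      (ad H (P 0) (P j) + ad H (σ (P n)) (σ (P (j - 1)))) ≤ n := by
    calc _ ≤ ∑ j ∈ Finset.Ico (1 : ℤ) (n + 1), 1 := Finset.sum_le_sum ha
      _ = n := by simp
  have htot : deg H (P 0) + deg H (σ (P n)) =
      ∑ j ∈ Finset.Ico (1 : ℤ) (n + 1), (ad H (P 0) (P j) + ad H (σ (P n)) (σ (P (j - 1))))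
      + ∑ j ∈ Finset.Ico (1 : ℤ) (n + 1), bterm H σ P (P 0) (σ (P n)) j := by
    rw [e1, e2, ← Finset.sum_add_distrib, ← Finset.sum_add_distrib]
    refine Finset.sum_congr rfl ?_
    intro j _
    unfold bterm
    ring
  omega

/-- crossing at `j` from the left end: a cycle and a path with `n + 1 - j` dominoes. -/
theorem pair_of_left {n : ℕ} {P : ℤ → V}
    (hadj : ∀ k : ℤ, 0 ≤ k → k < n → H.Adj (σ (P k)) (P (k + 1)))
    (hU : blk σ P 0 (n + 1) = (Finset.univ : Finset V).val) {j r : ℕ} (h1 : 1 ≤ j)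
    (h2 : j + r = n + 1) (h0 : 1 ≤ r) (h : H.Adj (P 0) (σ (P ((j : ℤ) - 1)))) : Pair H σ r := by
  have s1 : Seg H σ (P 0) (σ (P ((j : ℤ) - 1))) (blk σ P 0 ((j : ℤ) - 1 + 1)) :=
    Seg.of_fun (by omega) (fun k hk1 hk2 => hadj k hk1 (by omega))
  have s2 : Seg H σ (P j) (σ (P n)) (blk σ P j (n + 1)) :=
    Seg.of_fun (by omega) (fun k hk1 hk2 => hadj k (by omega) (by omega))
  refine ⟨_, _, _, _, _, _, s1, h.symm, s2, ?_, ?_⟩
  · rw [show (j : ℤ) - 1 + 1 = j by ring, blk_add (by omega) (by omega), hU]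
  · rw [cardBlk]; omega

/-- crossing at `j` from the right end: a cycle and a path with `j` dominoes. -/
theorem pair_of_right {n : ℕ} {P : ℤ → V}
    (hadj : ∀ k : ℤ, 0 ≤ k → k < n → H.Adj (σ (P k)) (P (k + 1)))
    (hU : blk σ P 0 (n + 1) = (Finset.univ : Finset V).val) {j : ℕ} (h1 : 1 ≤ j)
    (h2 : j ≤ n) (h : H.Adj (σ (P n)) (P j)) : Pair H σ j := by
  have s1 : Seg H σ (P 0) (σ (P ((j : ℤ) - 1))) (blk σ P 0 ((j : ℤ) - 1 + 1)) :=
    Seg.of_fun (by omega) (fun k hk1 hk2 => hadj k hk1 (by omega))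
  have s2 : Seg H σ (P j) (σ (P n)) (blk σ P j (n + 1)) :=
    Seg.of_fun (by omega) (fun k hk1 hk2 => hadj k (by omega) (by omega))
  refine ⟨_, _, _, _, _, _, s2, h, s1, ?_, ?_⟩
  · rw [show (j : ℤ) - 1 + 1 = j by ring, add_comm, blk_add (by omega) (by omega), hU]
  · rw [cardBlk]; omega

/-- From a Hamilton alternating path with nonadjacent ends: an alternating cycle and path,
the path being short. -/
theorem exists_pair (D : Dom H σ) {m : ℕ} (hm : 2 ≤ m) (hcard : Fintype.card V = 2 * m)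
    (hdeg : ∀ v, m ≤ deg H v + 1) (hno : ¬ Ham H σ) {x y : V}
    (hp : Seg H σ x y (Finset.univ : Finset V).val) (hna : ¬ H.Adj x y) :
    ∃ r, 1 ≤ r ∧ 2 * r ≤ m ∧ Pair H σ r := by
  obtain ⟨n, P, h0, hn, hadj, hU⟩ := hp.exists_fun
  have hnm : n + 1 = m := by
    have := congrArg Multiset.card hU
    rw [cardBlk, Finset.card_val, Finset.card_univ, hcard] at this
    omega
  subst h0 hn
  by_contra hcon
  push Not at hcon
  have hc := path_count D hdeg hno hnm hadj hU.symm hna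
  have hb : ∀ j ∈ Finset.Ico (1 : ℤ) (n + 1),
      bterm H σ P (P 0) (σ (P n)) j ≤ if j = 1 then 0 else 1 := by
    intro j hj
    rw [Finset.mem_Ico] at hj
    obtain ⟨k, rfl⟩ : ∃ k : ℕ, j = k := ⟨j.toNat, by omega⟩
    have hR : 2 * k ≤ m → ad H (σ (P n)) (P k) = 0 := by
      intro hk
      rw [adEqZero]
      intro h
      exact hcon k (by omega) hk (pair_of_right hadj hU.symm (by omega) (by omega) h)
    have hL : 2 * (n + 1 - k) ≤ m → ad H (P 0) (σ (P ((k : ℤ) - 1))) = 0 := by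
      intro hk
      rw [adEqZero]
      intro h
      exact hcon (n + 1 - k) (by omega) hk
        (pair_of_left hadj hU.symm (by omega) (by omega) (by omega) h)
    have l1 := ad_le (H := H) (P 0) (σ (P ((k : ℤ) - 1)))
    have l2 := ad_le (H := H) (σ (P n)) (P k)
    unfold bterm
    split
    · rename_i hk1
      have hk : k = 1 := by omega
      subst hk
      have := hR (by omega)
      rw [this]
      have : ad H (P 0) (σ (P ((1 : ℕ) - 1 : ℤ))) = 0 := by
        simp [ad_sigma D]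
      rw [this]
    · by_cases hk : 2 * k ≤ m
      · rw [hR hk]; omega
      · rw [hL (by omega)]; omega
  have h1 := Finset.sum_le_sum hb
  have h2 : ∑ j ∈ Finset.Ico (1 : ℤ) (n + 1), (if j = 1 then 0 else 1) + 1 ≤ n := by
    have e : Finset.Ico (1 : ℤ) (n + 1) = insert 1 (Finset.Ico (2 : ℤ) (n + 1)) := by
      ext x; simp only [Finset.mem_Ico, Finset.mem_insert]; omega
    rw [e, Finset.sum_insert (by simp)]
    rw [if_pos rfl]
    have : ∑ j ∈ Finset.Ico (2 : ℤ) (n + 1), (if j = 1 then 0 else 1)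
        = ∑ j ∈ Finset.Ico (2 : ℤ) (n + 1), 1 := by
      refine Finset.sum_congr rfl ?_
      intro j hj
      rw [Finset.mem_Ico] at hj
      rw [if_neg (by omega)]
    rw [this]
    simp
    omega
  omega

end Pool.Agent.Lib_MP_c83083_co
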