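import Pool.Agent.Lib_MP_c83083_co.Step1c
import Pool.Agent.Lib_MP_c83083_co.Exc

/-! Step 1, conclusion. -/

namespace Pool.Agent.Lib_MP_c83083_co

open Finset

set_option linter.unusedSectionVars false
set_option linter.unusedVariables false

variable {V : Type*} [Fintype V] [DecidableEq V] {H : SimpleGraph V} {σ : V → V}
variable {m r c : ℕ} {C : ℤ → V} {x y : V} {T : Finset V}

/-- no edges between `T` and the block `1..r`. -/
theorem Opt.noedge (h : Opt H σ r c C x y T) (X : Ctx H σ m r) (hrc : r + 1 ≤ c)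
    (hx : H.Adj x (σ (C 0))) (hy : H.Adj y (C (r + 1)))
    (hxy : y ≠ x) (hxy' : y ≠ σ x)
    {T' : Finset V} (hT' : T'.val = blk σ C 1 (r + 1)) (hC : Cpl H σ T') :
    ∀ u ∈ T, ∀ w ∈ T', ¬ H.Adj u w := by
  intro u hu w hw hadj
  have hr := X.hr
  have hcpl := h.cpl X
  obtain ⟨hxT, hyT, hcl⟩ := h.mem_seg X
  have hC0 : C c = C 0 := by have := h.cyc.per 0; rwa [zero_add] at this
  -- the segment W
  have sW := h.cyc.arc (i := r + 1) (j := c + 1) (by omega)
  rw [show (c : ℤ) + 1 - 1 = c by ring, hC0] at sW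
  have hfull : blk σ C 1 (r + 1) + blk σ C (r + 1) (c + 1) = blk σ C 0 c := by
    rw [blk_add (by omega) (by omega), ← h.cyc.blk_full 1, show (c : ℤ) + 1 = 1 + c by ring]
  have hU : blk σ C (r + 1) (c + 1) + T.val + T'.val = (Finset.univ : Finset V).val := by
    rw [hT', ← h.part, ← hfull]; abel
  have hU' : blk σ C (r + 1) (c + 1) + T'.val + T.val = (Finset.univ : Finset V).val := by
    rw [← hU]; abel
  have hnd : (blk σ C 1 (r + 1)).Nodup := by rw [← hT']; exact T'.nodup
  have m1 : C 1 ∈ T' := by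
    show C 1 ∈ T'.val
    rw [hT']; exact mem_blk.2 ⟨1, le_refl _, by omega, Or.inl rfl⟩
  have m2 : σ (C r) ∈ T' := by
    show σ (C r) ∈ T'.val
    rw [hT']; exact mem_blk.2 ⟨r, by omega, by omega, Or.inr rfl⟩
  have e1 : H.Adj (σ (C 0)) (C 1) := by
    have := h.cyc.adj 0
    simpa using this
  have e2 : H.Adj (σ (C r)) (C (r + 1)) := h.cyc.adj r
  have hne := blk_nodup_ne hnd (k := 1) (l := r) (le_refl _) (by omega) (by omega)
  -- first case
  have caseA : u ≠ x → u ≠ σ x → w ≠ σ (C r) → w ≠ C r → False := by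
    intro q1 q2 q3 q4
    have q3' : σ (C r) ≠ w := fun e => q3 e.symm
    have q4' : σ (C r) ≠ σ w := by
      intro e; apply q4
      have := congrArg σ e
      rw [X.D.inv, X.D.inv] at this
      exact this.symm
    have s := ((sW.join hx.symm (hcpl.seg2 X.D hxT hu q1 q2)).join hadj
      (hC.seg2 X.D hw m2 q3' q4'))
    exact X.hno ⟨_, _, s.congr rfl rfl hU, e2⟩
  have caseB : u ≠ y → u ≠ σ y → w ≠ C 1 → w ≠ σ (C 1) → False := by
    intro q1 q2 q3 q4
    have q1' : y ≠ u := fun e => q1 e.symm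
    have q2' : y ≠ σ u := by
      intro e; apply q2; rw [e, X.D.inv]
    have s := ((sW.join e1 (hC.seg2 X.D m1 hw q3 q4)).join hadj.symm
      (hcpl.seg2 X.D hu hyT q1' q2'))
    exact X.hno ⟨_, _, s.congr rfl rfl hU', hy⟩
  by_cases hux : u = x ∨ u = σ x
  · have huy : u ≠ y ∧ u ≠ σ y := by
      rcases hux with rfl | rfl
      · exact np_symm X.D hxy hxy'
      · refine ⟨hxy'.symm, ?_⟩
        intro e; apply hxy
        have := congrArg σ e
        rw [X.D.inv, X.D.inv] at this
        exact this.symm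
    by_cases hw1 : w = C 1
    · subst hw1
      exact h.o3 X hxT hu 0 hx (by simpa using hadj)
    · by_cases hw2 : w = σ (C 1)
      · subst hw2
        have hyu := np_symm X.D (u := y) (v := u) huy.1 huy.2
        refine h.ins' X hu hyT hyu.1 hyu.2 1 r (by omega) (le_refl _) hadj ?_
        rwa [show (1 : ℤ) + r = r + 1 by ring]
      · exact caseB huy.1 huy.2 hw1 hw2
  · push Not at hux
    by_cases huy : u = y ∨ u = σ y
    · by_cases hw1 : w = σ (C r)
      · subst hw1
        exact h.o3 X hu hyT r hadj hy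
      · by_cases hw2 : w = C r
        · subst hw2
          refine h.ins' X hxT hu hux.1 hux.2 0 r (by omega) (le_refl _) hx ?_
          simpa using hadj
        · exact caseA hux.1 hux.2 hw1 hw2
    · push Not at huy
      by_cases hw1 : w = σ (C r) ∨ w = C r
      · refine caseB huy.1 huy.2 ?_ ?_
        · rcases hw1 with rfl | rfl
          · exact hne.2.1.symm
          · exact hne.1.symm
        · rcases hw1 with rfl | rfl
          · exact hne.2.2.2.symm
          · exact hne.2.2.1.symm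
      · push Not at hw1
        exact caseA hux.1 hux.2 hw1.1 hw1.2

theorem wlemma {u : V} {W : ℤ → V} {a b : ℤ} (hab : a ≤ b)
    (hd : (dg H u (blk σ W a (b + 1)) : ℤ) = b - a + 2)
    (ho : ∀ k, a + 1 ≤ k → k ≤ b → H.Adj u (σ (W (k - 1))) → ¬ H.Adj u (W k)) :
    H.Adj u (W a) ∧ H.Adj u (σ (W b)) ∧
      ∀ k, a + 1 ≤ k → k ≤ b → H.Adj u (σ (W (k - 1))) ∨ H.Adj u (W k) := by
  rw [blk_edges _ _ hab] at hd
  have hle : ∀ k ∈ Finset.Ico (a + 1) (b + 1), ad H u (σ (W (k - 1))) + ad H u (W k) ≤ 1 := by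
    intro k hk
    rw [Finset.mem_Ico] at hk
    have l1 := ad_le (H := H) u (σ (W (k - 1)))
    have l2 := ad_le (H := H) u (W k)
    by_contra hcon
    exact ho k hk.1 (by omega) (adEqOne.1 (by omega)) (adEqOne.1 (by omega))
  have hs := Finset.sum_le_sum hle
  rw [Finset.sum_const, Int.card_Ico, smul_eq_mul, mul_one] at hs
  have l1 := ad_le (H := H) u (W a)
  have l2 := ad_le (H := H) u (σ (W b))
  refine ⟨adEqOne.1 (by omega), adEqOne.1 (by omega), ?_⟩
  intro k hk1 hk2
  have hkm : k ∈ Finset.Ico (a + 1) (b + 1) := by rw [Finset.mem_Ico]; omega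
  have heq : ∑ k ∈ Finset.Ico (a + 1) (b + 1), (ad H u (σ (W (k - 1))) + ad H u (W k))
      = ∑ k ∈ Finset.Ico (a + 1) (b + 1), 1 := by
    rw [Finset.sum_const, Int.card_Ico, smul_eq_mul, mul_one]
    omega
  have := (Finset.sum_eq_sum_iff_of_le hle).1 heq k hkm
  by_contra hcon
  push Not at hcon
  rw [ad_zero hcon.1, ad_zero hcon.2] at this
  omega

theorem step1_aux (X : Ctx H σ m r) (h : Opt H σ r c C x y T) (hrc : r + 1 ≤ c)
    (hx : H.Adj x (σ (C 0))) (hy : H.Adj y (C (r + 1)))
    (hxy : y ≠ x) (hxy' : y ≠ σ x) : Exc1 H σ m := by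
  have hr := X.hr
  have hcr := h.cr X
  obtain ⟨C', T', hT', hO, hwin, hblk⟩ := h.gapOpt X hrc hx hy
  have hcpl := h.cpl X
  have hcpl' := hO.cpl X
  have hne := h.noedge X hrc hx hy hxy hxy' hT' hcpl'
  have hfull : blk σ C 1 (r + 1) + blk σ C (r + 1) (c + 1) = blk σ C 0 c := by
    rw [blk_add (by omega) (by omega), ← h.cyc.blk_full 1, show (c : ℤ) + 1 = 1 + c by ring]
  have hU : blk σ C (r + 1) (c + 1) + T.val + T'.val = (Finset.univ : Finset V).val := by
    rw [hT', ← h.part, ← hfull]; abel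
  -- degree into W
  have dW : ∀ u ∈ T, (dg H u (blk σ C (r + 1) (c + 1)) : ℤ) = c - (r + 1) + 2 := by
    intro u hu
    have h1 := h.degC X hu
    rw [← hfull, dgAdd, dg_eq_zero (A := blk σ C 1 (r + 1)), zero_add] at h1
    · omega
    · intro w hw
      rw [← hT'] at hw
      exact hne u hu w hw
  have dW' : ∀ u ∈ T', (dg H u (blk σ C (r + 1) (c + 1)) : ℤ) = c - (r + 1) + 2 := by
    intro u hu
    have h1 := hO.degC X hu
    rw [hblk, dgAdd, dg_eq_zero (A := T.val), add_zero] at h1
    · omega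
    · intro w hw hadj
      exact hne w hw u hu hadj.symm
  have o3T : ∀ u ∈ T, ∀ v ∈ T, ∀ k : ℤ, (r : ℤ) + 1 + 1 ≤ k → k ≤ c →
      H.Adj u (σ (C (k - 1))) → ¬ H.Adj v (C k) := by
    intro u hu v hv k hk1 hk2 h1 h2
    refine h.o3 X hu hv (k - 1) h1 ?_
    rwa [show k - 1 + 1 = k by ring]
  have o3T' : ∀ u ∈ T', ∀ v ∈ T', ∀ k : ℤ, (r : ℤ) + 1 + 1 ≤ k → k ≤ c →
      H.Adj u (σ (C (k - 1))) → ¬ H.Adj v (C k) := by
    intro u hu v hv k hk1 hk2 h1 h2
    refine hO.o3 X hu hv (k - 1) ?_ ?_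
    · rwa [hwin (k - 1) (by omega) (by omega)]
    · rwa [show k - 1 + 1 = k by ring, hwin k (by omega) (by omega)]
  have wT := fun u (hu : u ∈ T) => wlemma (a := r + 1) (b := c) (by omega) (dW u hu)
    (fun k h1 h2 => o3T u hu u hu k h1 h2)
  have wT' := fun u (hu : u ∈ T') => wlemma (a := r + 1) (b := c) (by omega) (dW' u hu)
    (fun k h1 h2 => o3T' u hu u hu k h1 h2)
  have S : Sand H σ r C (r + 1) c T T' :=
    { D := X.D
      hno := X.hno
      hab := by omega
      hr := hr
      adj := fun k _ _ => h.cyc.adj k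
      part := hU
      cpl := hcpl
      cpl' := hcpl'
      four := h.four X
      four' := hO.four X
      hdeg := fun v => by have := X.hdeg v; omega
      endL := fun u hu => (wT u hu).1
      endL' := fun u hu => (wT' u hu).1
      endR := fun u hu => (wT u hu).2.1
      endR' := fun u hu => (wT' u hu).2.1
      one := fun u hu => (wT u hu).2.2
      one' := fun u hu => (wT' u hu).2.2
      o3 := o3T
      o3' := o3T'
      ts := by
        intro u hu v hv h1 h2 k hk1 hk2 g1 g2
        refine h.ins' X hu hv h1 h2 (k - 1) 2 (by omega) hr g1 ?_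
        rwa [show k - 1 + ((2 : ℕ) : ℤ) = k + 1 by push_cast; ring] }
  have heq := S.eq
  have hcard := h.card
  refine ⟨T, C (r + 1), by omega, by omega, hcpl.cl, ?_, ?_, ?_⟩
  · have := disj_of_part h.part (h.cyc.mem_blk_full (r + 1))
    exact this
  · have := disj_of_part h.part (h.cyc.mem_blk_full' (r + 1))
    exact this
  · intro u hu w hw h1 h2
    have hw2 : w ∈ T' := by
      rcases mem_of_part hU w with h3 | h3
      · rcases Multiset.mem_add.1 h3 with h4 | h4
        · obtain ⟨k, hk1, hk2, hk3⟩ := mem_blk.1 h4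
          have : k = r + 1 := by omega
          subst this
          rcases hk3 with rfl | rfl
          · exact absurd rfl h1
          · exact absurd rfl h2
        · exact absurd h4 hw
      · exact h3
    exact hne u hu w hw2

theorem step1 (X : Ctx H σ m r) (hP : Pair H σ r) : Exc1 H σ m := by
  have hr := X.hr
  obtain ⟨c, C, x, y, S, hC, hseg, hpart, hcard⟩ := hP.toCyc
  have hnd : S.Nodup := nodup_of_part' hpart
  have h : Opt H σ r c C x y ⟨S, hnd⟩ := ⟨hC, hseg, hpart, hcard⟩
  obtain ⟨hrc, i, h1, h2⟩ := h.gap X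
  have h' := h.shift i
  -- x, y are not partners
  obtain ⟨n', Q, hQ0, hQn, hQadj, hQU⟩ := h.seg.exists_fun
  have hn' : n' + 1 = r := by
    have := congrArg Multiset.card hQU
    rw [cardBlk, Finset.card_val, h.card] at this
    omega
  have hnd : (blk σ Q 0 (n' + 1)).Nodup := by rw [← hQU]; exact Finset.nodup _
  have hne := blk_nodup_ne hnd (k := 0) (l := n') (le_refl _) (by omega) (by omega)
  have hyx : y ≠ x := by
    rw [← hQ0, ← hQn]; exact fun e => hne.2.1 e.symm
  have hyx' : y ≠ σ x := by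
    rw [← hQ0, ← hQn]; exact fun e => hne.2.2.2 e.symm
  refine step1_aux X h' hrc ?_ ?_ hyx hyx'
  · show H.Adj x (σ (C (0 + i)))
    rwa [zero_add]
  · show H.Adj y (C (r + 1 + i))
    rwa [show (r : ℤ) + 1 + i = i + r + 1 by ring]

end Pool.Agent.Lib_MP_c83083_co
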