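import Pool.Agent.Lib_MP_c83083_co.Basic

/-! A sumset-type inequality for periodic sets of integers. -/

namespace Pool.Agent.Lib_MP_c83083_co

open Finset

open Classical in
/-- indicator -/
noncomputable def ind (p : Prop) : ℕ := if p then 1 else 0

theorem ind_pos {p : Prop} (h : p) : ind p = 1 := by simp [ind, h]
theorem ind_neg {p : Prop} (h : ¬ p) : ind p = 0 := by simp [ind, h]
theorem ind_le (p : Prop) : ind p ≤ 1 := by unfold ind; split <;> omega
theorem ind_eq_one {p : Prop} : ind p = 1 ↔ p := by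
  unfold ind; split <;> simp_all

/-- number of elements of the periodic set `A` per period -/
noncomputable def cnt (c : ℕ) (A : ℤ → Prop) : ℕ := ∑ k ∈ Finset.Ico (0 : ℤ) c, ind (A k)

theorem cnt_window {c : ℕ} {A : ℤ → Prop} (hA : ∀ k, A (k + c) ↔ A k) (a : ℤ) :
    cnt c A = ∑ k ∈ Finset.Ico a (a + c), ind (A k) :=
  (sum_period (f := fun k => ind (A k)) (fun i => by simp only [hA i]) a).symm

theorem cnt_window' {c : ℕ} {A : ℤ → Prop} (hA : ∀ k, A (k + c) ↔ A k) (a : ℤ) :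
    cnt c A = ∑ k ∈ Finset.Ico a (a + c), ind (A (k - 1)) := by
  rw [cnt_window hA (a - 1), show a - 1 + (c : ℤ) = a + c + -1 by ring,
    show a - 1 = a + -1 by ring, ← sum_Ico_shift (fun k => ind (A k)) (-1) a (a + c)]
  refine Finset.sum_congr rfl ?_
  intro k _
  rw [show k - 1 = k + -1 by ring]

theorem per_mul {c : ℕ} {A : ℤ → Prop} (hA : ∀ k, A (k + c) ↔ A k) (k n : ℤ) :
    A (k + n * c) ↔ A k := by
  induction n using Int.induction_on with
  | zero => simp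
  | succ n ih =>
    rw [← ih, ← hA (k + n * c)]; ring_nf
  | pred n ih =>
    rw [← ih, ← hA (k + (-n - 1) * c)]; ring_nf

theorem exists_in_window {c : ℕ} (hc : 0 < c) {A : ℤ → Prop} (hA : ∀ k, A (k + c) ↔ A k)
    (hne : ∃ k, A k) (a : ℤ) : ∃ k, a ≤ k ∧ k < a + c ∧ A k := by
  obtain ⟨k, hk⟩ := hne
  have hc' : (0 : ℤ) < c := by exact_mod_cast hc
  have h1 := Int.emod_nonneg (k - a) (ne_of_gt hc')
  have h2 := Int.emod_lt_of_pos (k - a) hc'
  have h3 := Int.emod_add_mul_ediv (k - a) c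
  refine ⟨a + (k - a) % c, by omega, by omega, ?_⟩
  rw [← per_mul hA _ ((k - a) / c)]
  rwa [show a + (k - a) % (c : ℤ) + (k - a) / (c : ℤ) * c = k by linarith]

theorem lemmaZ {c : ℕ} (hc : 0 < c) {A B : ℤ → Prop} (hA : ∀ k, A (k + c) ↔ A k)
    (hB : ∀ k, B (k + c) ↔ B k) (neA : ∃ k, A k) (neB : ∃ k, B k)
    (hdis : ∀ k, A k → ¬ B (k + 1)) :
    ∃ a b, A a ∧ B b ∧ a < b ∧ b ≤ a + c ∧ (cnt c A + cnt c B : ℤ) + (b - a) ≤ c + 2 := by
  classical
  have hex : ∃ d : ℕ, 1 ≤ d ∧ d ≤ c ∧ ∃ a, A a ∧ B (a + d) := by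
    obtain ⟨a, ha⟩ := neA
    obtain ⟨b, hb1, hb2, hb3⟩ := exists_in_window hc hB neB (a + 1)
    refine ⟨(b - a).toNat, by omega, by omega, a, ha, ?_⟩
    rwa [show a + ((b - a).toNat : ℤ) = b by omega]
  set d := Nat.find hex with hd
  obtain ⟨h1, h2, a, ha, hb⟩ := Nat.find_spec hex
  rw [← hd] at h1 h2 hb
  have hmin : ∀ d' : ℕ, 1 ≤ d' → d' < d → ∀ x, A x → ¬ B (x + d') := by
    intro d' hd1 hd2 x hx hx'
    exact Nat.find_min hex hd2 ⟨hd1, by omega, x, hx, hx'⟩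
  refine ⟨a, a + d, ha, hb, by omega, by omega, ?_⟩
  have hd2 : 2 ≤ d := by
    by_contra hlt
    have : d = 1 := by omega
    rw [this] at hb
    exact hdis a ha (by simpa using hb)
  rw [cnt_window' hA (a + 1), cnt_window hB (a + 1)]
  rw [← Nat.cast_add, ← Finset.sum_add_distrib]
  have hsub : Finset.Ico (a + 2) (a + d) ⊆ Finset.Ico (a + 1) (a + 1 + c) := by
    intro x hx
    rw [Finset.mem_Ico] at hx ⊢
    omega
  have hz : ∑ k ∈ Finset.Ico (a + 2) (a + d), (ind (A (k - 1)) + ind (B k)) = 0 := by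
    apply Finset.sum_eq_zero
    intro k hk
    rw [Finset.mem_Ico] at hk
    have e1 : ¬ A (k - 1) := by
      intro hk1
      refine hmin (a + d - (k - 1)).toNat (by omega) (by omega) (k - 1) hk1 ?_
      rwa [show k - 1 + ((a + d - (k - 1)).toNat : ℤ) = a + d by omega]
    have e2 : ¬ B k := by
      intro hk1
      refine hmin (k - a).toNat (by omega) (by omega) a ha ?_
      rwa [show a + ((k - a).toNat : ℤ) = k by omega]
    rw [ind_neg e1, ind_neg e2]; rfl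
  have hs := Finset.sum_sdiff (f := fun k => ind (A (k - 1)) + ind (B k)) hsub
  rw [hz, add_zero] at hs
  have hle : ∑ k ∈ Finset.Ico (a + 1) (a + 1 + c) \ Finset.Ico (a + 2) (a + d),
      (ind (A (k - 1)) + ind (B k)) ≤
      ∑ k ∈ Finset.Ico (a + 1) (a + 1 + c) \ Finset.Ico (a + 2) (a + d), 1 := by
    apply Finset.sum_le_sum
    intro k _
    have l1 := ind_le (A (k - 1))
    have l2 := ind_le (B k)
    by_contra hcon
    have g1 : A (k - 1) := ind_eq_one.1 (by omega)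
    have g2 : B k := ind_eq_one.1 (by omega)
    exact hdis (k - 1) g1 (by simpa using g2)
  rw [hs, Finset.sum_const, smul_eq_mul, mul_one, Finset.card_sdiff_of_subset hsub,
    Int.card_Ico, Int.card_Ico] at hle
  omega

theorem ineqZ {c : ℕ} (hc : 0 < c) {r : ℕ} (hr : 1 ≤ r) {A B : ℤ → Prop}
    (hA : ∀ k, A (k + c) ↔ A k)
    (hB : ∀ k, B (k + c) ↔ B k) (neA : ∃ k, A k) (neB : ∃ k, B k)
    (hdis : ∀ k, ∀ j : ℕ, 1 ≤ j → j ≤ r → A k → ¬ B (k + j)) :
    cnt c A + cnt c B + r ≤ c + 1 := by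
  obtain ⟨a, b, ha, hb, hab, _, h⟩ := lemmaZ hc hA hB neA neB
    (fun k hk => by simpa using hdis k 1 (le_refl _) hr hk)
  have : (r : ℤ) + 1 ≤ b - a := by
    by_contra hlt
    refine hdis a (b - a).toNat (by omega) (by omega) ha ?_
    rwa [show a + ((b - a).toNat : ℤ) = b by omega]
  omega

theorem gapZ {c : ℕ} (hc : 0 < c) {r : ℕ} (hr : 1 ≤ r) {A B : ℤ → Prop}
    (hA : ∀ k, A (k + c) ↔ A k)
    (hB : ∀ k, B (k + c) ↔ B k) (neA : ∃ k, A k) (neB : ∃ k, B k)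
    (hdis : ∀ k, ∀ j : ℕ, 1 ≤ j → j ≤ r → A k → ¬ B (k + j))
    (heq : cnt c A + cnt c B + r = c + 1) :
    r + 1 ≤ c ∧ ∃ a, A a ∧ B (a + r + 1) := by
  obtain ⟨a, b, ha, hb, hab, h', h⟩ := lemmaZ hc hA hB neA neB
    (fun k hk => by simpa using hdis k 1 (le_refl _) hr hk)
  have : (r : ℤ) + 1 ≤ b - a := by
    by_contra hlt
    refine hdis a (b - a).toNat (by omega) (by omega) ha ?_
    rwa [show a + ((b - a).toNat : ℤ) = b by omega]
  refine ⟨by omega, a, ha, ?_⟩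
  rwa [show a + (r : ℤ) + 1 = b by omega]

theorem cnt_insert {c : ℕ} (hc : 0 < c) {A : ℤ → Prop} (hA : ∀ k, A (k + c) ↔ A k) {l : ℤ}
    (hl : ¬ A l) :
    cnt c (fun k => A k ∨ (k - l) % (c : ℤ) = 0) = cnt c A + 1 := by
  have hc' : (0 : ℤ) < c := by exact_mod_cast hc
  have hA' : ∀ k, (A (k + c) ∨ (k + c - l) % (c : ℤ) = 0) ↔ (A k ∨ (k - l) % (c : ℤ) = 0) := by
    intro k
    rw [hA, show k + (c : ℤ) - l = k - l + c by ring, Int.add_emod_right]
  rw [cnt_window hA' l, cnt_window hA l]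
  have e : Finset.Ico l (l + c) = insert l (Finset.Ico (l + 1) (l + c)) := by
    ext x; simp only [Finset.mem_Ico, Finset.mem_insert]; omega
  rw [e, Finset.sum_insert (by simp), Finset.sum_insert (by simp)]
  rw [ind_pos (Or.inr (by simp)), ind_neg hl]
  have : ∑ k ∈ Finset.Ico (l + 1) (l + c), ind (A k ∨ (k - l) % (c : ℤ) = 0)
      = ∑ k ∈ Finset.Ico (l + 1) (l + c), ind (A k) := by
    refine Finset.sum_congr rfl ?_
    intro k hk
    rw [Finset.mem_Ico] at hk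
    have : ¬ (k - l) % (c : ℤ) = 0 := by
      rw [Int.emod_eq_of_lt (by omega) (by omega)]; omega
    simp [this]
  rw [this]; ring

theorem maxB {c : ℕ} (hc : 0 < c) {r : ℕ} (hr : 1 ≤ r) {A B : ℤ → Prop}
    (hA : ∀ k, A (k + c) ↔ A k)
    (hB : ∀ k, B (k + c) ↔ B k) (neA : ∃ k, A k)
    (hdis : ∀ k, ∀ j : ℕ, 1 ≤ j → j ≤ r → A k → ¬ B (k + j))
    (heq : cnt c A + cnt c B + r = c + 1) {l : ℤ}
    (hl : ∀ j : ℕ, 1 ≤ j → j ≤ r → ¬ A (l - j)) : B l := by
  by_contra hBl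
  have h1 := cnt_insert hc hB hBl
  have h2 := ineqZ hc hr (A := A) (B := fun k => B k ∨ (k - l) % (c : ℤ) = 0) hA
    (by
      intro k
      show (B (k + c) ∨ (k + c - l) % (c : ℤ) = 0) ↔ (B k ∨ (k - l) % (c : ℤ) = 0)
      rw [hB, show k + (c : ℤ) - l = k - l + c by ring, Int.add_emod_right])
    neA ⟨l, Or.inr (by simp)⟩
    (by
      intro k j hj1 hj2 hk hor
      rcases hor with h | h
      · exact hdis k j hj1 hj2 hk h
      · obtain ⟨n, hn⟩ := Int.dvd_of_emod_eq_zero h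
        apply hl j hj1 hj2
        rw [show l - (j : ℤ) = k + (-n) * c by linarith, per_mul hA]
        exact hk)
  omega

theorem maxA {c : ℕ} (hc : 0 < c) {r : ℕ} (hr : 1 ≤ r) {A B : ℤ → Prop}
    (hA : ∀ k, A (k + c) ↔ A k)
    (hB : ∀ k, B (k + c) ↔ B k) (neB : ∃ k, B k)
    (hdis : ∀ k, ∀ j : ℕ, 1 ≤ j → j ≤ r → A k → ¬ B (k + j))
    (heq : cnt c A + cnt c B + r = c + 1) {l : ℤ}
    (hl : ∀ j : ℕ, 1 ≤ j → j ≤ r → ¬ B (l + j)) : A l := by
  by_contra hAl
  have h1 := cnt_insert hc hA hAl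
  have h2 := ineqZ hc hr (A := fun k => A k ∨ (k - l) % (c : ℤ) = 0) (B := B)
    (by
      intro k
      show (A (k + c) ∨ (k + c - l) % (c : ℤ) = 0) ↔ (A k ∨ (k - l) % (c : ℤ) = 0)
      rw [hA, show k + (c : ℤ) - l = k - l + c by ring, Int.add_emod_right])
    hB ⟨l, Or.inr (by simp)⟩ neB
    (by
      intro k j hj1 hj2 hor hk
      rcases hor with h | h
      · exact hdis k j hj1 hj2 h hk
      · obtain ⟨n, hn⟩ := Int.dvd_of_emod_eq_zero h
        apply hl j hj1 hj2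
        rw [show l + (j : ℤ) = k + j + (-n) * c by linarith, per_mul hB]
        exact hk)
  omega

end Pool.Agent.Lib_MP_c83083_co
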