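import Pool.Agent.Lib_MP_c83083_co.PathCount
import Pool.Agent.Lib_MP_c83083_co.Complete
import Pool.Agent.Lib_MP_c83083_co.SumZ

/-! Step 1, part a: minimal leftover path has `r ≥ 2` dominoes. Tightness. -/

namespace Pool.Agent.Lib_MP_c83083_co

open Finset

set_option linter.unusedSectionVars false
set_option linter.unusedVariables false

variable {V : Type*} [Fintype V] {H : SimpleGraph V} {σ : V → V}

structure Ctx (H : SimpleGraph V) (σ : V → V) (m r : ℕ) : Prop where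
  D : Dom H σ
  hcard : Fintype.card V = 2 * m
  hdeg : ∀ v, m ≤ deg H v + 1
  hno : ¬ Ham H σ
  hr : 2 ≤ r
  hrm : 2 * r ≤ m
  hmin : ∀ r', 1 ≤ r' → r' < r → ¬ Pair H σ r'

structure Opt (H : SimpleGraph V) (σ : V → V) (r c : ℕ) (C : ℤ → V) (x y : V) (T : Finset V) :
    Prop where
  cyc : Cyc H σ c C
  seg : Seg H σ x y T.val
  part : blk σ C 0 c + T.val = (Finset.univ : Finset V).val
  card : T.card = 2 * r

variable {m r c : ℕ} {C : ℤ → V} {x y : V} {T : Finset V}

theorem Opt.cr (h : Opt H σ r c C x y T) (X : Ctx H σ m r) : c + r = m :=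
  card_part X.hcard h.part (by rw [Finset.card_val]; exact h.card)

theorem Opt.symm (h : Opt H σ r c C x y T) (X : Ctx H σ m r) : Opt H σ r c C y x T :=
  ⟨h.cyc, h.seg.rev X.D, h.part, h.card⟩

theorem blk_reverse (D : Dom H σ) {c : ℕ} {C : ℤ → V} (h : Cyc H σ c C) :
    blk σ (fun n => σ (C (-n))) 0 c = blk σ C 0 c := by
  rw [← h.blk_full (1 - c)]
  unfold blk
  refine Finset.sum_bij (fun k _ => -k) ?_ ?_ ?_ ?_
  · intro k hk; rw [Finset.mem_Ico] at hk ⊢; omega
  · intro k _ l _ h; simpa using h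
  · intro k hk; rw [Finset.mem_Ico] at hk
    exact ⟨-k, by rw [Finset.mem_Ico]; omega, by simp⟩
  · intro k _
    simp only [D.inv]
    rw [Multiset.pair_comm]

theorem Opt.rev (h : Opt H σ r c C x y T) (X : Ctx H σ m r) :
    Opt H σ r c (fun n => σ (C (-n))) x y T :=
  ⟨h.cyc.reverse X.D, h.seg, by rw [blk_reverse X.D h.cyc]; exact h.part, h.card⟩

theorem Opt.ins (h : Opt H σ r c C x y T) (X : Ctx H σ m r) (k : ℤ) (j : ℕ) (h1 : 1 ≤ j)
    (h2 : j ≤ r) (hx : H.Adj x (σ (C k))) : ¬ H.Adj y (C (k + j)) := by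
  intro hy
  have hcr := h.cr X
  have hrm := X.hrm
  have s1 := h.cyc.arc (i := k + j) (j := k + c + 1) (by omega)
  rw [show k + (c : ℤ) + 1 - 1 = k + c by ring, h.cyc.per] at s1
  have s2 := s1.join hx.symm h.seg
  rcases Nat.lt_or_ge 1 j with hj | hj
  · apply X.hmin (j - 1) (by omega) (by omega)
    have s3 := h.cyc.arc (i := k + 1) (j := k + j) (by omega)
    refine ⟨_, _, _, _, _, _, s2, hy, s3, ?_, ?_⟩
    · rw [← h.part, ← h.cyc.blk_full (k + 1), show k + 1 + (c : ℤ) = k + c + 1 by ring,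
        ← blk_add (σ := σ) (C := C) (i := k + 1) (j := k + j) (k := k + c + 1)
          (by omega) (by omega)]
      abel
    · rw [cardBlk]; omega
  · have : j = 1 := by omega
    subst this
    apply X.hno
    refine ⟨_, _, s2.congr rfl rfl ?_, hy⟩
    rw [← h.part, ← h.cyc.blk_full (k + 1)]
    push_cast
    rw [show k + 1 + (c : ℤ) = k + c + 1 by ring]

theorem Opt.claim1 (h : Opt H σ r c C x y T) (X : Ctx H σ m r) (hx : ∃ i, H.Adj x (C i)) :
    ∃ k, H.Adj y (σ (C k)) := by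
  by_contra hcon
  push Not at hcon
  obtain ⟨i, hi⟩ := hx
  have hcr := h.cr X
  have hrm := X.hrm
  have hr := X.hr
  obtain ⟨n', Q, hQ0, hQn, hQadj, hQU⟩ := (h.seg.rev X.D).exists_fun
  have hn' : n' + 1 = r := by
    have := congrArg Multiset.card hQU
    rw [cardBlk, Finset.card_val, h.card] at this
    omega
  -- the path function
  set P : ℤ → V := fun k => if k < r then Q k else C (i + (k - r)) with hP
  have hPQ : ∀ k : ℤ, k < r → P k = Q k := fun k hk => by rw [hP]; simp [hk]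
  have hPC : ∀ k : ℤ, r ≤ k → P k = C (i + (k - r)) := fun k hk => by
    rw [hP]; simp [not_lt.2 hk]
  have hm1 : (m - 1) + 1 = m := by omega
  have hadj : ∀ k : ℤ, 0 ≤ k → k < (m - 1 : ℕ) → H.Adj (σ (P k)) (P (k + 1)) := by
    intro k hk0 hk1
    rcases lt_trichotomy (k + 1) (r : ℤ) with hk | hk | hk
    · rw [hPQ k (by omega), hPQ (k + 1) hk]
      exact hQadj k hk0 (by omega)
    · rw [hPQ k (by omega), hPC (k + 1) (by omega), hk,
        show k = (n' : ℤ) by omega, hQn]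
      simpa using hi
    · rw [hPC k (by omega), hPC (k + 1) (by omega)]
      have := h.cyc.adj (i + (k - r))
      rwa [show i + (k - r) + 1 = i + (k + 1 - r) by ring] at this
  have hb1 : blk σ P 0 r = T.val := by
    rw [hQU]
    have : ((n' : ℤ) + 1) = r := by exact_mod_cast hn'
    rw [this]
    exact blk_congr (fun k _ hk => hPQ k hk)
  have hb2 : blk σ P r m = blk σ C i (i + c) := by
    have := blk_shift (σ := σ) (C := C) (i - r) r m
    rw [show (r : ℤ) + (i - r) = i by ring, show (m : ℤ) + (i - r) = i + c by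
      rw [← hcr]; push_cast; ring] at this
    rw [← this]
    refine blk_congr ?_
    intro k hk _
    rw [hPC k hk, show i + (k - r) = k + (i - r) by ring]
  have hU : blk σ P 0 (((m - 1 : ℕ) : ℤ) + 1) = (Finset.univ : Finset V).val := by
    rw [show (((m - 1 : ℕ) : ℤ) + 1) = m by omega,
      ← blk_add (i := 0) (j := r) (k := m) (by omega) (by omega), hb1, hb2, ← h.part,
      h.cyc.blk_full i, add_comm]
  have hP0 : P 0 = y := by rw [hPQ 0 (by omega), hQ0]
  have hPn : P ((m - 1 : ℕ) : ℤ) = C (i + c - 1) := by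
    rw [hPC _ (by omega), show i + (((m - 1 : ℕ) : ℤ) - r) = i + c - 1 by omega]
  have hna : ¬ H.Adj (P 0) (σ (P ((m - 1 : ℕ) : ℤ))) := by
    rw [hP0, hPn]; exact hcon _
  have hcount := path_count X.D X.hdeg X.hno hm1 hadj hU hna
  -- bounds on the terms
  have hb : ∀ j ∈ Finset.Ico (1 : ℤ) (((m - 1 : ℕ) : ℤ) + 1),
      bterm H σ P (P 0) (σ (P ((m - 1 : ℕ) : ℤ))) j + (if j = 1 then 1 else 0)
        + (if j = ((m - 1 : ℕ) : ℤ) then 1 else 0) ≤ 1 + (if j = r then 1 else 0) := by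
    intro j hj
    rw [Finset.mem_Ico] at hj
    unfold bterm
    have l1 := ad_le (H := H) (P 0) (σ (P (j - 1)))
    have l2 := ad_le (H := H) (σ (P ((m - 1 : ℕ) : ℤ))) (P j)
    have hlow : j < r → ad H (σ (P ((m - 1 : ℕ) : ℤ))) (P j) = 0 := by
      intro hjr
      rw [adEqZero]
      intro hadj2
      obtain ⟨j', rfl⟩ : ∃ j' : ℕ, j = j' := ⟨j.toNat, by omega⟩
      apply X.hmin j' (by omega) (by omega)
      rw [hPn, hPQ _ hjr] at hadj2
      have s1 := h.cyc.arc (i := i) (j := i + c) (by omega)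
      have s2 : Seg H σ (Q j') (σ (Q n')) (blk σ Q j' (n' + 1)) :=
        Seg.of_fun (by omega) (fun k hk1 hk2 => hQadj k (by omega) (by omega))
      rw [hQn] at s2
      have s3 := s1.join hadj2 s2
      have s4 : Seg H σ (Q 0) (σ (Q ((j' : ℤ) - 1))) (blk σ Q 0 ((j' : ℤ) - 1 + 1)) :=
        Seg.of_fun (by omega) (fun k hk1 hk2 => hQadj k (by omega) (by omega))
      refine ⟨_, _, _, _, _, _, s3, hi, s4, ?_, ?_⟩
      · rw [← h.part, h.cyc.blk_full i, hQU,
          ← blk_add (σ := σ) (C := Q) (i := 0) (j := j') (k := n' + 1) (by omega) (by omega),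
          show (j' : ℤ) - 1 + 1 = j' by ring]
        abel
      · rw [cardBlk]; omega
    have hhigh : (r : ℤ) < j → ad H (P 0) (σ (P (j - 1))) = 0 := by
      intro hjr
      rw [adEqZero, hP0, hPC _ (by omega)]
      exact hcon _
    have hone : j = 1 → ad H (P 0) (σ (P (j - 1))) = 0 := by
      intro h1
      rw [h1]
      simp [ad_sigma X.D]
    have hlast : j = ((m - 1 : ℕ) : ℤ) → ad H (σ (P ((m - 1 : ℕ) : ℤ))) (P j) = 0 := by
      intro h1
      rw [h1]
      exact ad_sigma' X.D _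
    rcases lt_trichotomy j (r : ℤ) with hk | hk | hk
    · rw [hlow hk, if_neg (show ¬ j = ((m - 1 : ℕ) : ℤ) by omega),
        if_neg (show ¬ j = r by omega)]
      by_cases h1 : j = 1
      · rw [hone h1, if_pos h1]
      · rw [if_neg h1]; omega
    · rw [if_neg (show ¬ j = 1 by omega), if_neg (show ¬ j = ((m - 1 : ℕ) : ℤ) by omega),
        if_pos hk]
      omega
    · rw [hhigh hk, if_neg (show ¬ j = 1 by omega), if_neg (show ¬ j = r by omega)]
      by_cases h1 : j = ((m - 1 : ℕ) : ℤ)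
      · rw [hlast h1, if_pos h1]
      · rw [if_neg h1]; omega
  have hs := Finset.sum_le_sum hb
  rw [Finset.sum_add_distrib, Finset.sum_add_distrib, Finset.sum_add_distrib,
    Finset.sum_ite_eq', Finset.sum_ite_eq', Finset.sum_ite_eq',
    if_pos (by rw [Finset.mem_Ico]; omega), if_pos (by rw [Finset.mem_Ico]; omega),
    if_pos (by rw [Finset.mem_Ico]; omega), Finset.sum_const, Int.card_Ico] at hs
  simp only [smul_eq_mul, mul_one] at hs
  omega

theorem Opt.mem_seg (h : Opt H σ r c C x y T) (X : Ctx H σ m r) :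
    x ∈ T ∧ y ∈ T ∧ (∀ u ∈ T, σ u ∈ T) := by
  refine ⟨h.seg.left_mem, h.seg.right_mem X.D, fun u hu => ?_⟩
  exact h.seg.mem_sigma X.D hu

theorem dg_cnt (h : Cyc H σ c C) (u : V) :
    dg H u (blk σ C 0 c) = cnt c (fun k => H.Adj u (C k)) + cnt c (fun k => H.Adj u (σ (C k))) := by
  rw [dgBlk, Finset.sum_add_distrib]
  rfl

structure Tight (H : SimpleGraph V) (σ : V → V) (r c : ℕ) (C : ℤ → V) (x y : V)
    (T : Finset V) : Prop where
  ne1 : ∃ k, H.Adj x (C k)
  ne2 : ∃ k, H.Adj x (σ (C k))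
  ne3 : ∃ k, H.Adj y (C k)
  ne4 : ∃ k, H.Adj y (σ (C k))
  eq1 : cnt c (fun k => H.Adj x (σ (C k))) + cnt c (fun k => H.Adj y (C k)) + r = c + 1
  eq2 : cnt c (fun k => H.Adj y (σ (C k))) + cnt c (fun k => H.Adj x (C k)) + r = c + 1
  dx : T.card ≤ dg H x T.val + 2
  dy : T.card ≤ dg H y T.val + 2
  cx : dg H x (blk σ C 0 c) + r = c + 1
  cy : dg H y (blk σ C 0 c) + r = c + 1

theorem cnt_pos_iff {c : ℕ} (hc : 0 < c) {A : ℤ → Prop} (hA : ∀ k, A (k + c) ↔ A k) :
    0 < cnt c A ↔ ∃ k, A k := by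
  constructor
  · intro h
    by_contra hcon
    push Not at hcon
    unfold cnt at h
    rw [Finset.sum_eq_zero (fun k _ => ind_neg (hcon k))] at h
    exact lt_irrefl _ h
  · intro h
    obtain ⟨k, h1, h2, h3⟩ := exists_in_window hc hA h 0
    unfold cnt
    refine Finset.sum_pos' (fun _ _ => Nat.zero_le _) ⟨k, ?_, ?_⟩
    · rw [Finset.mem_Ico]; omega
    · rw [ind_pos h3]; exact Nat.one_pos

theorem perAdj (h : Cyc H σ c C) (u : V) (k : ℤ) : H.Adj u (C (k + c)) ↔ H.Adj u (C k) := by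
  rw [h.per]

theorem perAdj' (h : Cyc H σ c C) (u : V) (k : ℤ) :
    H.Adj u (σ (C (k + c))) ↔ H.Adj u (σ (C k)) := by
  rw [h.per]

theorem Opt.tight (h : Opt H σ r c C x y T) (X : Ctx H σ m r) : Tight H σ r c C x y T := by
  classical
  have hcr := h.cr X
  have hrm := X.hrm
  have hr := X.hr
  have hc := h.cyc.pos
  obtain ⟨hxT, hyT, hcl⟩ := h.mem_seg X
  have dx := dg_le_of_mem X.D hxT (hcl x hxT)
  have dy := dg_le_of_mem X.D hyT (hcl y hyT)
  have ex := X.hdeg x
  have ey := X.hdeg y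
  rw [deg_part h.part] at ex ey
  rw [dg_cnt h.cyc] at ex ey
  rw [h.card] at dx dy
  have A1 := cnt_pos_iff hc (A := fun k => H.Adj x (C k)) (perAdj h.cyc x)
  have A2 := cnt_pos_iff hc (A := fun k => H.Adj x (σ (C k))) (perAdj' h.cyc x)
  have A3 := cnt_pos_iff hc (A := fun k => H.Adj y (C k)) (perAdj h.cyc y)
  have A4 := cnt_pos_iff hc (A := fun k => H.Adj y (σ (C k))) (perAdj' h.cyc y)
  -- the four implications
  have i1 : (∃ k, H.Adj x (C k)) → ∃ k, H.Adj y (σ (C k)) := h.claim1 X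
  have i2 : (∃ k, H.Adj y (C k)) → ∃ k, H.Adj x (σ (C k)) := (h.symm X).claim1 X
  have i3 : (∃ k, H.Adj x (σ (C k))) → ∃ k, H.Adj y (C k) := by
    rintro ⟨k, hk⟩
    obtain ⟨l, hl⟩ := (h.rev X).claim1 X ⟨-k, by simpa using hk⟩
    refine ⟨-l, ?_⟩
    simpa [X.D.inv] using hl
  have i4 : (∃ k, H.Adj y (σ (C k))) → ∃ k, H.Adj x (C k) := by
    rintro ⟨k, hk⟩
    obtain ⟨l, hl⟩ := ((h.symm X).rev X).claim1 X ⟨-k, by simpa using hk⟩
    refine ⟨-l, ?_⟩
    simpa [X.D.inv] using hl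
  -- inequalities
  have z1 : (∃ k, H.Adj x (σ (C k))) → (∃ k, H.Adj y (C k)) →
      cnt c (fun k => H.Adj x (σ (C k))) + cnt c (fun k => H.Adj y (C k)) + r ≤ c + 1 :=
    fun g1 g2 => ineqZ hc (by omega) (A := fun k => H.Adj x (σ (C k)))
      (B := fun k => H.Adj y (C k)) (perAdj' h.cyc x) (perAdj h.cyc y) g1 g2
      (fun k j h1 h2 hk => h.ins X k j h1 h2 hk)
  have z2 : (∃ k, H.Adj y (σ (C k))) → (∃ k, H.Adj x (C k)) →
      cnt c (fun k => H.Adj y (σ (C k))) + cnt c (fun k => H.Adj x (C k)) + r ≤ c + 1 :=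
    fun g1 g2 => ineqZ hc (by omega) (A := fun k => H.Adj y (σ (C k)))
      (B := fun k => H.Adj x (C k)) (perAdj' h.cyc y) (perAdj h.cyc x) g1 g2
      (fun k j h1 h2 hk => (h.symm X).ins X k j h1 h2 hk)
  by_cases g1 : ∃ k, H.Adj x (C k)
  · have g4 := i1 g1
    have w2 := z2 g4 g1
    by_cases g2 : ∃ k, H.Adj x (σ (C k))
    · have g3 := i3 g2
      have w1 := z1 g2 g3
      refine ⟨g1, g2, g3, g4, ?_, ?_, ?_, ?_, ?_, ?_⟩
      · omega
      · omega
      · rw [h.card]; omega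
      · rw [h.card]; omega
      · rw [dg_cnt h.cyc]; omega
      · rw [dg_cnt h.cyc]; omega
    · have g3 : ¬ ∃ k, H.Adj y (C k) := fun g => g2 (i2 g)
      rw [← A2] at g2
      rw [← A3] at g3
      omega
  · have g4 : ¬ ∃ k, H.Adj y (σ (C k)) := fun g => g1 (i4 g)
    by_cases g2 : ∃ k, H.Adj x (σ (C k))
    · have g3 := i3 g2
      have w1 := z1 g2 g3
      rw [← A1] at g1
      rw [← A4] at g4
      omega
    · rw [← A1] at g1
      rw [← A2] at g2
      omega

end Pool.Agent.Lib_MP_c83083_co
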