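import Pool.Agent.Lib_MP_c83083_co.Step1a

/-! Step 1, part b: the leftover piece is complete; insertion facts. -/

namespace Pool.Agent.Lib_MP_c83083_co

open Finset

set_option linter.unusedSectionVars false
set_option linter.unusedVariables false

variable {V : Type*} [Fintype V] [DecidableEq V] {H : SimpleGraph V} {σ : V → V}
variable {m r c : ℕ} {C : ℤ → V} {x y : V} {T : Finset V}

theorem adj_of_dg (D : Dom H σ) {T : Finset V} {u : V} (hu : u ∈ T) (hu' : σ u ∈ T)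
    (hd : T.card ≤ dg H u T.val + 2) {w : V} (hw : w ∈ T) (hwu : w ≠ u) (hwu' : w ≠ σ u) :
    H.Adj u w := by
  by_contra hna
  have h1 := val_erase D hu hu'
  have hwm : w ∈ (T.erase u).erase (σ u) := by
    rw [Finset.mem_erase, Finset.mem_erase]; exact ⟨hwu', hwu, hw⟩
  have h2 : ((T.erase u).erase (σ u)).val
      = w ::ₘ (((T.erase u).erase (σ u)).erase w).val := by
    rw [Finset.erase_val _ w, Multiset.cons_erase hwm]
  rw [h1, dgAdd, dgPair, ad_self, ad_sigma D, h2, dg_cons, ad_zero hna] at hd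
  have h4 := dg_le_card (H := H) u (((T.erase u).erase (σ u)).erase w).val
  rw [Finset.card_val] at h4
  have h5 := Finset.card_erase_add_one hwm
  have h6 := card_erase2 D hu hu'
  omega

theorem Opt.cpl (h : Opt H σ r c C x y T) (X : Ctx H σ m r) : Cpl H σ T := by
  have hr := X.hr
  obtain ⟨hxT, hyT, hcl⟩ := h.mem_seg X
  have ht := h.tight X
  obtain ⟨n', Q, hQ0, hQn, hQadj, hQU⟩ := h.seg.exists_fun
  have hn' : n' + 1 = r := by
    have := congrArg Multiset.card hQU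
    rw [cardBlk, Finset.card_val, h.card] at this
    omega
  have hnd : (blk σ Q 0 (n' + 1)).Nodup := by rw [← hQU]; exact T.nodup
  have hne := blk_nodup_ne hnd (k := 0) (l := n') (le_refl _) (by omega) (by omega)
  have hyx : y ≠ x := by
    rw [← hQ0, ← hQn]; exact fun e => hne.2.1 e.symm
  have hyx' : y ≠ σ x := by
    rw [← hQ0, ← hQn]; exact fun e => hne.2.2.2 e.symm
  have hxy : H.Adj x y := adj_of_dg X.D hxT (hcl x hxT) ht.dx hyT hyx hyx'
  -- rotated optimal pairs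
  have hrot : ∀ k : ℕ, 1 ≤ k → k ≤ n' → Opt H σ r c C (Q k) (σ (Q ((k : ℤ) - 1))) T := by
    intro k hk1 hk2
    have s1 : Seg H σ (Q k) (σ (Q n')) (blk σ Q k (n' + 1)) :=
      Seg.of_fun (by omega) (fun l hl1 hl2 => hQadj l (by omega) (by omega))
    have s2 : Seg H σ (Q 0) (σ (Q ((k : ℤ) - 1))) (blk σ Q 0 ((k : ℤ) - 1 + 1)) :=
      Seg.of_fun (by omega) (fun l hl1 hl2 => hQadj l (by omega) (by omega))
    rw [hQ0] at s2
    rw [hQn] at s1
    have s3 := s1.join hxy.symm s2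
    refine ⟨h.cyc, s3.congr rfl rfl ?_, h.part, h.card⟩
    rw [show (k : ℤ) - 1 + 1 = k by ring, add_comm, blk_add (by omega) (by omega), hQU]
  refine cpl_of_dg X.D hcl ?_
  intro u hu
  have hu2 : u ∈ T.val := hu
  rw [hQU, mem_blk] at hu2
  obtain ⟨k, hk0, hk1, hk2⟩ := hu2
  obtain ⟨k', rfl⟩ : ∃ k' : ℕ, k = k' := ⟨k.toNat, by omega⟩
  rcases hk2 with rfl | rfl
  · by_cases hk : k' = 0
    · subst hk
      have e : Q ((0 : ℕ) : ℤ) = x := by simpa using hQ0
      rw [e]; exact ht.dx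
    · exact ((hrot k' (by omega) (by omega)).tight X).dx
  · by_cases hk : k' = n'
    · subst hk
      rw [hQn]; exact ht.dy
    · have := ((hrot (k' + 1) (by omega) (by omega)).tight X).dy
      push_cast at this
      rwa [show (k' : ℤ) + 1 - 1 = k' by ring] at this

theorem Opt.change (h : Opt H σ r c C x y T) (X : Ctx H σ m r) {u v : V} (hu : u ∈ T)
    (hv : v ∈ T) (h1 : v ≠ u) (h2 : v ≠ σ u) : Opt H σ r c C u v T :=
  ⟨h.cyc, (h.cpl X).seg2 X.D hu hv h1 h2, h.part, h.card⟩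

theorem Opt.four (h : Opt H σ r c C x y T) (X : Ctx H σ m r) : 4 ≤ T.card := by
  have := h.card
  have := X.hr
  omega

/-- distinctness transfer: `v` is a non-partner of `u` iff `u` is a non-partner of `v`. -/
theorem np_symm (D : Dom H σ) {u v : V} (h1 : v ≠ u) (h2 : v ≠ σ u) : u ≠ v ∧ u ≠ σ v := by
  refine ⟨h1.symm, ?_⟩
  intro e; apply h2; rw [e, D.inv]

theorem np_sigma (D : Dom H σ) {u v : V} (h1 : v ≠ u) (h2 : v ≠ σ u) :
    v ≠ σ u ∧ v ≠ σ (σ u) := by
  refine ⟨h2, ?_⟩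
  rw [D.inv]; exact h1

/-- partners have the same neighbours `C l` on the cycle -/
theorem Opt.sig1 (h : Opt H σ r c C x y T) (X : Ctx H σ m r) {u : V} (hu : u ∈ T) {l : ℤ}
    (hl : H.Adj u (C l)) : H.Adj (σ u) (C l) := by
  have hr := X.hr
  obtain ⟨_, _, hcl⟩ := h.mem_seg X
  obtain ⟨v, hv, hv1, hv2⟩ := exists_other X.D hu (hcl u hu) (h.four X)
  obtain ⟨w1, w2⟩ := np_symm X.D hv1 hv2
  have w3 : σ u ≠ v := hv2.symm
  have w4 : σ u ≠ σ v := by
    intro e; apply hv1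
    have := congrArg σ e
    rw [X.D.inv, X.D.inv] at this
    exact this.symm
  have o1 := h.change X hv hu w1 w2
  have o2 := h.change X hv (hcl u hu) w3 w4
  have t1 := o1.tight X
  have t2 := o2.tight X
  exact maxB (A := fun k => H.Adj v (σ (C k))) (B := fun k => H.Adj (σ u) (C k)) h.cyc.pos
    (show 1 ≤ r by omega) (perAdj' h.cyc v) (perAdj h.cyc (σ u)) t1.ne2
    (fun k j h1 h2 hk => o2.ins X k j h1 h2 hk) t2.eq1
    (fun j h1 h2 hj => o1.ins X (l - j) j h1 h2 hj (by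
      rwa [show l - (j : ℤ) + j = l by ring]))

/-- partners have the same neighbours `σ (C l)` on the cycle -/
theorem Opt.sig2 (h : Opt H σ r c C x y T) (X : Ctx H σ m r) {u : V} (hu : u ∈ T) {l : ℤ}
    (hl : H.Adj u (σ (C l))) : H.Adj (σ u) (σ (C l)) := by
  have := (h.rev X).sig1 X hu (l := -l) (by simpa using hl)
  simpa using this

theorem Opt.ins1 (h : Opt H σ r c C x y T) (X : Ctx H σ m r) {u : V} (hu : u ∈ T) (k : ℤ)
    (h1 : H.Adj u (σ (C k))) : ¬ H.Adj (σ u) (C (k + 1)) := by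
  intro h2
  have hr := X.hr
  obtain ⟨_, _, hcl⟩ := h.mem_seg X
  have hc6 := card_erase2 X.D hu (hcl u hu)
  have hval := val_erase X.D hu (hcl u hu)
  obtain ⟨w, hw⟩ : ((T.erase u).erase (σ u)).Nonempty := by
    rw [← Finset.card_pos]; have := h.four X; omega
  obtain ⟨b, hb⟩ := ((h.cpl X).erase X.D u).seg1 X.D hw
  have hc := h.cyc.pos
  have s1 := h.cyc.arc (i := k + 1) (j := k + 1 + c) (by omega)
  rw [show k + 1 + (c : ℤ) - 1 = k + c by ring, h.cyc.per] at s1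
  have s2 := s1.join h1.symm (Seg.single u)
  apply X.hmin (r - 1) (by omega) (by omega)
  refine ⟨_, _, _, _, _, _, s2, h2, hb, ?_, ?_⟩
  · rw [h.cyc.blk_full (k + 1), add_assoc, ← hval, h.part]
  · rw [Finset.card_val]
    have := h.card
    omega

/-- (O3): no `u, v ∈ T` with `u ~ σ (C k)`, `v ~ C (k+1)`. -/
theorem Opt.o3 (h : Opt H σ r c C x y T) (X : Ctx H σ m r) {u v : V} (hu : u ∈ T) (hv : v ∈ T)
    (k : ℤ) (h1 : H.Adj u (σ (C k))) : ¬ H.Adj v (C (k + 1)) := by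
  have hr := X.hr
  intro h2
  by_cases e1 : v = u
  · subst e1
    exact h.ins1 X hv k h1 (h.sig1 X hv h2)
  by_cases e2 : v = σ u
  · subst e2
    exact h.ins1 X hu k h1 h2
  · refine (h.change X hu hv e1 e2).ins X k 1 (le_refl _) (by omega) h1 ?_
    simpa using h2

/-- (I) for arbitrary non-partners -/
theorem Opt.ins' (h : Opt H σ r c C x y T) (X : Ctx H σ m r) {u v : V} (hu : u ∈ T)
    (hv : v ∈ T) (e1 : v ≠ u) (e2 : v ≠ σ u) (k : ℤ) (j : ℕ) (hj1 : 1 ≤ j) (hj2 : j ≤ r)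
    (h1 : H.Adj u (σ (C k))) : ¬ H.Adj v (C (k + j)) :=
  (h.change X hu hv e1 e2).ins X k j hj1 hj2 h1

theorem Opt.degC (h : Opt H σ r c C x y T) (X : Ctx H σ m r) {u : V} (hu : u ∈ T) :
    dg H u (blk σ C 0 c) + r = c + 1 := by
  obtain ⟨_, _, hcl⟩ := h.mem_seg X
  obtain ⟨v, hv, hv1, hv2⟩ := exists_other X.D hu (hcl u hu) (h.four X)
  exact ((h.change X hu hv hv1 hv2).tight X).cx

end Pool.Agent.Lib_MP_c83083_co
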