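import Pool.Agent.Lib_MP_c83083_co.Step1b

/-! Step 1, part c: the sandwich argument and conclusion. -/

namespace Pool.Agent.Lib_MP_c83083_co

open Finset

set_option linter.unusedSectionVars false
set_option linter.unusedVariables false

variable {V : Type*} [Fintype V] [DecidableEq V] {H : SimpleGraph V} {σ : V → V}
variable {m r c : ℕ} {C : ℤ → V} {x y : V} {T : Finset V}

/-- neighbours in a block, arranged by `H`-edges of the block -/
theorem blk_edges (u : V) (C : ℤ → V) {i j : ℤ} (hij : i ≤ j) :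
    dg H u (blk σ C i (j + 1)) = ad H u (C i) + ad H u (σ (C j))
      + ∑ k ∈ Finset.Ico (i + 1) (j + 1), (ad H u (σ (C (k - 1))) + ad H u (C k)) := by
  rw [dgBlk, Finset.sum_add_distrib, Finset.sum_add_distrib]
  have h1 : Finset.Ico i (j + 1) = insert i (Finset.Ico (i + 1) (j + 1)) := by
    ext x; simp only [Finset.mem_Ico, Finset.mem_insert]; omega
  have h2 : Finset.Ico i (j + 1) = insert j (Finset.Ico i j) := by
    ext x; simp only [Finset.mem_Ico, Finset.mem_insert]; omega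
  have h3 : ∑ k ∈ Finset.Ico (i + 1) (j + 1), ad H u (σ (C (k - 1)))
      = ∑ k ∈ Finset.Ico i j, ad H u (σ (C k)) := by
    have := sum_Ico_shift (fun k => ad H u (σ (C (k - 1)))) 1 i j
    rw [← this]
    refine Finset.sum_congr rfl ?_
    intro k _
    simp
  rw [h3]
  have h4 : ∑ x ∈ Finset.Ico i (j + 1), ad H u (C x)
      = ad H u (C i) + ∑ x ∈ Finset.Ico (i + 1) (j + 1), ad H u (C x) := by
    rw [h1, Finset.sum_insert (by simp)]
  have h5 : ∑ x ∈ Finset.Ico i (j + 1), ad H u (σ (C x))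
      = ad H u (σ (C j)) + ∑ x ∈ Finset.Ico i j, ad H u (σ (C x)) := by
    rw [h2, Finset.sum_insert (by simp)]
  rw [h4, h5]
  ring

theorem exists_cyc {P : ℤ → V} {a : ℤ} {c : ℕ} (hc : 0 < c)
    (hadj : ∀ k, a ≤ k → k < a + c - 1 → H.Adj (σ (P k)) (P (k + 1)))
    (hcl : H.Adj (σ (P (a + c - 1))) (P a)) :
    ∃ C, Cyc H σ c C ∧ ∀ k, a ≤ k → k < a + c → C k = P k := by
  have hc' : (0 : ℤ) < c := by exact_mod_cast hc
  refine ⟨fun k => P (a + (k - a) % c), ⟨hc, ?_, ?_⟩, ?_⟩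
  · intro i
    show P (a + (i + c - a) % c) = P (a + (i - a) % c)
    rw [show i + (c : ℤ) - a = i - a + c by ring, Int.add_emod_right]
  · intro i
    have h1 := Int.emod_nonneg (i - a) (ne_of_gt hc')
    have h2 := Int.emod_lt_of_pos (i - a) hc'
    show H.Adj (σ (P (a + (i - a) % c))) (P (a + (i + 1 - a) % c))
    rw [show i + 1 - a = i - a + 1 by ring, ← Int.emod_add_emod]
    generalize (i - a) % (c : ℤ) = j at h1 h2 ⊢
    by_cases hj : j + 1 < c
    · rw [Int.emod_eq_of_lt (by omega) hj]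
      have := hadj (a + j) (by omega) (by omega)
      rwa [add_assoc] at this
    · have hj' : j = c - 1 := by omega
      subst hj'
      rw [show (c : ℤ) - 1 + 1 = c by ring, Int.emod_self, add_zero,
        show a + ((c : ℤ) - 1) = a + c - 1 by ring]
      exact hcl
  · intro k hk1 hk2
    show P (a + (k - a) % c) = P k
    rw [Int.emod_eq_of_lt (by omega) (by omega)]
    congr 1; ring

theorem Opt.shift (h : Opt H σ r c C x y T) (a : ℤ) :
    Opt H σ r c (fun n => C (n + a)) x y T := by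
  refine ⟨h.cyc.shift a, h.seg, ?_, h.card⟩
  rw [blk_shift, show (c : ℤ) + a = 0 + a + c by ring, h.cyc.blk_full]
  exact h.part

theorem Opt.gap (h : Opt H σ r c C x y T) (X : Ctx H σ m r) :
    r + 1 ≤ c ∧ ∃ i, H.Adj x (σ (C i)) ∧ H.Adj y (C (i + r + 1)) := by
  have ht := h.tight X
  have hr := X.hr
  exact gapZ h.cyc.pos (show 1 ≤ r by omega) (A := fun k => H.Adj x (σ (C k)))
    (B := fun k => H.Adj y (C k)) (perAdj' h.cyc x) (perAdj h.cyc y) ht.ne2 ht.ne3
    (fun k j h1 h2 hk => h.ins X k j h1 h2 hk) ht.eq1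

/-- the second optimal pair -/
theorem Opt.gapOpt (h : Opt H σ r c C x y T) (X : Ctx H σ m r) (hrc : r + 1 ≤ c)
    (hx : H.Adj x (σ (C 0))) (hy : H.Adj y (C (r + 1))) :
    ∃ (C' : ℤ → V) (T' : Finset V), T'.val = blk σ C 1 (r + 1) ∧
      Opt H σ r c C' (C 1) (σ (C r)) T' ∧ (∀ k : ℤ, r + 1 ≤ k → k ≤ c → C' k = C k) ∧
      blk σ C' 0 c = blk σ C (r + 1) (c + 1) + T.val := by
  have hr := X.hr
  obtain ⟨n', Q, hQ0, hQn, hQadj, hQU⟩ := h.seg.exists_fun
  have hn' : n' + 1 = r := by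
    have := congrArg Multiset.card hQU
    rw [cardBlk, Finset.card_val, h.card] at this
    omega
  have hfull : blk σ C 1 (r + 1) + blk σ C (r + 1) (c + 1) = blk σ C 0 c := by
    rw [blk_add (by omega) (by omega), ← h.cyc.blk_full 1, show (c : ℤ) + 1 = 1 + c by ring]
  have hnd : (blk σ C 1 (r + 1)).Nodup := by
    have := nodup_of_part h.part
    rw [← hfull] at this
    exact (Multiset.nodup_add.1 this).1
  obtain ⟨C', hC', hwin⟩ := exists_cyc (H := H) (σ := σ)
    (P := fun k => if k ≤ c then C k else Q (k - c - 1)) (a := r + 1) (c := c) (by omega)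
    (by
      intro k hk1 hk2
      rcases lt_trichotomy k (c : ℤ) with hk | hk | hk
      · rw [if_pos (by omega), if_pos (by omega)]
        exact h.cyc.adj k
      · rw [if_pos (by omega), if_neg (by omega), hk,
          show (c : ℤ) + 1 - c - 1 = 0 by ring, hQ0]
        have := h.cyc.per 0
        rw [zero_add] at this
        rw [this]
        exact hx.symm
      · rw [if_neg (by omega), if_neg (by omega)]
        have := hQadj (k - c - 1) (by omega) (by omega)
        rwa [show k - (c : ℤ) - 1 + 1 = k + 1 - c - 1 by ring] at this)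
    (by
      rw [if_neg (by omega), if_pos (by omega),
        show (r : ℤ) + 1 + c - 1 - c - 1 = n' by omega, hQn]
      exact hy)
  have hw : ∀ k : ℤ, r + 1 ≤ k → k ≤ c → C' k = C k := by
    intro k hk1 hk2
    rw [hwin k hk1 (by omega), if_pos hk2]
  have hblk : blk σ C' 0 c = blk σ C (r + 1) (c + 1) + T.val := by
    rw [← hC'.blk_full (r + 1), ← blk_add (σ := σ) (C := C') (i := r + 1) (j := c + 1)
      (k := r + 1 + c) (by omega) (by omega)]
    congr 1
    · exact blk_congr (fun k hk1 hk2 => hw k hk1 (by omega))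
    · rw [hQU]
      have := blk_shift (σ := σ) (C := Q) (-c - 1) (c + 1) (r + 1 + c)
      rw [show (c : ℤ) + 1 + (-c - 1) = 0 by ring,
        show (r : ℤ) + 1 + c + (-c - 1) = n' + 1 by omega] at this
      rw [← this]
      refine blk_congr ?_
      intro k hk1 hk2
      rw [hwin k (by omega) (by omega), if_neg (by omega)]
      congr 1; ring
  refine ⟨C', ⟨blk σ C 1 (r + 1), hnd⟩, rfl, ⟨hC', ?_, ?_, ?_⟩, hw, hblk⟩
  · have := h.cyc.arc (i := 1) (j := r + 1) (by omega)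
    rwa [show (r : ℤ) + 1 - 1 = r by ring] at this
  · rw [hblk, ← h.part, ← hfull]
    abel
  · show (blk σ C 1 (r + 1)).card = 2 * r
    rw [cardBlk]; omega

/-- the sandwich -/
structure Sand (H : SimpleGraph V) (σ : V → V) (r : ℕ) (W : ℤ → V) (a b : ℤ)
    (T T' : Finset V) : Prop where
  D : Dom H σ
  hno : ¬ Ham H σ
  hab : a ≤ b
  hr : 2 ≤ r
  adj : ∀ k, a ≤ k → k < b → H.Adj (σ (W k)) (W (k + 1))
  part : blk σ W a (b + 1) + T.val + T'.val = (Finset.univ : Finset V).val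
  cpl : Cpl H σ T
  cpl' : Cpl H σ T'
  four : 4 ≤ T.card
  four' : 4 ≤ T'.card
  hdeg : ∀ v, (b - a + 1) + 2 * r ≤ deg H v + 1
  endL : ∀ u ∈ T, H.Adj u (W a)
  endL' : ∀ u ∈ T', H.Adj u (W a)
  endR : ∀ u ∈ T, H.Adj u (σ (W b))
  endR' : ∀ u ∈ T', H.Adj u (σ (W b))
  one : ∀ u ∈ T, ∀ k, a + 1 ≤ k → k ≤ b → H.Adj u (σ (W (k - 1))) ∨ H.Adj u (W k)
  one' : ∀ u ∈ T', ∀ k, a + 1 ≤ k → k ≤ b → H.Adj u (σ (W (k - 1))) ∨ H.Adj u (W k)
  o3 : ∀ u ∈ T, ∀ v ∈ T, ∀ k, a + 1 ≤ k → k ≤ b → H.Adj u (σ (W (k - 1))) → ¬ H.Adj v (W k)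
  o3' : ∀ u ∈ T', ∀ v ∈ T', ∀ k, a + 1 ≤ k → k ≤ b →
    H.Adj u (σ (W (k - 1))) → ¬ H.Adj v (W k)
  ts : ∀ u ∈ T, ∀ v ∈ T, v ≠ u → v ≠ σ u → ∀ k, a + 1 ≤ k → k < b →
    H.Adj u (σ (W (k - 1))) → ¬ H.Adj v (W (k + 1))

section sand
variable {W : ℤ → V} {a b : ℤ} {T' : Finset V}

/-- the abstract Hamilton cycle for type disagreement -/
theorem Sand.ham3 (S : Sand H σ r W a b T T') {k : ℤ} (hk1 : a + 1 ≤ k) (hk2 : k ≤ b)
    {p q p' q' : V} {A B : Multiset V} (h1 : Seg H σ p q A) (h2 : Seg H σ p' q' B)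
    (hAB : blk σ W a (b + 1) + A + B = (Finset.univ : Finset V).val)
    (g1 : H.Adj p (σ (W (k - 1)))) (g2 : H.Adj q (σ (W b))) (g3 : H.Adj p' (W k))
    (g4 : H.Adj q' (W a)) : False := by
  have s1 : Seg H σ (W a) (σ (W (k - 1))) (blk σ W a (k - 1 + 1)) :=
    Seg.of_fun (by omega) (fun l hl1 hl2 => S.adj l hl1 (by omega))
  have s2 : Seg H σ (W k) (σ (W b)) (blk σ W k (b + 1)) :=
    Seg.of_fun (by omega) (fun l hl1 hl2 => S.adj l (by omega) (by omega))
  have s3 := ((s1.join g1.symm h1).join g2 (s2.rev S.D)).join g3.symm h2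
  refine S.hno ⟨_, _, s3.congr rfl rfl ?_, g4⟩
  rw [← hAB, ← blk_add (σ := σ) (C := W) (i := a) (j := k) (k := b + 1) (by omega) (by omega),
    show k - 1 + 1 = k by ring]
  abel

theorem Sand.exT (S : Sand H σ r W a b T T') :
    ∃ u v, u ∈ T ∧ v ∈ T ∧ Seg H σ u v T.val ∧ v ≠ u ∧ v ≠ σ u := by
  have h4 := S.four
  obtain ⟨u, hu⟩ : T.Nonempty := by rw [← Finset.card_pos]; omega
  obtain ⟨v, hv, h1, h2⟩ := exists_other S.D hu (S.cpl.cl u hu) h4
  exact ⟨u, v, hu, hv, S.cpl.seg2 S.D hu hv h1 h2, h1, h2⟩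

theorem Sand.exT' (S : Sand H σ r W a b T T') :
    ∃ u v, u ∈ T' ∧ v ∈ T' ∧ Seg H σ u v T'.val := by
  have h4 := S.four'
  obtain ⟨u, hu⟩ : T'.Nonempty := by rw [← Finset.card_pos]; omega
  obtain ⟨v, hv, h1, h2⟩ := exists_other S.D hu (S.cpl'.cl u hu) h4
  exact ⟨u, v, hu, hv, S.cpl'.seg2 S.D hu hv h1 h2⟩

/-- type T at `k` -/
def TyT (H : SimpleGraph V) (σ : V → V) (W : ℤ → V) (T T' : Finset V) (k : ℤ) : Prop :=
  (∀ u ∈ T, H.Adj u (σ (W (k - 1)))) ∧ (∀ u ∈ T', H.Adj u (σ (W (k - 1))))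

/-- type S at `k` -/
def TyS (H : SimpleGraph V) (W : ℤ → V) (T T' : Finset V) (k : ℤ) : Prop :=
  (∀ u ∈ T, H.Adj u (W k)) ∧ (∀ u ∈ T', H.Adj u (W k))

theorem Sand.types (S : Sand H σ r W a b T T') {k : ℤ} (hk1 : a + 1 ≤ k) (hk2 : k ≤ b) :
    TyT H σ W T T' k ∨ TyS H W T T' k := by
  obtain ⟨u, v, hu, hv, hseg, _, _⟩ := S.exT
  obtain ⟨u', v', hu', hv', hseg'⟩ := S.exT'
  have hT : (∀ w ∈ T, H.Adj w (σ (W (k - 1)))) ∨ (∀ w ∈ T, H.Adj w (W k)) := by
    by_cases h : ∃ w ∈ T, H.Adj w (σ (W (k - 1)))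
    · obtain ⟨w, hw, hw2⟩ := h
      left
      intro z hz
      rcases S.one z hz k hk1 hk2 with h | h
      · exact h
      · exact absurd h (S.o3 w hw z hz k hk1 hk2 hw2)
    · push Not at h
      right
      intro z hz
      rcases S.one z hz k hk1 hk2 with h' | h'
      · exact absurd h' (h z hz)
      · exact h'
  have hT' : (∀ w ∈ T', H.Adj w (σ (W (k - 1)))) ∨ (∀ w ∈ T', H.Adj w (W k)) := by
    by_cases h : ∃ w ∈ T', H.Adj w (σ (W (k - 1)))
    · obtain ⟨w, hw, hw2⟩ := h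
      left
      intro z hz
      rcases S.one' z hz k hk1 hk2 with h | h
      · exact h
      · exact absurd h (S.o3' w hw z hz k hk1 hk2 hw2)
    · push Not at h
      right
      intro z hz
      rcases S.one' z hz k hk1 hk2 with h' | h'
      · exact absurd h' (h z hz)
      · exact h'
  rcases hT with h1 | h1 <;> rcases hT' with h2 | h2
  · exact Or.inl ⟨h1, h2⟩
  · exfalso
    exact S.ham3 hk1 hk2 hseg hseg' S.part (h1 u hu) (S.endR v hv) (h2 u' hu') (S.endL' v' hv')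
  · exfalso
    refine S.ham3 hk1 hk2 hseg' hseg ?_ (h2 u' hu') (S.endR' v' hv') (h1 u hu) (S.endL v hv)
    rw [← S.part]; abel
  · exact Or.inr ⟨h1, h2⟩

theorem Sand.segs (S : Sand H σ r W a b T T') {k l : ℤ} (hk1 : a + 1 ≤ k) (hkl : k < l)
    (hl : l ≤ b) :
    Seg H σ (W a) (σ (W (k - 1))) (blk σ W a k) ∧
    Seg H σ (W k) (σ (W (l - 1))) (blk σ W k l) ∧
    Seg H σ (W l) (σ (W b)) (blk σ W l (b + 1)) ∧
    blk σ W a k + blk σ W k l + blk σ W l (b + 1) = blk σ W a (b + 1) := by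
  refine ⟨?_, ?_, ?_, ?_⟩
  · have : Seg H σ (W a) (σ (W (k - 1))) (blk σ W a (k - 1 + 1)) :=
      Seg.of_fun (by omega) (fun l hl1 hl2 => S.adj l hl1 (by omega))
    rwa [show k - 1 + 1 = k by ring] at this
  · have : Seg H σ (W k) (σ (W (l - 1))) (blk σ W k (l - 1 + 1)) :=
      Seg.of_fun (by omega) (fun l hl1 hl2 => S.adj l (by omega) (by omega))
    rwa [show l - 1 + 1 = l by ring] at this
  · exact Seg.of_fun (by omega) (fun l hl1 hl2 => S.adj l (by omega) (by omega))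
  · rw [blk_add (by omega) (by omega), blk_add (by omega) (by omega)]

theorem Sand.TT (S : Sand H σ r W a b T T') {k l : ℤ} (hk1 : a + 1 ≤ k) (hkl : k < l)
    (hl : l ≤ b) (hk : TyT H σ W T T' k) (hl' : TyT H σ W T T' l) : ¬ H.Adj (W k) (W l) := by
  intro hadj
  obtain ⟨u, v, hu, hv, hseg, _, _⟩ := S.exT
  obtain ⟨u', v', hu', hv', hseg'⟩ := S.exT'
  obtain ⟨s1, s2, s3, hs⟩ := S.segs hk1 hkl hl
  have s := (((s1.join (hk.1 u hu).symm hseg).join (hl'.1 v hv) (s2.rev S.D)).join hadj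
    s3).join (S.endR' u' hu').symm hseg'
  refine S.hno ⟨_, _, s.congr rfl rfl ?_, S.endL' v' hv'⟩
  rw [← S.part, ← hs]; abel

theorem Sand.SS (S : Sand H σ r W a b T T') {k l : ℤ} (hk1 : a + 1 ≤ k) (hkl : k < l)
    (hl : l ≤ b) (hk : TyS H W T T' k) (hl' : TyS H W T T' l) :
    ¬ H.Adj (σ (W (k - 1))) (σ (W (l - 1))) := by
  intro hadj
  obtain ⟨u, v, hu, hv, hseg, _, _⟩ := S.exT
  obtain ⟨u', v', hu', hv', hseg'⟩ := S.exT'
  obtain ⟨s1, s2, s3, hs⟩ := S.segs hk1 hkl hl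
  have s := (((s1.join hadj (s2.rev S.D)).join (hk.1 u hu).symm hseg).join (hl'.1 v hv)
    s3).join (S.endR' u' hu').symm hseg'
  refine S.hno ⟨_, _, s.congr rfl rfl ?_, S.endL' v' hv'⟩
  rw [← S.part, ← hs]; abel

theorem Sand.ST (S : Sand H σ r W a b T T') {k l : ℤ} (hk1 : a + 1 ≤ k) (hkl : k < l)
    (hl : l ≤ b) (hk : TyS H W T T' k) (hl' : TyT H σ W T T' l) :
    ¬ H.Adj (σ (W (k - 1))) (W l) := by
  intro hadj
  obtain ⟨u, v, hu, hv, hseg, _, _⟩ := S.exT
  obtain ⟨u', v', hu', hv', hseg'⟩ := S.exT'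
  obtain ⟨s1, s2, s3, hs⟩ := S.segs hk1 hkl hl
  have s := (((s1.join hadj s3).join (S.endR u hu).symm hseg).join (hk.1 v hv)
    s2).join (hl'.2 u' hu').symm hseg'
  refine S.hno ⟨_, _, s.congr rfl rfl ?_, S.endL' v' hv'⟩
  rw [← S.part, ← hs]; abel

theorem dg_eq_zero {u : V} {A : Multiset V} (h : ∀ w ∈ A, ¬ H.Adj u w) : dg H u A = 0 := by
  induction A using Multiset.induction_on with
  | empty => simp
  | cons w s ih =>
    rw [dg_cons, ad_zero (h w (Multiset.mem_cons_self _ _)), zero_add]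
    exact ih (fun z hz => h z (Multiset.mem_cons_of_mem hz))

theorem Sand.deg_le (S : Sand H σ r W a b T T') {u : V} (hT : ∀ w ∈ T, ¬ H.Adj u w)
    (hT' : ∀ w ∈ T', ¬ H.Adj u w) : deg H u = dg H u (blk σ W a (b + 1)) := by
  have : (blk σ W a (b + 1) + (T.val + T'.val)) = (Finset.univ : Finset V).val := by
    rw [← S.part]; abel
  rw [deg_part this, dgAdd, dg_eq_zero (A := T.val) (fun w hw => hT w hw),
    dg_eq_zero (A := T'.val) (fun w hw => hT' w hw), add_zero, add_zero]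

theorem Sand.last (S : Sand H σ r W a b T T') (hab : a < b) : ¬ TyT H σ W T T' b := by
  intro hb
  obtain ⟨u, v, hu, hv, hseg, _, _⟩ := S.exT
  obtain ⟨u', v', hu', hv', hseg'⟩ := S.exT'
  have h1 : ∀ w ∈ T, ¬ H.Adj (W b) w := fun w hw h =>
    S.o3 w hw w hw b (by omega) (le_refl _) (hb.1 w hw) h.symm
  have h2 : ∀ w ∈ T', ¬ H.Adj (W b) w := fun w hw h =>
    S.o3' w hw w hw b (by omega) (le_refl _) (hb.2 w hw) h.symm
  have hd := S.deg_le h1 h2
  have hr := S.hr
  have hdeg := S.hdeg (W b)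
  rw [blk_edges _ _ S.hab, ad_sigma S.D] at hd
  have hle : ∑ k ∈ Finset.Ico (a + 1) (b + 1), (ad H (W b) (σ (W (k - 1))) + ad H (W b) (W k))
      ≤ ∑ k ∈ Finset.Ico (a + 1) (b + 1), 1 := by
    apply Finset.sum_le_sum
    intro k hk
    rw [Finset.mem_Ico] at hk
    have l1 := ad_le (H := H) (W b) (σ (W (k - 1)))
    have l2 := ad_le (H := H) (W b) (W k)
    by_cases hkb : k = b
    · subst hkb; rw [ad_self]; omega
    · rcases S.types (k := k) hk.1 (by omega) with h | h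
      · have : ad H (W b) (W k) = 0 := by
          rw [ad_symm]
          exact ad_zero (S.TT hk.1 (by omega) (le_refl _) h hb)
        omega
      · have : ad H (W b) (σ (W (k - 1))) = 0 := by
          rw [ad_symm]
          exact ad_zero (S.ST hk.1 (by omega) (le_refl _) h hb)
        omega
  rw [Finset.sum_const, Int.card_Ico, smul_eq_mul, mul_one] at hle
  have l3 := ad_le (H := H) (W b) (W a)
  omega

theorem Sand.first (S : Sand H σ r W a b T T') (hab : a < b) : ¬ TyS H W T T' (a + 1) := by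
  intro hb
  have h1 : ∀ w ∈ T, ¬ H.Adj (σ (W a)) w := fun w hw h => by
    refine S.o3 w hw w hw (a + 1) (le_refl _) (by omega) ?_ (hb.1 w hw)
    simpa using h.symm
  have h2 : ∀ w ∈ T', ¬ H.Adj (σ (W a)) w := fun w hw h => by
    refine S.o3' w hw w hw (a + 1) (le_refl _) (by omega) ?_ (hb.2 w hw)
    simpa using h.symm
  have hd := S.deg_le h1 h2
  have hr := S.hr
  have hdeg := S.hdeg (σ (W a))
  rw [blk_edges _ _ S.hab, ad_sigma' S.D] at hd
  have hle : ∑ k ∈ Finset.Ico (a + 1) (b + 1),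
      (ad H (σ (W a)) (σ (W (k - 1))) + ad H (σ (W a)) (W k))
      ≤ ∑ k ∈ Finset.Ico (a + 1) (b + 1), 1 := by
    apply Finset.sum_le_sum
    intro k hk
    rw [Finset.mem_Ico] at hk
    have l1 := ad_le (H := H) (σ (W a)) (σ (W (k - 1)))
    have l2 := ad_le (H := H) (σ (W a)) (W k)
    by_cases hkb : k = a + 1
    · subst hkb
      have : ad H (σ (W a)) (σ (W (a + 1 - 1))) = 0 := by simp
      omega
    · rcases S.types (k := k) hk.1 (by omega) with h | h
      · have : ad H (σ (W a)) (W k) = 0 := by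
          have := S.ST (k := a + 1) (l := k) (le_refl _) (by omega) (by omega) hb h
          rw [add_sub_cancel_right] at this
          exact ad_zero this
        omega
      · have : ad H (σ (W a)) (σ (W (k - 1))) = 0 := by
          have := S.SS (k := a + 1) (l := k) (le_refl _) (by omega) (by omega) hb h
          rw [add_sub_cancel_right] at this
          exact ad_zero this
        omega
  rw [Finset.sum_const, Int.card_Ico, smul_eq_mul, mul_one] at hle
  have l3 := ad_le (H := H) (σ (W a)) (σ (W b))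
  omega

theorem Sand.eq (S : Sand H σ r W a b T T') : a = b := by
  by_contra hne
  have hab : a < b := lt_of_le_of_ne S.hab hne
  have key : ∀ n : ℕ, a + 1 + n ≤ b → TyT H σ W T T' (a + 1 + n) := by
    intro n
    induction n with
    | zero =>
      intro hn
      rcases S.types (k := a + 1) (le_refl _) (by omega) with h | h
      · simpa using h
      · exact absurd h (S.first hab)
    | succ n ih =>
      intro hn
      have ih' := ih (by push_cast at hn; omega)
      rcases S.types (k := a + 1 + (n + 1 : ℕ)) (by omega) (by omega) with h | h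
      · exact h
      · exfalso
        obtain ⟨u, v, hu, hv, hseg, h1, h2⟩ := S.exT
        refine S.ts u hu v hv h1 h2 (a + 1 + n) (by omega) (by push_cast at hn; omega)
          (ih'.1 u hu) ?_
        have := h.1 v hv
        push_cast at this
        rwa [show a + 1 + ((n : ℤ) + 1) = a + 1 + n + 1 by ring] at this
  have := key (b - (a + 1)).toNat (by omega)
  rw [show a + 1 + ((b - (a + 1)).toNat : ℤ) = b by omega] at this
  exact S.last hab this

end sand

end Pool.Agent.Lib_MP_c83083_co
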