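import Pool.Agent.Lib_MP_c83083_co.Defs

/-!
# Step 2, part 1: the case of one leftover domino. Basic constraints.
-/

namespace Pool.Agent.Lib_MP_c83083_co

open Finset

set_option linter.unusedSectionVars false

variable {V : Type*} [Fintype V] {H : SimpleGraph V} {σ : V → V}

/-- `C` is an alternating cycle with `c` dominoes and `{p, σ p}` is the only other domino. -/
structure Conf (H : SimpleGraph V) (σ : V → V) (c : ℕ) (C : ℤ → V) (p : V) : Prop where
  cyc : Cyc H σ c C
  cov : blk σ C 0 c + {p, σ p} = (Finset.univ : Finset V).val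

lemma ad_le_one (u v : V) : ad H u v ≤ 1 := by
  unfold ad; split_ifs <;> simp

lemma ad_eq_zero {u v : V} : ad H u v = 0 ↔ ¬ H.Adj u v := by
  unfold ad; split_ifs with h <;> simp [h]

lemma ad_eq_one {u v : V} : ad H u v = 1 ↔ H.Adj u v := by
  unfold ad; split_ifs with h <;> simp [h]

lemma ad_comm (u v : V) : ad H u v = ad H v u := by
  by_cases h : H.Adj u v
  · rw [ad_eq_one.2 h, ad_eq_one.2 h.symm]
  · rw [ad_eq_zero.2 h, ad_eq_zero.2 fun h' => h h'.symm]

lemma dg_add (u : V) (S T : Multiset V) : dg H u (S + T) = dg H u S + dg H u T := by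
  simp [dg]

lemma dg_pair (u v w : V) : dg H u {v, w} = ad H u v + ad H u w := by
  simp [dg]

lemma deg_eq_dg (u : V) : deg H u = dg H u (Finset.univ : Finset V).val := by
  rfl

lemma dg_blk (u : V) (C : ℤ → V) (i j : ℤ) :
    dg H u (blk σ C i j) = ∑ k ∈ Finset.Ico i j, (ad H u (C k) + ad H u (σ (C k))) := by
  unfold blk
  induction Finset.Ico i j using Finset.induction_on with
  | empty => simp [dg]
  | insert a s ha ih => rw [Finset.sum_insert ha, Finset.sum_insert ha, dg_add, ih, dg_pair]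

lemma card_blk (C : ℤ → V) (i j : ℤ) (hij : i ≤ j) :
    ((blk σ C i j).card : ℤ) = 2 * (j - i) := by
  unfold blk
  rw [Multiset.card_sum]
  simp
  rw [max_eq_left (by omega)]
  ring

namespace Conf

variable {c : ℕ} {C : ℤ → V} {p : V}

lemma card (h : Conf H σ c C p) : Fintype.card V = 2 * (c + 1) := by
  have h1 := congrArg Multiset.card h.cov
  rw [Multiset.card_add] at h1
  have h2 := card_blk (σ := σ) C 0 c (by positivity)
  have h3 : (({p, σ p} : Multiset V)).card = 2 := rfl
  have h4 : Multiset.card (Finset.univ : Finset V).val = Fintype.card V := rfl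
  rw [h3, h4] at h1
  have h5 : ((blk σ C 0 c).card : ℤ) + 2 = Fintype.card V := by exact_mod_cast h1
  rw [h2] at h5
  omega

lemma two_le (D : Dom H σ) (h : Conf H σ c C p) : 2 ≤ c := by
  by_contra hc
  have h1 : c = 1 := by have := h.cyc.pos; omega
  subst h1
  have h2 := h.cyc.adj 0
  have h3 := h.cyc.per 0
  simp only [Nat.cast_one] at h3
  rw [h3] at h2
  exact D.nadj _ h2.symm

lemma symm (D : Dom H σ) (h : Conf H σ c C p) : Conf H σ c C (σ p) :=
  ⟨h.cyc, by rw [D.inv, Multiset.pair_comm]; exact h.cov⟩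

lemma cov' (h : Conf H σ c C p) (i : ℤ) :
    blk σ C i (i + c) + {p, σ p} = (Finset.univ : Finset V).val := by
  rw [h.cyc.blk_full i, h.cov]

/-- Every vertex is `p`, `σ p` or in the dominoes of a full window. -/
lemma cover (h : Conf H σ c C p) (i : ℤ) (v : V) :
    v = p ∨ v = σ p ∨ ∃ k, i ≤ k ∧ k < i + c ∧ (v = C k ∨ v = σ (C (k - 1))) := by
  have hv : v ∈ (Finset.univ : Finset V).val := Finset.mem_univ v
  rw [← h.cov' (i - 1), Multiset.mem_add] at hv
  rcases hv with hv | hv
  · right; right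
    unfold blk at hv
    rw [Multiset.mem_sum] at hv
    obtain ⟨k, hk, hv⟩ := hv
    rw [Finset.mem_Ico] at hk
    simp only [Multiset.insert_eq_cons, Multiset.mem_cons, Multiset.mem_singleton] at hv
    rcases hv with rfl | rfl
    · by_cases hki : i ≤ k
      · exact ⟨k, hki, by omega, Or.inl rfl⟩
      · refine ⟨k + c, by omega, by omega, Or.inl (h.cyc.per k).symm⟩
    · exact ⟨k + 1, by omega, by omega, Or.inr (by simp)⟩
  · simp only [Multiset.insert_eq_cons, Multiset.mem_cons, Multiset.mem_singleton] at hv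
    tauto

/-- The degree, computed along the edges of the cycle. -/
lemma deg_eq (h : Conf H σ c C p) (i : ℤ) (v : V) :
    deg H v = ∑ k ∈ Finset.Ico i (i + c), ad H v (C k)
      + ∑ k ∈ Finset.Ico i (i + c), ad H v (σ (C (k - 1))) + (ad H v p + ad H v (σ p)) := by
  rw [deg_eq_dg, ← h.cov' i, dg_add, dg_pair, dg_blk, Finset.sum_add_distrib]
  congr 2
  have hc : (0 : ℤ) < c := by exact_mod_cast h.cyc.pos
  -- shift
  have h1 : ∑ k ∈ Finset.Ico i (i + c), ad H v (σ (C (k - 1)))
      = ∑ k ∈ Finset.Ico (i - 1) (i - 1 + c), ad H v (σ (C k)) := by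
    refine Finset.sum_bij (fun k _ => k - 1) ?_ ?_ ?_ ?_
    · intro k hk; rw [Finset.mem_Ico] at hk ⊢; omega
    · intro k _ l _ h; simpa using h
    · intro k hk; rw [Finset.mem_Ico] at hk; exact ⟨k + 1, by rw [Finset.mem_Ico]; omega, by simp⟩
    · intro k _; rfl
  rw [h1]
  have e1 : Finset.Ico i (i + c) = insert (i + c - 1) (Finset.Ico i (i + c - 1)) := by
    ext x; simp only [Finset.mem_Ico, Finset.mem_insert]; omega
  have e2 : Finset.Ico (i - 1) (i - 1 + c) = insert (i - 1) (Finset.Ico i (i + c - 1)) := by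
    ext x; simp only [Finset.mem_Ico, Finset.mem_insert]; omega
  rw [e1, e2, Finset.sum_insert (by simp), Finset.sum_insert (by simp)]
  congr 2
  rw [← h.cyc.per (i - 1)]
  congr 2; ring

/-- Insertion of the leftover domino. -/
lemma ins (hno : ¬ Ham H σ) (h : Conf H σ c C p) (k : ℤ) :
    ¬ (H.Adj p (σ (C (k - 1))) ∧ H.Adj (σ p) (C k)) := by
  rintro ⟨h1, h2⟩
  apply hno
  have hc : (0 : ℤ) < c := by exact_mod_cast h.cyc.pos
  have hs := h.cyc.arc (i := k) (j := k + c) (by omega)
  have he : C (k + c - 1) = C (k - 1) := by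
    rw [← h.cyc.per (k - 1)]; congr 1; ring
  rw [he] at hs
  have := hs.join h1.symm (Seg.single p)
  rw [h.cov'] at this
  exact ⟨_, _, this, h2⟩

/-- Each edge of the cycle has exactly two adjacencies with the leftover domino. -/
lemma exact_two {m : ℕ} (D : Dom H σ) (hno : ¬ Ham H σ) (hcard : Fintype.card V = 2 * m)
    (hdeg : ∀ v, m ≤ deg H v + 1) (h : Conf H σ c C p) (k : ℤ) :
    ad H p (σ (C (k - 1))) + ad H (σ p) (C k) = 1 ∧
      ad H (σ p) (σ (C (k - 1))) + ad H p (C k) = 1 := by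
  have hcm : c + 1 = m := by have := h.card; omega
  have hle1 : ∀ j, ad H p (σ (C (j - 1))) + ad H (σ p) (C j) ≤ 1 := by
    intro j
    have h1 := h.ins hno j
    have h2 := ad_le_one (H := H) p (σ (C (j - 1)))
    have h3 := ad_le_one (H := H) (σ p) (C j)
    by_contra hcon
    exact h1 ⟨ad_eq_one.1 (by omega), ad_eq_one.1 (by omega)⟩
  have hle2 : ∀ j, ad H (σ p) (σ (C (j - 1))) + ad H p (C j) ≤ 1 := by
    intro j
    have h1 := (h.symm D).ins hno j
    rw [D.inv] at h1
    have h2 := ad_le_one (H := H) (σ p) (σ (C (j - 1)))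
    have h3 := ad_le_one (H := H) p (C j)
    by_contra hcon
    exact h1 ⟨ad_eq_one.1 (by omega), ad_eq_one.1 (by omega)⟩
  have hp := h.deg_eq k p
  have hq := h.deg_eq k (σ p)
  have e1 : ad H p p = 0 := ad_eq_zero.2 (H.loopless.irrefl p)
  have e2 : ad H p (σ p) = 0 := ad_eq_zero.2 (D.nadj p)
  have e3 : ad H (σ p) p = 0 := by rw [ad_comm]; exact e2
  have e4 : ad H (σ p) (σ p) = 0 := ad_eq_zero.2 (H.loopless.irrefl _)
  rw [e1, e2] at hp
  rw [e3, e4] at hq
  have hdp := hdeg p
  have hdq := hdeg (σ p)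
  have hsum1 : ∑ j ∈ Finset.Ico k (k + c), (ad H p (σ (C (j - 1))) + ad H (σ p) (C j)) ≤ c := by
    refine (Finset.sum_le_card_nsmul _ _ 1 fun j _ => hle1 j).trans ?_
    simp
  have hsum2 : ∑ j ∈ Finset.Ico k (k + c), (ad H (σ p) (σ (C (j - 1))) + ad H p (C j)) ≤ c := by
    refine (Finset.sum_le_card_nsmul _ _ 1 fun j _ => hle2 j).trans ?_
    simp
  have hmem : k ∈ Finset.Ico k (k + c) := by
    rw [Finset.mem_Ico]; have := h.cyc.pos; omega
  have hcardI : (Finset.Ico k (k + c)).card = c := by simp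
  have hE1 : ∑ j ∈ Finset.Ico k (k + c), (ad H p (σ (C (j - 1))) + ad H (σ p) (C j))
      = ∑ j ∈ Finset.Ico k (k + c), 1 := by
    rw [Finset.sum_const, hcardI, smul_eq_mul, mul_one]
    rw [Finset.sum_add_distrib] at hsum1 hsum2 ⊢
    omega
  have hE2 : ∑ j ∈ Finset.Ico k (k + c), (ad H (σ p) (σ (C (j - 1))) + ad H p (C j))
      = ∑ j ∈ Finset.Ico k (k + c), 1 := by
    rw [Finset.sum_const, hcardI, smul_eq_mul, mul_one]
    rw [Finset.sum_add_distrib] at hsum1 hsum2 ⊢
    omega
  exact ⟨(Finset.sum_eq_sum_iff_of_le fun j _ => hle1 j).1 hE1 k hmem,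
    (Finset.sum_eq_sum_iff_of_le fun j _ => hle2 j).1 hE2 k hmem⟩

end Conf

end Pool.Agent.Lib_MP_c83083_co
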