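import Pool.Agent.Lib_MP_c83083_co.Step2a

/-!
# Step 2, part 2: types, exchange of the leftover domino.
-/

namespace Pool.Agent.Lib_MP_c83083_co

open Finset

set_option linter.unusedSectionVars false

variable {V : Type*} [Fintype V] {H : SimpleGraph V} {σ : V → V}

/-- The standing assumptions. -/
structure Setup (H : SimpleGraph V) (σ : V → V) (m : ℕ) : Prop where
  D : Dom H σ
  card : Fintype.card V = 2 * m
  hdeg : ∀ v, m ≤ deg H v + 1
  hno : ¬ Ham H σ

lemma Cyc.congr_mod {c : ℕ} {C : ℤ → V} (h : Cyc H σ c C) {i j : ℤ} (hij : (i - j) % (c : ℤ) = 0) :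
    C i = C j := by
  obtain ⟨q, hq⟩ := Int.dvd_of_emod_eq_zero hij
  have : i = j + q * c := by rw [mul_comm]; omega
  rw [this, h.per_mul]

lemma upd_self {c : ℕ} {C : ℤ → V} (k : ℤ) (p : V) : upd c C k p k = p := by
  simp [upd]

lemma upd_of_lt {c : ℕ} {C : ℤ → V} {k l : ℤ} (p : V) (h1 : k < l) (h2 : l < k + c) :
    upd c C k p l = C l := by
  unfold upd
  rw [if_neg]
  rw [Int.emod_eq_of_lt (by omega) (by omega)]
  omega

lemma upd_pred {c : ℕ} {C : ℤ → V} (hC : Cyc H σ c C) (hc : 2 ≤ c) (k : ℤ) (p : V) :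
    upd c C k p (k - 1) = C (k - 1) := by
  unfold upd
  rw [if_neg]
  intro h
  have h1 := Int.dvd_of_emod_eq_zero h
  rw [show k - 1 - k = -1 by ring, Int.dvd_neg] at h1
  have h2 := Int.le_of_dvd one_pos h1
  omega

/-- Replacing a domino of a cycle. -/
lemma Cyc.update {c : ℕ} {C : ℤ → V} (hC : Cyc H σ c C) (hc : 2 ≤ c) {k : ℤ} {p : V}
    (h1 : H.Adj p (σ (C (k - 1)))) (h2 : H.Adj (σ p) (C (k + 1))) :
    Cyc H σ c (upd c C k p) where
  pos := hC.pos
  per i := by
    unfold upd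
    rw [hC.per, show i + c - k = i - k + c by ring, Int.add_emod_right]
  adj i := by
    have hc0 : (0 : ℤ) < c := by omega
    have hcc : (2 : ℤ) ≤ c := by exact_mod_cast hc
    by_cases hi : (i - k) % (c : ℤ) = 0
    · have hi1 : ¬ (i + 1 - k) % (c : ℤ) = 0 := by
        intro h
        have e1 := Int.dvd_of_emod_eq_zero hi
        have e2 := Int.dvd_of_emod_eq_zero h
        have e3 := Int.dvd_sub e2 e1
        rw [show i + 1 - k - (i - k) = 1 by ring] at e3
        have := Int.le_of_dvd one_pos e3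
        omega
      have e1 : upd c C k p i = p := by unfold upd; rw [if_pos hi]
      have e2 : upd c C k p (i + 1) = C (k + 1) := by
        unfold upd
        rw [if_neg hi1]
        exact hC.congr_mod (by rw [show i + 1 - (k + 1) = i - k by ring]; exact hi)
      rw [e1, e2]
      exact h2
    · by_cases hi1 : (i + 1 - k) % (c : ℤ) = 0
      · have e1 : upd c C k p i = C (k - 1) := by
          unfold upd
          rw [if_neg hi]
          exact hC.congr_mod (by rw [show i - (k - 1) = i + 1 - k by ring]; exact hi1)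
        have e2 : upd c C k p (i + 1) = p := by unfold upd; rw [if_pos hi1]
        rw [e1, e2]
        exact h1.symm
      · have e1 : upd c C k p i = C i := by unfold upd; rw [if_neg hi]
        have e2 : upd c C k p (i + 1) = C (i + 1) := by unfold upd; rw [if_neg hi1]
        rw [e1, e2]
        exact hC.adj i

namespace Conf

variable {c : ℕ} {C : ℤ → V} {p : V} {m : ℕ}

/-- Exchanging the leftover domino. -/
lemma swap (D : Dom H σ) (h : Conf H σ c C p) {k : ℤ}
    (h1 : H.Adj p (σ (C (k - 1)))) (h2 : H.Adj (σ p) (C (k + 1))) :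
    Conf H σ c (upd c C k p) (C k) := by
  have hc := h.two_le D
  have hcyc := h.cyc.update hc h1 h2
  refine ⟨hcyc, ?_⟩
  rw [← hcyc.blk_full k, ← h.cov' k, ← blk_add (i := k) (j := k + 1) (k := k + c) (by omega)
    (by omega), ← blk_add (C := C) (i := k) (j := k + 1) (k := k + c) (by omega) (by omega),
    blk_one, blk_one, upd_self]
  have e : blk σ (upd c C k p) (k + 1) (k + c) = blk σ C (k + 1) (k + c) :=
    blk_congr fun l hl1 hl2 => upd_of_lt p (by omega) hl2
  rw [e]
  abel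

lemma iff1 (S : Setup H σ m) (h : Conf H σ c C p) (k : ℤ) :
    H.Adj (σ p) (C k) ↔ ¬ H.Adj p (σ (C (k - 1))) := by
  have h1 := (h.exact_two S.D S.hno S.card S.hdeg k).1
  constructor
  · intro h2 h3
    rw [ad_eq_one.2 h2, ad_eq_one.2 h3] at h1
    omega
  · intro h2
    rw [ad_eq_zero.2 h2] at h1
    exact ad_eq_one.1 (by omega)

lemma iff2 (S : Setup H σ m) (h : Conf H σ c C p) (k : ℤ) :
    H.Adj p (C k) ↔ ¬ H.Adj (σ p) (σ (C (k - 1))) := by
  have := (h.symm S.D).iff1 S k
  rwa [S.D.inv] at this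

lemma pred_eq (h : Conf H σ c C p) (k : ℤ) : C (k + c - 1) = C (k - 1) := by
  rw [← h.cyc.per (k - 1)]; congr 1; ring

lemma F1 (S : Setup H σ m) (h : Conf H σ c C p) {k l : ℤ} (hkl : k < l) (hlk : l < k + c)
    (h1 : H.Adj p (σ (C (k - 1)))) (h2 : H.Adj (σ p) (σ (C (l - 1)))) : ¬ H.Adj (C k) (C l) := by
  intro h3
  apply S.hno
  have a1 := h.cyc.arc hkl
  have a2 := h.cyc.arc hlk
  rw [h.pred_eq] at a2
  have := (a1.join h2.symm (Seg.single' S.D p)).join h1 (a2.rev S.D)
  refine ⟨_, _, this.congr rfl rfl ?_, h3.symm⟩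
  rw [← h.cov' k, ← blk_add hkl.le hlk.le]
  abel

lemma F2 (S : Setup H σ m) (h : Conf H σ c C p) {k l : ℤ} (hkl : k < l) (hlk : l < k + c)
    (h1 : H.Adj p (C k)) (h2 : H.Adj (σ p) (C l)) :
    ¬ H.Adj (σ (C (k - 1))) (σ (C (l - 1))) := by
  intro h3
  apply S.hno
  have a1 := h.cyc.arc hkl
  have a2 := h.cyc.arc hlk
  rw [h.pred_eq] at a2
  have := ((a1.rev S.D).join h1.symm (Seg.single p)).join h2 a2
  refine ⟨_, _, this.congr rfl rfl ?_, h3⟩
  rw [← h.cov' k, ← blk_add hkl.le hlk.le]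
  abel

end Conf

end Pool.Agent.Lib_MP_c83083_co
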