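import Pool.Agent.Lib_MP_c83083_co.Step2b

/-!
# Step 2, part 3: the case where an edge of type T or S occurs.
-/

namespace Pool.Agent.Lib_MP_c83083_co

open Finset

set_option linter.unusedSectionVars false

variable {V : Type*} [Fintype V] {H : SimpleGraph V} {σ : V → V}

lemma Cyc.window {c : ℕ} {C : ℤ → V} (h : Cyc H σ c C) {P : V → V → Prop} (k : ℤ)
    (hP : ∀ l, k ≤ l → l < k + c → P (C (l - 1)) (C l)) (l : ℤ) : P (C (l - 1)) (C l) := by
  have hc : (0 : ℤ) < c := by exact_mod_cast h.pos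
  have h1 := Int.emod_nonneg (l - k) hc.ne'
  have h2 := Int.emod_lt_of_pos (l - k) hc
  have h3 := hP (k + (l - k) % c) (by omega) (by omega)
  have h4 := Int.emod_add_mul_ediv (l - k) c
  have e1 : C (k + (l - k) % c) = C l := by
    refine h.congr_mod ?_
    rw [show k + (l - k) % c - l = (c : ℤ) * (-((l - k) / c)) by linarith]
    exact Int.mul_emod_right _ _
  have e2 : C (k + (l - k) % c - 1) = C (l - 1) := by
    refine h.congr_mod ?_
    rw [show k + (l - k) % c - 1 - (l - 1) = (c : ℤ) * (-((l - k) / c)) by linarith]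
    exact Int.mul_emod_right _ _
  rwa [e1, e2] at h3

/-- Walking from `k` to `l`. -/
lemma exists_step {P : ℤ → Prop} {k l : ℤ} (hkl : k < l) (hk : P k) (hl : ¬ P l) :
    ∃ j, k ≤ j ∧ j < l ∧ P j ∧ ¬ P (j + 1) := by
  obtain ⟨n, hn⟩ : ∃ n : ℕ, l = k + n := ⟨(l - k).toNat, by omega⟩
  subst hn
  induction n with
  | zero => simp at hkl
  | succ n ih =>
    by_cases h : P (k + n)
    · exact ⟨k + n, by omega, by push_cast; omega, h, by push_cast at hl; rwa [← add_assoc] at hl⟩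
    · rcases Nat.eq_zero_or_pos n with rfl | hn
      · simp [hk] at h
      · obtain ⟨j, h1, h2, h3, h4⟩ := ih (by omega) h
        exact ⟨j, h1, by push_cast; omega, h3, h4⟩

namespace Conf

variable {c : ℕ} {C : ℤ → V} {p : V} {m : ℕ}

lemma a_win (S : Setup H σ m) (h : Conf H σ c C p) {k l : ℤ}
    (hA : H.Adj p (σ (C (k - 1)))) (hB : H.Adj (σ p) (σ (C (k - 1))))
    (hA' : ¬ H.Adj p (σ (C k))) (hB' : ¬ H.Adj (σ p) (σ (C k)))
    (hkl : k + 1 < l) (hlk : l < k + c) :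
    H.Adj p (σ (C (l - 1))) ↔ H.Adj (σ p) (σ (C (l - 1))) := by
  have e : C (k + 1 - 1) = C k := by congr 1; ring
  have i1 := h.iff1 S (k + 1)
  have i2 := h.iff2 S (k + 1)
  rw [e] at i1 i2
  have h' := h.swap S.D hA (i1.2 hA')
  have hc := h.two_le S.D
  have j2 := h'.iff2 S l
  rw [upd_of_lt p (by omega) hlk, upd_of_lt p (show k < l - 1 by omega) (by omega)] at j2
  have hs := h.symm S.D
  constructor
  · intro hP
    by_contra hQ
    have f1 := hs.F1 S (show k < l by omega) hlk hB (by rw [S.D.inv]; exact hP)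
    have f2 := hs.F2 S hkl (by omega) (i1.2 hA') (by rw [S.D.inv]; exact (h.iff2 S l).2 hQ)
    rw [e] at f2
    exact f1 (j2.2 f2)
  · intro hQ
    by_contra hP
    have f1 := h.F1 S (show k < l by omega) hlk hA hQ
    have f2 := h.F2 S hkl (by omega) (i2.2 hB') ((h.iff1 S l).2 hP)
    rw [e] at f2
    exact f1 (j2.2 f2)

lemma a_all (S : Setup H σ m) (h : Conf H σ c C p) {k : ℤ}
    (hA : H.Adj p (σ (C (k - 1)))) (hB : H.Adj (σ p) (σ (C (k - 1))))
    (hA' : ¬ H.Adj p (σ (C k))) (hB' : ¬ H.Adj (σ p) (σ (C k))) (l : ℤ) :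
    H.Adj p (σ (C (l - 1))) ↔ H.Adj (σ p) (σ (C (l - 1))) := by
  refine h.cyc.window (P := fun a _ => H.Adj p (σ a) ↔ H.Adj (σ p) (σ a)) k ?_ l
  intro l h1 h2
  rcases eq_or_ne l k with rfl | hlk
  · exact ⟨fun _ => hB, fun _ => hA⟩
  rcases eq_or_ne l (k + 1) with rfl | hlk'
  · have e : C (k + 1 - 1) = C k := by congr 1; ring
    rw [e]
    exact ⟨fun h => absurd h hA', fun h => absurd h hB'⟩
  exact h.a_win S hA hB hA' hB' (by omega) h2

/-- The transitional domino of a T/S configuration is a twin of the leftover domino. -/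
lemma a_twin (S : Setup H σ m) (h : Conf H σ c C p) {k : ℤ}
    (hA : H.Adj p (σ (C (k - 1)))) (hB : H.Adj (σ p) (σ (C (k - 1))))
    (hA' : ¬ H.Adj p (σ (C k))) (hB' : ¬ H.Adj (σ p) (σ (C k))) (l : ℤ) :
    ((H.Adj (C k) (σ (C (l - 1))) ↔ H.Adj p (σ (C (l - 1)))) ∧
      (H.Adj (C k) (C l) ↔ ¬ H.Adj p (σ (C (l - 1))))) ∧
    ((H.Adj (σ (C k)) (σ (C (l - 1))) ↔ H.Adj p (σ (C (l - 1)))) ∧
      (H.Adj (σ (C k)) (C l) ↔ ¬ H.Adj p (σ (C (l - 1))))) := by
  have e : C (k + 1 - 1) = C k := by congr 1; ring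
  have hc := h.two_le S.D
  have hall := h.a_all S hA hB hA' hB'
  have i1 := h.iff1 S (k + 1)
  have i2 := h.iff2 S (k + 1)
  rw [e] at i1 i2
  have h' := h.swap S.D hA (i1.2 hA')
  have j2k := h'.iff2 S k
  rw [upd_self, upd_pred h.cyc hc] at j2k
  have hadj0 : H.Adj (C k) (σ (C (k - 1))) := by
    have := h.cyc.adj (k - 1)
    rw [show k - 1 + 1 = k by ring] at this
    exact this.symm
  have hpk : ¬ H.Adj (C k) p := fun h1 => (h.iff2 S k).1 h1.symm hB
  have hqk : ¬ H.Adj (C k) (σ p) := fun h1 => (h.iff1 S k).1 h1.symm hA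
  have hBk' : H.Adj (σ (C k)) (σ (C (k - 1))) := by
    by_contra hcon
    exact hpk (j2k.2 hcon)
  have hall' := h'.a_all S (k := k) (by rw [upd_pred h.cyc hc]; exact hadj0)
    (by rw [upd_pred h.cyc hc]; exact hBk') (by rw [upd_self]; exact hqk)
    (by rw [upd_self]; exact fun h1 => hB' h1.symm)
  refine h.cyc.window (P := fun a b =>
    ((H.Adj (C k) (σ a) ↔ H.Adj p (σ a)) ∧ (H.Adj (C k) b ↔ ¬ H.Adj p (σ a))) ∧
    ((H.Adj (σ (C k)) (σ a) ↔ H.Adj p (σ a)) ∧ (H.Adj (σ (C k)) b ↔ ¬ H.Adj p (σ a)))) k ?_ l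
  intro l h1 h2
  rcases eq_or_ne l k with rfl | hlk
  · refine ⟨⟨⟨fun _ => hA, fun _ => hadj0⟩, ⟨fun h3 => absurd h3 (H.loopless.irrefl _),
      fun h3 => absurd hA h3⟩⟩, ⟨⟨fun _ => hA, fun _ => hBk'⟩,
      ⟨fun h3 => absurd h3.symm (S.D.nadj _), fun h3 => absurd hA h3⟩⟩⟩
  rcases eq_or_ne l (k + 1) with rfl | hlk'
  · rw [e]
    have j2 := h'.iff2 S (k + 1)
    rw [upd_of_lt p (by omega) (by omega), show k + 1 - 1 = k by ring, upd_self] at j2
    refine ⟨⟨⟨fun h3 => absurd h3 (S.D.nadj _), fun h3 => absurd h3 hA'⟩,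
      ⟨fun _ => hA', fun _ => j2.2 fun h3 => hB' h3.symm⟩⟩,
      ⟨⟨fun h3 => absurd h3 (H.loopless.irrefl _), fun h3 => absurd h3 hA'⟩,
      ⟨fun _ => hA', fun _ => h.cyc.adj k⟩⟩⟩
  have hkl : k + 1 < l := by omega
  have j1 := h'.iff1 S l
  have j2 := h'.iff2 S l
  have ja := hall' l
  rw [upd_of_lt p (by omega) h2, upd_of_lt p (show k < l - 1 by omega) (by omega)] at j1 j2
  rw [upd_of_lt p (show k < l - 1 by omega) (by omega)] at ja
  by_cases hT : H.Adj p (σ (C (l - 1)))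
  · have f1 := h.F1 S (show k < l by omega) h2 hA ((hall l).1 hT)
    tauto
  · have f2 := h.F2 S hkl (by omega) (i2.2 hB') ((h.iff1 S l).2 hT)
    rw [e] at f2
    tauto

/-- A T edge followed by an S edge gives a large independent set. -/
theorem exc3_of_TS (S : Setup H σ m) (h : Conf H σ c C p) {k₀ : ℤ}
    (hA : H.Adj p (σ (C (k₀ - 1)))) (hB : H.Adj (σ p) (σ (C (k₀ - 1))))
    (hA' : ¬ H.Adj p (σ (C k₀))) (hB' : ¬ H.Adj (σ p) (σ (C k₀))) :
    ∃ I : Finset V, I.card = m + 1 ∧ ∀ u ∈ I, ∀ w ∈ I, ¬ H.Adj u w := by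
  classical
  have hall := h.a_all S hA hB hA' hB'
  have hcm : c + 1 = m := by have := h.card; have := S.card; omega
  have hc := h.two_le S.D
  have ss : ∀ k l, H.Adj p (σ (C (k - 1))) → H.Adj p (σ (C (l - 1))) → ¬ H.Adj (C k) (C l) := by
    intro k l hk
    refine h.cyc.window (P := fun a b => H.Adj p (σ a) → ¬ H.Adj (C k) b) k ?_ l
    intro l h1 h2 hl
    rcases eq_or_ne l k with rfl | hlk
    · exact H.loopless.irrefl _
    · exact h.F1 S (by omega) h2 hk ((hall l).1 hl)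
  have tt : ∀ k l, ¬ H.Adj p (σ (C (k - 1))) → ¬ H.Adj p (σ (C (l - 1))) →
      ¬ H.Adj (σ (C (k - 1))) (σ (C (l - 1))) := by
    intro k l hk
    refine h.cyc.window (P := fun a _ => ¬ H.Adj p (σ a) → ¬ H.Adj (σ (C (k - 1))) (σ a)) k ?_ l
    intro l h1 h2 hl
    rcases eq_or_ne l k with rfl | hlk
    · exact H.loopless.irrefl _
    · exact h.F2 S (by omega) h2 ((h.iff2 S k).2 fun h3 => hk ((hall k).2 h3))
        ((h.iff1 S l).2 hl)
  have st : ∀ k l, H.Adj p (σ (C (k - 1))) → ¬ H.Adj p (σ (C (l - 1))) →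
      ¬ H.Adj (C k) (σ (C (l - 1))) := by
    intro k l hk
    refine h.cyc.window (P := fun a _ => ¬ H.Adj p (σ a) → ¬ H.Adj (C k) (σ a)) k ?_ l
    intro l h1 h2 hl hadj
    have hkl : k < l := by
      rcases eq_or_ne l k with rfl | hlk
      · exact absurd hk hl
      · omega
    obtain ⟨j, hj1, hj2, hj3, hj4⟩ := exists_step (P := fun i => H.Adj p (σ (C (i - 1)))) hkl hk hl
    simp only [add_sub_cancel_right] at hj4
    have tw := h.a_twin S hj3 ((hall j).1 hj3) hj4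
      (fun h5 => hj4 (by have := (hall (j + 1)).2; simp only [add_sub_cancel_right] at this;
                         exact this h5))
    rcases eq_or_ne j k with rfl | hjk
    · exact hl ((tw l).1.1.1 hadj)
    · -- Hamilton cycle
      apply S.hno
      have hkj : k < j := by omega
      have a1 := h.cyc.arc hkj
      have a2 := h.cyc.arc h2
      have a3 := h.cyc.arc hj2
      rw [h.pred_eq] at a2
      have := ((a1.join hj3.symm (Seg.single p)).join ((h.iff1 S l).2 hl) a2).join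
        ((tw k).1.1.2 hk).symm a3
      refine ⟨_, _, this.congr rfl rfl ?_, hadj.symm⟩
      rw [← h.cov' k, ← blk_add hkl.le h2.le, ← blk_add hkj.le hj2.le]
      abel
  refine ⟨Finset.univ.filter fun v => ¬ H.Adj p v, ?_, ?_⟩
  · have hd : deg H p = (Finset.univ.filter fun v => H.Adj p v).card := by
      unfold deg ad
      rw [Finset.card_filter]
    have hd2 : deg H p = c := by
      rw [h.deg_eq 0 p, ad_eq_zero.2 (H.loopless.irrefl p), ad_eq_zero.2 (S.D.nadj p),
        ← Finset.sum_add_distrib, add_zero, add_zero]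
      have : ∀ j ∈ Finset.Ico (0 : ℤ) (0 + c), ad H p (C j) + ad H p (σ (C (j - 1))) = 1 := by
        intro j _
        by_cases hj : H.Adj p (σ (C (j - 1)))
        · rw [ad_eq_one.2 hj, ad_eq_zero.2 fun h1 => (h.iff2 S j).1 h1 ((hall j).1 hj)]
        · rw [ad_eq_zero.2 hj, ad_eq_one.2 ((h.iff2 S j).2 fun h1 => hj ((hall j).2 h1))]
      rw [Finset.sum_congr rfl this]
      simp
    have h3 := Finset.card_filter_add_card_filter_not (s := (Finset.univ : Finset V))
      (p := fun v => H.Adj p v)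
    rw [Finset.card_univ, S.card] at h3
    omega
  · have hmem : ∀ v, ¬ H.Adj p v → v = p ∨ v = σ p ∨ (∃ k, v = C k ∧ H.Adj p (σ (C (k - 1)))) ∨
        (∃ k, v = σ (C (k - 1)) ∧ ¬ H.Adj p (σ (C (k - 1)))) := by
      intro v hv
      rcases h.cover 0 v with h1 | h1 | ⟨k, -, -, h1 | h1⟩
      · exact Or.inl h1
      · exact Or.inr (Or.inl h1)
      · right; right; left
        refine ⟨k, h1, ?_⟩
        rw [h1] at hv
        by_contra h2
        exact hv ((h.iff2 S k).2 fun h3 => h2 ((hall k).2 h3))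
      · right; right; right
        refine ⟨k, h1, ?_⟩
        rwa [h1] at hv
    have hq : ∀ w, ¬ H.Adj p w → ¬ H.Adj (σ p) w := by
      intro w hw hadj
      rcases hmem w hw with rfl | rfl | ⟨k, rfl, hk⟩ | ⟨k, rfl, hk⟩
      · exact S.D.nadj _ hadj.symm
      · exact H.loopless.irrefl _ hadj
      · exact (h.iff1 S k).1 hadj hk
      · exact hk ((hall k).2 hadj)
    intro u hu w hw
    rw [Finset.mem_filter] at hu hw
    rcases hmem u hu.2 with rfl | rfl | ⟨k, rfl, hk⟩ | ⟨k, rfl, hk⟩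
    · exact hw.2
    · exact hq w hw.2
    · rcases hmem w hw.2 with rfl | rfl | ⟨l, rfl, hl⟩ | ⟨l, rfl, hl⟩
      · exact fun h1 => hu.2 h1.symm
      · exact fun h1 => hq _ hu.2 h1.symm
      · exact ss k l hk hl
      · exact st k l hk hl
    · rcases hmem w hw.2 with rfl | rfl | ⟨l, rfl, hl⟩ | ⟨l, rfl, hl⟩
      · exact fun h1 => hu.2 h1.symm
      · exact fun h1 => hq _ hu.2 h1.symm
      · exact fun h1 => st l k hl hk h1.symm
      · exact tt k l hk hl

end Conf

end Pool.Agent.Lib_MP_c83083_co
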