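import Pool.Agent.Lib_MP_c83083_co.Step2c

/-!
# Step 2, part 4: T or S occurs.
-/

namespace Pool.Agent.Lib_MP_c83083_co

open Finset

set_option linter.unusedSectionVars false

variable {V : Type*} [Fintype V] {H : SimpleGraph V} {σ : V → V}

namespace Conf

variable {c : ℕ} {C : ℤ → V} {p : V} {m : ℕ}

lemma cm (S : Setup H σ m) (h : Conf H σ c C p) : c + 1 = m := by
  have := h.card; have := S.card; omega

lemma card_Ico (k : ℤ) : (Finset.Ico k (k + c)).card = c := by simp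

/-- If T occurs then S occurs. -/
lemma exists_S (S : Setup H σ m) (h : Conf H σ c C p) {k : ℤ}
    (hA : H.Adj p (σ (C (k - 1)))) (hB : H.Adj (σ p) (σ (C (k - 1)))) :
    ∃ l, ¬ H.Adj p (σ (C (l - 1))) ∧ ¬ H.Adj (σ p) (σ (C (l - 1))) := by
  by_contra hcon
  push Not at hcon
  have hc := h.two_le S.D
  have hdeg := S.hdeg (C k)
  rw [h.deg_eq k (C k)] at hdeg
  have e1 : ad H (C k) p = 0 := ad_eq_zero.2 fun h1 => (h.iff2 S k).1 h1.symm hB
  have e2 : ad H (C k) (σ p) = 0 := ad_eq_zero.2 fun h1 => (h.iff1 S k).1 h1.symm hA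
  have hs := h.symm S.D
  have e3 : ∑ l ∈ Finset.Ico k (k + c), ad H (C k) (C l) = 0 := by
    refine Finset.sum_eq_zero fun l hl => ?_
    rw [Finset.mem_Ico] at hl
    rw [ad_eq_zero]
    rcases eq_or_ne l k with rfl | hlk
    · exact H.loopless.irrefl _
    · by_cases hAl : H.Adj p (σ (C (l - 1)))
      · exact hs.F1 S (by omega) hl.2 hB (by rw [S.D.inv]; exact hAl)
      · exact h.F1 S (by omega) hl.2 hA (hcon l hAl)
  have e4 : ∑ l ∈ Finset.Ico k (k + c), ad H (C k) (σ (C (l - 1))) < c := by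
    have : ∑ l ∈ Finset.Ico k (k + c), ad H (C k) (σ (C (l - 1)))
        < ∑ l ∈ Finset.Ico k (k + c), 1 := by
      refine Finset.sum_lt_sum (fun l _ => ad_le_one _ _) ⟨k + 1, ?_, ?_⟩
      · rw [Finset.mem_Ico]; omega
      · rw [show k + 1 - 1 = k by ring, ad_eq_zero.2 (S.D.nadj _)]
        exact one_pos
    simpa using this
  have := h.cm S
  omega

/-- If S occurs then T occurs. -/
lemma exists_T (S : Setup H σ m) (h : Conf H σ c C p) {k : ℤ}
    (hA : ¬ H.Adj p (σ (C (k - 1)))) (hB : ¬ H.Adj (σ p) (σ (C (k - 1)))) :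
    ∃ l, H.Adj p (σ (C (l - 1))) ∧ H.Adj (σ p) (σ (C (l - 1))) := by
  by_contra hcon
  push Not at hcon
  have hc := h.two_le S.D
  have hdeg := S.hdeg (σ (C (k - 1)))
  rw [h.deg_eq k (σ (C (k - 1)))] at hdeg
  have e1 : ad H (σ (C (k - 1))) p = 0 := ad_eq_zero.2 fun h1 => hA h1.symm
  have e2 : ad H (σ (C (k - 1))) (σ p) = 0 := ad_eq_zero.2 fun h1 => hB h1.symm
  have hs := h.symm S.D
  have e3 : ∑ l ∈ Finset.Ico k (k + c), ad H (σ (C (k - 1))) (σ (C (l - 1))) = 0 := by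
    refine Finset.sum_eq_zero fun l hl => ?_
    rw [Finset.mem_Ico] at hl
    rw [ad_eq_zero]
    rcases eq_or_ne l k with rfl | hlk
    · exact H.loopless.irrefl _
    · by_cases hAl : H.Adj p (σ (C (l - 1)))
      · exact hs.F2 S (by omega) hl.2 ((h.iff1 S k).2 hA)
          (by rw [S.D.inv]; exact (h.iff2 S l).2 (hcon l hAl))
      · exact h.F2 S (by omega) hl.2 ((h.iff2 S k).2 hB) ((h.iff1 S l).2 hAl)
  have e4 : ∑ l ∈ Finset.Ico k (k + c), ad H (σ (C (k - 1))) (C l) < c := by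
    have : ∑ l ∈ Finset.Ico k (k + c), ad H (σ (C (k - 1))) (C l)
        < ∑ l ∈ Finset.Ico k (k + c), 1 := by
      refine Finset.sum_lt_sum (fun l _ => ad_le_one _ _) ⟨k + c - 1, ?_, ?_⟩
      · rw [Finset.mem_Ico]; omega
      · rw [h.pred_eq, ad_eq_zero.2 fun h1 => S.D.nadj _ h1.symm]
        exact one_pos
    simpa using this
  have := h.cm S
  omega

/-- The numbers of P and Q edges agree; in particular, if P occurs then Q occurs. -/
lemma exists_Q (S : Setup H σ m) (h : Conf H σ c C p) {k : ℤ}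
    (hA : H.Adj p (σ (C (k - 1)))) (hB : ¬ H.Adj (σ p) (σ (C (k - 1)))) (i : ℤ) :
    ∃ l, i ≤ l ∧ l < i + c ∧ ¬ H.Adj p (σ (C (l - 1))) ∧ H.Adj (σ p) (σ (C (l - 1))) := by
  by_contra hcon
  push Not at hcon
  have hle : ∀ l, ad H (σ p) (σ (C (l - 1))) ≤ ad H p (σ (C (l - 1))) := by
    refine h.cyc.window (P := fun a _ => ad H (σ p) (σ a) ≤ ad H p (σ a)) i ?_
    intro l h1 h2
    by_cases hq : H.Adj (σ p) (σ (C (l - 1)))
    · have : H.Adj p (σ (C (l - 1))) := by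
        by_contra h3
        exact hcon l h1 h2 h3 hq
      rw [ad_eq_one.2 this]
      exact ad_le_one _ _
    · rw [ad_eq_zero.2 hq]; exact Nat.zero_le _
  have hd := h.deg_eq k p
  rw [ad_eq_zero.2 (H.loopless.irrefl p), ad_eq_zero.2 (S.D.nadj p)] at hd
  have hdq := h.deg_eq k (σ p)
  rw [ad_eq_zero.2 (H.loopless.irrefl (σ p)), ad_eq_zero.2 fun h1 => S.D.nadj p h1.symm] at hdq
  have hlt : ∑ l ∈ Finset.Ico k (k + c), ad H (σ p) (σ (C (l - 1)))
      < ∑ l ∈ Finset.Ico k (k + c), ad H p (σ (C (l - 1))) := by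
    refine Finset.sum_lt_sum (fun l _ => hle l) ⟨k, ?_, ?_⟩
    · rw [Finset.mem_Ico]; have := h.cyc.pos; omega
    · rw [ad_eq_one.2 hA, ad_eq_zero.2 hB]; exact one_pos
  have hx := fun j => (h.exact_two S.D S.hno S.card S.hdeg j).1
  have hs1 : ∑ l ∈ Finset.Ico k (k + c), ad H p (σ (C (l - 1)))
      + ∑ l ∈ Finset.Ico k (k + c), ad H (σ p) (C l) = c := by
    rw [← Finset.sum_add_distrib, Finset.sum_congr rfl fun j _ => hx j]
    simp
  have hdq' := S.hdeg (σ p)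
  have := h.cm S
  omega

/-- Type T followed by type P is impossible. -/
lemma b_imp (S : Setup H σ m) (h : Conf H σ c C p) {k : ℤ}
    (hA : H.Adj p (σ (C (k - 1)))) (hB : H.Adj (σ p) (σ (C (k - 1))))
    (hA' : H.Adj p (σ (C k))) (hB' : ¬ H.Adj (σ p) (σ (C k))) : False := by
  have e : C (k + 1 - 1) = C k := by congr 1; ring
  obtain ⟨l, hl1, hl2, hl3, hl4⟩ := h.exists_Q S (k := k + 1) (by rw [e]; exact hA')
    (by rw [e]; exact hB') k
  have hlk : l ≠ k := by rintro rfl; exact hl3 hA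
  have hlk' : l ≠ k + 1 := by rintro rfl; rw [e] at hl3; exact hl3 hA'
  have i2 := h.iff2 S (k + 1)
  rw [e] at i2
  have h' := (h.symm S.D).swap S.D hB (by rw [S.D.inv]; exact i2.2 hB')
  have j2 := h'.iff2 S l
  rw [upd_of_lt (σ p) (by omega) hl2,
    upd_of_lt (σ p) (show k < l - 1 by omega) (by omega)] at j2
  have f1 := h.F1 S (show k < l by omega) hl2 hA hl4
  have f2 := h.F2 S (show k + 1 < l by omega) (by omega) (i2.2 hB') ((h.iff1 S l).2 hl3)
  rw [e] at f2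
  exact f1 (j2.2 f2)

/-- If an edge of type T or S occurs, there is an independent set with `m + 1` vertices. -/
theorem exc3_of_not_PQ (S : Setup H σ m) (h : Conf H σ c C p) {k : ℤ}
    (hk : H.Adj p (σ (C (k - 1))) ↔ H.Adj (σ p) (σ (C (k - 1)))) :
    ∃ I : Finset V, I.card = m + 1 ∧ ∀ u ∈ I, ∀ w ∈ I, ¬ H.Adj u w := by
  -- both T and S occur
  obtain ⟨⟨t, htA, htB⟩, ⟨s, hsA, hsB⟩⟩ : (∃ t, H.Adj p (σ (C (t - 1))) ∧
      H.Adj (σ p) (σ (C (t - 1)))) ∧ (∃ s, ¬ H.Adj p (σ (C (s - 1))) ∧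
      ¬ H.Adj (σ p) (σ (C (s - 1)))) := by
    by_cases hA : H.Adj p (σ (C (k - 1)))
    · exact ⟨⟨k, hA, hk.1 hA⟩, h.exists_S S hA (hk.1 hA)⟩
    · have hB : ¬ H.Adj (σ p) (σ (C (k - 1))) := fun h1 => hA (hk.2 h1)
      exact ⟨h.exists_T S hA hB, ⟨k, hA, hB⟩⟩
  -- a representative of `s` after `t`
  obtain ⟨s', hs', hsA', hsB'⟩ : ∃ s', t < s' ∧ ¬ H.Adj p (σ (C (s' - 1))) ∧
      ¬ H.Adj (σ p) (σ (C (s' - 1))) := by
    have hc : (0 : ℤ) < c := by exact_mod_cast h.cyc.pos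
    have e : C (s + (|t - s| + 1) * c - 1) = C (s - 1) := by
      rw [← h.cyc.per_mul (s - 1) (|t - s| + 1)]; congr 1; ring
    refine ⟨s + (|t - s| + 1) * c, ?_, by rw [e]; exact hsA, by rw [e]; exact hsB⟩
    have h1 := le_abs_self (t - s)
    have h2 := abs_nonneg (t - s)
    nlinarith
  obtain ⟨j, hj1, hj2, hj3, hj4⟩ := exists_step
    (P := fun i => H.Adj p (σ (C (i - 1))) ∧ H.Adj (σ p) (σ (C (i - 1)))) hs' ⟨htA, htB⟩
    (fun h1 => hsA' h1.1)
  simp only [add_sub_cancel_right] at hj4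
  by_cases hA' : H.Adj p (σ (C j))
  · have hB' : ¬ H.Adj (σ p) (σ (C j)) := fun h1 => hj4 ⟨hA', h1⟩
    exact (h.b_imp S hj3.1 hj3.2 hA' hB').elim
  · by_cases hB' : H.Adj (σ p) (σ (C j))
    · exact ((h.symm S.D).b_imp S hj3.2 (by rw [S.D.inv]; exact hj3.1) hB'
        (by rw [S.D.inv]; exact hA')).elim
    · exact h.exc3_of_TS S hj3.1 hj3.2 hA' hB'

end Conf

end Pool.Agent.Lib_MP_c83083_co
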